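import Mathlib

set_option autoImplicit false

namespace Pool.Agent.Lib.MP_b03b3a_al

/-- The unit cube of `ℝ^H` with corner the 0-1 vector `c.1` and free directions `c.2`. -/
def cube {H : Type} (c : (H → Bool) × Finset H) : Set (H → ℝ) :=
  {x | ∀ h, (h ∈ c.2 → 0 ≤ x h ∧ x h ≤ 1) ∧ (h ∉ c.2 → x h = if c.1 h = true then 1 else 0)}

/-- The family `K` of cubes is closed under faces. -/
def FaceClosed {H : Type} (K : Set ((H → Bool) × Finset H)) : Prop :=
  ∀ c ∈ K, ∀ c' : (H → Bool) × Finset H, cube c' ⊆ cube c → c' ∈ K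

/-- Gromov's link condition: vertex links are flag complexes. -/
def FlagLinks {H : Type} (K : Set ((H → Bool) × Finset H)) : Prop :=
  ∀ (v : H → Bool) (D : Finset H), (∀ D' ⊆ D, D'.card ≤ 2 → (v, D') ∈ K) → (v, D) ∈ K

/-- Euclidean distance of two points that differ in finitely many coordinates. -/
noncomputable def eucl {H : Type} (x y : H → ℝ) : ℝ := Real.sqrt (∑ᶠ h, (x h - y h) ^ 2)

/-- The piecewise Euclidean path metric: infimum of the lengths of chains of points, consecutive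
points lying in a common cube. -/
noncomputable def chainDist {H : Type} (K : Set ((H → Bool) × Finset H)) (x y : H → ℝ) : ℝ :=
  sInf {r | ∃ (n : ℕ) (p : ℕ → H → ℝ), p 0 = x ∧ p n = y ∧
    (∀ i < n, ∃ c ∈ K, p i ∈ cube c ∧ p (i + 1) ∈ cube c) ∧
    r = ∑ i ∈ Finset.range n, eucl (p i) (p (i + 1))}

/-- The metric space `X` is the union of the cubes of `K` with the piecewise Euclidean metric. -/
def Realizes {H X : Type} [MetricSpace X] (K : Set ((H → Bool) × Finset H)) (ι : X → H → ℝ) :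
    Prop :=
  Function.Injective ι ∧ Set.range ι = ⋃ c ∈ K, cube c ∧
    ∀ x y, dist x y = chainDist K (ι x) (ι y)

/-- `G` acts by isometries that permute the cubes, freely and discontinuously, and finitely many
cubes meet every orbit. -/
def FreeCocompactCubical {H X : Type} [MetricSpace X] (K : Set ((H → Bool) × Finset H))
    (ι : X → H → ℝ) (G : Type) [Group G] [MulAction G X] : Prop :=
  (∀ (g : G) (x y : X), dist (g • x) (g • y) = dist x y) ∧
  (∀ (g : G), ∀ c ∈ K, ∃ c' ∈ K, (fun x : X => g • x) '' (ι ⁻¹' cube c) = ι ⁻¹' cube c') ∧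
  (∀ x : X, ∃ ε : ℝ, 0 < ε ∧ ∀ g : G, dist (g • x) x < ε → g = 1) ∧
  ∃ F ⊆ K, F.Finite ∧ ∀ x : X, ∃ g : G, ∃ c ∈ F, ι (g • x) ∈ cube c

/-- `c` is an axis of `g`: a geodesic line that `g` translates by a positive amount. -/
def IsAxis {X G : Type} [MetricSpace X] [Group G] [MulAction G X] (g : G) (c : ℝ → X) : Prop :=
  Isometry c ∧ ∃ l : ℝ, 0 < l ∧ ∀ t, g • c t = c (t + l)

/-- The line `c` bounds a flat half-plane. -/
def BoundsHalfPlane {X : Type} [MetricSpace X] (c : ℝ → X) : Prop :=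
  ∃ F : ℂ → X, (∀ z w : ℂ, 0 ≤ z.im → 0 ≤ w.im → dist (F z) (F w) = dist z w) ∧
    ∀ t : ℝ, F t = c t

/-- `g` is a rank-one isometry of `X`. -/
def RankOne (X : Type) {G : Type} [MetricSpace X] [Group G] [MulAction G X] (g : G) : Prop :=
  ∃ c : ℝ → X, IsAxis g c ∧ ¬ BoundsHalfPlane c

/-- The stable centraliser of `g`. -/
def stableCentraliser {G : Type} [Group G] (g : G) : Set G :=
  {h | ∃ n : ℕ, 1 ≤ n ∧ h * g ^ n * h⁻¹ = g ^ n}

/-- The set `S` is an infinite cyclic subgroup. -/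
def IsInfiniteCyclic {G : Type} [Group G] (S : Set G) : Prop :=
  ∃ k : G, ¬ IsOfFinOrder k ∧ S = Subgroup.zpowers k

end Pool.Agent.Lib.MP_b03b3a_al
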