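import Mathlib
import Pool.Agent.Lib.MP_b03b3a_al.Defs

set_option autoImplicit false

namespace Pool.Agent.Lib.MP_b03b3a_al

open Classical

variable {H : Type}

/-- A pair (corner, free directions). -/
abbrev Cb (H : Type) : Type := (H → Bool) × Finset H

/-- Two points in a common cube of `K`. -/
def Near (K : Set (Cb H)) (x y : H → ℝ) : Prop := ∃ c ∈ K, x ∈ cube c ∧ y ∈ cube c

theorem Near.symm {K : Set (Cb H)} {x y : H → ℝ} (h : Near K x y) : Near K y x := by
  obtain ⟨c, hc, h1, h2⟩ := h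
  exact ⟨c, hc, h2, h1⟩

/-- Chains with their lengths. -/
inductive Ch (K : Set (Cb H)) (x : H → ℝ) : (H → ℝ) → ℝ → Prop
  | refl : Ch K x x 0
  | step (y z : H → ℝ) (r : ℝ) : Ch K x y r → Near K y z → Ch K x z (r + eucl y z)

theorem eucl_nonneg (x y : H → ℝ) : 0 ≤ eucl x y := Real.sqrt_nonneg _

theorem eucl_comm (x y : H → ℝ) : eucl x y = eucl y x := by
  unfold eucl
  congr 1
  exact finsum_congr fun h => by ring

theorem eucl_self (x : H → ℝ) : eucl x x = 0 := by simp [eucl]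

theorem eucl_eq_sum (x y : H → ℝ) (S : Finset H) (hS : ∀ h, h ∉ S → x h = y h) :
    eucl x y = Real.sqrt (∑ h ∈ S, (x h - y h) ^ 2) := by
  unfold eucl
  congr 1
  apply finsum_eq_sum_of_support_subset
  intro h hh
  by_contra hn
  apply hh
  simp [hS h hn]

theorem abs_le_eucl (x y : H → ℝ) (S : Finset H) (hS : ∀ h, h ∉ S → x h = y h) (h : H) :
    |x h - y h| ≤ eucl x y := by
  by_cases hh : h ∈ S
  · rw [eucl_eq_sum x y S hS]
    apply Real.abs_le_sqrt
    exact Finset.single_le_sum (f := fun h => (x h - y h) ^ 2) (fun _ _ => sq_nonneg _) hh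
  · rw [hS h hh]; simp [eucl_nonneg]

theorem eq_off_cube {c : Cb H} {x y : H → ℝ} (hx : x ∈ cube c) (hy : y ∈ cube c) (h : H)
    (hh : h ∉ c.2) : x h = y h := by
  rw [(hx h).2 hh, (hy h).2 hh]

theorem cube_bounds {c : Cb H} {x : H → ℝ} (hx : x ∈ cube c) (h : H) : 0 ≤ x h ∧ x h ≤ 1 := by
  by_cases hh : h ∈ c.2
  · exact (hx h).1 hh
  · rw [(hx h).2 hh]; split_ifs <;> norm_num

theorem ch_iff (K : Set (Cb H)) (x y : H → ℝ) (r : ℝ) :
    (∃ (n : ℕ) (p : ℕ → H → ℝ), p 0 = x ∧ p n = y ∧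
      (∀ i < n, ∃ c ∈ K, p i ∈ cube c ∧ p (i + 1) ∈ cube c) ∧
      r = ∑ i ∈ Finset.range n, eucl (p i) (p (i + 1))) ↔ Ch K x y r := by
  constructor
  · rintro ⟨n, p, h0, hn, hc, rfl⟩
    induction n generalizing y with
    | zero => subst h0; subst hn; simpa using Ch.refl
    | succ n ih =>
      rw [Finset.sum_range_succ]
      subst hn
      exact Ch.step _ _ _ (ih (p n) rfl fun i hi => hc i (by omega)) (hc n (by omega))
  · intro h
    induction h with
    | refl => exact ⟨0, fun _ => x, rfl, rfl, by simp, by simp⟩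
    | step y z r _ hn ih =>
      obtain ⟨n, p, h0, hn', hc, rfl⟩ := ih
      refine ⟨n + 1, fun i => if i ≤ n then p i else z, by simpa using h0, by simp, ?_, ?_⟩
      · intro i hi
        by_cases hin : i < n
        · simpa [hin.le, Nat.succ_le_of_lt hin] using hc i hin
        · have : i = n := by omega
          subst this
          simpa [hn', Near] using hn
      · rw [Finset.sum_range_succ]
        congr 1
        · apply Finset.sum_congr rfl
          intro i hi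
          have hi' := Finset.mem_range.mp hi
          simp [hi'.le, Nat.succ_le_of_lt hi']
        · simp [hn']

theorem chainDist_eq (K : Set (Cb H)) (x y : H → ℝ) : chainDist K x y = sInf {r | Ch K x y r} := by
  unfold chainDist
  congr 1
  ext r
  exact ch_iff K x y r

theorem Ch.nonneg {K : Set (Cb H)} {x y : H → ℝ} {r : ℝ} (h : Ch K x y r) : 0 ≤ r := by
  induction h with
  | refl => exact le_rfl
  | step y z r _ _ ih => exact add_nonneg ih (eucl_nonneg _ _)

theorem Ch.trans {K : Set (Cb H)} {x y z : H → ℝ} {r s : ℝ} (h : Ch K x y r) (h' : Ch K y z s) :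
    Ch K x z (r + s) := by
  induction h' with
  | refl => simpa using h
  | step u w t _ hn ih => rw [← add_assoc]; exact Ch.step _ _ _ ih hn

theorem Ch.single {K : Set (Cb H)} {x y : H → ℝ} (h : Near K x y) : Ch K x y (eucl x y) := by
  simpa using Ch.step _ _ _ Ch.refl h

theorem Ch.symm {K : Set (Cb H)} {x y : H → ℝ} {r : ℝ} (h : Ch K x y r) : Ch K y x r := by
  induction h with
  | refl => exact Ch.refl
  | step y z r _ hn ih =>
    have := (Ch.single hn.symm).trans ih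
    rwa [eucl_comm, add_comm] at this

theorem Ch.finite {K : Set (Cb H)} {x y : H → ℝ} {r : ℝ} (h : Ch K x y r) :
    ∃ S : Finset H, ∀ h, h ∉ S → x h = y h := by
  induction h with
  | refl => exact ⟨∅, fun _ _ => rfl⟩
  | step y z r _ hn ih =>
    obtain ⟨S, hS⟩ := ih
    obtain ⟨c, _, h1, h2⟩ := hn
    refine ⟨S ∪ c.2, fun h hh => ?_⟩
    rw [Finset.mem_union, not_or] at hh
    rw [hS h hh.1, eq_off_cube h1 h2 h hh.2]

/-- A connected finite dimensional cube complex in `ℝ^H`. -/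
structure CC (H : Type) where
  K : Set (Cb H)
  face : FaceClosed K
  conn : ∀ x y, Near K x x → Near K y y → ∃ r, Ch K x y r
  dim : ℕ
  card_le : ∀ c ∈ K, c.2.card ≤ dim

namespace CC

variable (C : CC H)

/-- The points of the complex. -/
def X : Type := {x : H → ℝ // Near C.K x x}

theorem bdd (x y : H → ℝ) : BddBelow {r | Ch C.K x y r} := ⟨0, fun _ h => h.nonneg⟩

theorem cd_le {x y : H → ℝ} {r : ℝ} (h : Ch C.K x y r) : chainDist C.K x y ≤ r := by
  rw [chainDist_eq]; exact csInf_le (C.bdd x y) h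

theorem le_cd (x y : C.X) {a : ℝ} (h : ∀ r, Ch C.K x.1 y.1 r → a ≤ r) :
    a ≤ chainDist C.K x.1 y.1 := by
  rw [chainDist_eq]; exact le_csInf (C.conn _ _ x.2 y.2) h

theorem near_left {x y : H → ℝ} (h : Near C.K x y) : Near C.K x x := by
  obtain ⟨c, hc, h1, _⟩ := h; exact ⟨c, hc, h1, h1⟩

theorem phi_le_ch (Φ : C.X → C.X → ℝ) (h0 : ∀ x, Φ x x ≤ 0)
    (htri : ∀ x y z, Φ x z ≤ Φ x y + Φ y z)
    (hn : ∀ x y : C.X, Near C.K x.1 y.1 → Φ x y ≤ eucl x.1 y.1) (x : C.X) (y : H → ℝ) (r : ℝ)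
    (h : Ch C.K x.1 y r) : ∀ hy, Φ x ⟨y, hy⟩ ≤ r := by
  induction h with
  | refl => intro _; exact h0 x
  | step y z r _ hyz ih =>
    intro hz
    have hy := C.near_left hyz
    exact (htri x ⟨y, hy⟩ ⟨z, hz⟩).trans (add_le_add (ih hy) (hn ⟨y, hy⟩ ⟨z, hz⟩ hyz))

theorem phi_le_cd (Φ : C.X → C.X → ℝ) (h0 : ∀ x, Φ x x ≤ 0)
    (htri : ∀ x y z, Φ x z ≤ Φ x y + Φ y z)
    (hn : ∀ x y : C.X, Near C.K x.1 y.1 → Φ x y ≤ eucl x.1 y.1) (x y : C.X) :
    Φ x y ≤ chainDist C.K x.1 y.1 :=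
  C.le_cd x y fun r hr => C.phi_le_ch Φ h0 htri hn x y.1 r hr y.2

theorem abs_le_cd (x y : C.X) (h : H) : |x.1 h - y.1 h| ≤ chainDist C.K x.1 y.1 := by
  apply C.phi_le_cd (fun x y => |x.1 h - y.1 h|)
  · intro x; simp
  · intro x y z; exact abs_sub_le _ _ _
  · rintro x y ⟨c, _, h1, h2⟩
    exact abs_le_eucl _ _ c.2 (eq_off_cube h1 h2) h

noncomputable instance instMetricX : MetricSpace C.X where
  dist x y := chainDist C.K x.1 y.1
  dist_self x := le_antisymm (C.cd_le Ch.refl) (C.le_cd x x fun _ h => h.nonneg)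
  dist_comm x y := le_antisymm (C.le_cd y x fun _ h => C.cd_le h.symm)
    (C.le_cd x y fun _ h => C.cd_le h.symm)
  dist_triangle x y z := by
    have h1 : ∀ s, Ch C.K y.1 z.1 s → chainDist C.K x.1 z.1 - s ≤ chainDist C.K x.1 y.1 := by
      intro s hs
      apply C.le_cd x y
      intro r hr
      have := C.cd_le (hr.trans hs)
      linarith
    have h2 : chainDist C.K x.1 z.1 - chainDist C.K x.1 y.1 ≤ chainDist C.K y.1 z.1 := by
      apply C.le_cd y z
      intro s hs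
      have := h1 s hs
      linarith
    show chainDist C.K x.1 z.1 ≤ chainDist C.K x.1 y.1 + chainDist C.K y.1 z.1
    linarith
  eq_of_dist_eq_zero := by
    intro x y hxy
    apply Subtype.ext
    funext h
    have := C.abs_le_cd x y h
    have h2 : chainDist C.K x.1 y.1 = 0 := hxy
    rw [h2] at this
    exact sub_eq_zero.mp (abs_nonpos_iff.mp this)

theorem dist_def (x y : C.X) : dist x y = chainDist C.K x.1 y.1 := rfl

theorem realizes : Realizes (X := C.X) C.K (fun x => x.1) := by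
  refine ⟨Subtype.val_injective, ?_, fun _ _ => rfl⟩
  ext x
  simp only [Set.mem_range, Set.mem_iUnion]
  constructor
  · rintro ⟨y, rfl⟩
    obtain ⟨c, hc, h1, _⟩ := y.2
    exact ⟨c, hc, h1⟩
  · rintro ⟨c, hc, h1⟩
    exact ⟨⟨x, c, hc, h1, h1⟩, rfl⟩

theorem abs_le_dist (x y : C.X) (h : H) : |x.1 h - y.1 h| ≤ dist x y := C.abs_le_cd x y h

theorem phi_le_dist (Φ : C.X → C.X → ℝ) (h0 : ∀ x, Φ x x ≤ 0)
    (htri : ∀ x y z, Φ x z ≤ Φ x y + Φ y z)
    (hn : ∀ x y : C.X, Near C.K x.1 y.1 → Φ x y ≤ eucl x.1 y.1) (x y : C.X) :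
    Φ x y ≤ dist x y := C.phi_le_cd Φ h0 htri hn x y

theorem dist_le_eucl {x y : C.X} (h : Near C.K x.1 y.1) : dist x y ≤ eucl x.1 y.1 :=
  C.cd_le (Ch.single h)

theorem finite_diff (x y : C.X) : ∃ S : Finset H, ∀ h, h ∉ S → x.1 h = y.1 h := by
  obtain ⟨r, hr⟩ := C.conn _ _ x.2 y.2
  exact hr.finite

theorem bounds (x : C.X) (h : H) : 0 ≤ x.1 h ∧ x.1 h ≤ 1 := by
  obtain ⟨c, _, h1, _⟩ := x.2
  exact cube_bounds h1 h

/-- The carrier cube of a point. -/
theorem exists_carrier (z : C.X) : ∃ c ∈ C.K, (∀ h, h ∈ c.2 ↔ (z.1 h ≠ 0 ∧ z.1 h ≠ 1)) ∧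
    ∀ h, c.1 h = true ↔ z.1 h = 1 := by
  obtain ⟨c, hc, h1, _⟩ := z.2
  refine ⟨(fun h => decide (z.1 h = 1), c.2.filter fun h => z.1 h ≠ 0 ∧ z.1 h ≠ 1), ?_, ?_, ?_⟩
  · apply C.face c hc
    intro x hx h
    have hxh := hx h
    simp only [Finset.mem_filter, decide_eq_true_eq] at hxh
    constructor
    · intro _; exact cube_bounds hx h
    · intro hh
      rw [hxh.2 (fun h' => hh h'.1), (h1 h).2 hh]
      split_ifs <;> simp_all
  · intro h
    simp only [Finset.mem_filter]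
    refine ⟨fun h' => h'.2, fun h' => ⟨?_, h'⟩⟩
    by_contra hh
    have := (h1 h).2 hh
    split_ifs at this
    · exact h'.2 this
    · exact h'.1 this
  · intro h; simp

theorem mem_carrier {c : Cb H} {z : H → ℝ} (h2 : ∀ h, h ∈ c.2 ↔ (z h ≠ 0 ∧ z h ≠ 1))
    (h3 : ∀ h, c.1 h = true ↔ z h = 1) (x : H → ℝ) (hb : ∀ h, 0 ≤ x h ∧ x h ≤ 1)
    (he : ∀ h, (z h = 0 ∨ z h = 1) → x h = z h) : x ∈ cube c := by
  intro h
  refine ⟨fun _ => hb h, fun hh => ?_⟩
  rw [h2, not_and_or, not_not, not_not] at hh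
  rw [he h hh]
  split_ifs with h4
  · exact (h3 h).1 h4
  · rcases hh with hh | hh
    · exact hh
    · exact absurd ((h3 h).2 hh) h4

theorem near_of_agree (z : C.X) (x : H → ℝ) (hb : ∀ h, 0 ≤ x h ∧ x h ≤ 1)
    (he : ∀ h, (z.1 h = 0 ∨ z.1 h = 1) → x h = z.1 h) : Near C.K x z.1 := by
  obtain ⟨c, hc, h2, h3⟩ := C.exists_carrier z
  exact ⟨c, hc, mem_carrier h2 h3 x hb he, mem_carrier h2 h3 z.1 (C.bounds z) fun _ _ => rfl⟩

theorem exists_eps (x : C.X) : ∃ ε > 0, ε ≤ 1 ∧ ∀ h, x.1 h ≠ 0 → x.1 h ≠ 1 →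
    ε ≤ x.1 h ∧ ε ≤ 1 - x.1 h := by
  obtain ⟨c, _, h2, _⟩ := C.exists_carrier x
  have : ∀ S : Finset H, (∀ h ∈ S, x.1 h ≠ 0 ∧ x.1 h ≠ 1) →
      ∃ ε > 0, ε ≤ 1 ∧ ∀ h ∈ S, ε ≤ x.1 h ∧ ε ≤ 1 - x.1 h := by
    intro S
    induction S using Finset.induction_on with
    | empty => intro _; exact ⟨1, one_pos, le_rfl, by simp⟩
    | insert a S _ ih =>
      intro hS
      obtain ⟨ε, h0, h1, h3⟩ := ih fun h hh => hS h (Finset.mem_insert_of_mem hh)
      have ha := hS a (Finset.mem_insert_self _ _)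
      have hb := C.bounds x a
      have h4 : 0 < x.1 a := lt_of_le_of_ne hb.1 (Ne.symm ha.1)
      have h5 : 0 < 1 - x.1 a := sub_pos.mpr (lt_of_le_of_ne hb.2 ha.2)
      refine ⟨min ε (min (x.1 a) (1 - x.1 a)), by positivity, (min_le_left _ _).trans h1, ?_⟩
      intro h hh
      rcases Finset.mem_insert.mp hh with rfl | hh
      · exact ⟨(min_le_right _ _).trans (min_le_left _ _),
          (min_le_right _ _).trans (min_le_right _ _)⟩
      · exact ⟨(min_le_left _ _).trans (h3 h hh).1, (min_le_left _ _).trans (h3 h hh).2⟩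
  obtain ⟨ε, h0, h1, h3⟩ := this c.2 fun h hh => (h2 h).1 hh
  exact ⟨ε, h0, h1, fun h a b => h3 h ((h2 h).2 ⟨a, b⟩)⟩

/-- Points uniformly close to `x` share a cube with `x`. -/
theorem exists_near (x : C.X) : ∃ ε > 0, ∀ z : C.X, (∀ h, |z.1 h - x.1 h| < ε) →
    Near C.K x.1 z.1 := by
  obtain ⟨ε, h0, h1, h2⟩ := C.exists_eps x
  refine ⟨ε, h0, fun z hz => C.near_of_agree z x.1 (C.bounds x) fun h hh => ?_⟩
  have h3 := abs_lt.mp (hz h)
  by_cases a : x.1 h = 0
  · rcases hh with hh | hh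
    · rw [a, hh]
    · exfalso; rw [a, hh] at h3; linarith [h3.2]
  · by_cases b : x.1 h = 1
    · rcases hh with hh | hh
      · exfalso; rw [b, hh] at h3; linarith [h3.1]
      · rw [b, hh]
    · exfalso
      have := h2 h a b
      rcases hh with hh | hh <;> rw [hh] at h3 <;> linarith [h3.1, h3.2, this.1, this.2]

theorem eucl_le_of_near {x y : H → ℝ} (hn : Near C.K x y) {δ : ℝ} (h0 : 0 ≤ δ)
    (hδ : ∀ h, |x h - y h| ≤ δ) : eucl x y ≤ (C.dim + 1) * δ := by
  obtain ⟨c, hc, h1, h2⟩ := hn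
  rw [eucl_eq_sum x y c.2 (eq_off_cube h1 h2)]
  apply Real.sqrt_le_iff.mpr
  refine ⟨by positivity, ?_⟩
  have h3 : ∑ h ∈ c.2, (x h - y h) ^ 2 ≤ c.2.card • δ ^ 2 := by
    apply Finset.sum_le_card_nsmul
    intro h _
    exact sq_le_sq' (abs_le.mp (hδ h)).1 (abs_le.mp (hδ h)).2
  have h4 : (c.2.card : ℝ) ≤ C.dim := by exact_mod_cast C.card_le c hc
  rw [nsmul_eq_mul] at h3
  have h5 : (0 : ℝ) ≤ C.dim := Nat.cast_nonneg _
  nlinarith [sq_nonneg δ, mul_nonneg h5 (sq_nonneg δ), mul_nonneg (mul_nonneg h5 h5) (sq_nonneg δ)]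

/-- Continuity of maps into the complex is uniform continuity of the coordinates. -/
theorem continuous_of_unif {Z : Type} [TopologicalSpace Z] (f : Z → C.X)
    (hf : ∀ z₀ : Z, ∀ ε > 0, ∀ᶠ z in nhds z₀, ∀ h, |(f z).1 h - (f z₀).1 h| ≤ ε) :
    Continuous f := by
  rw [continuous_iff_continuousAt]
  intro z₀
  rw [ContinuousAt, Metric.tendsto_nhds]
  intro ε hε
  obtain ⟨δ, hδ, hn⟩ := C.exists_near (f z₀)
  have hd : (0 : ℝ) < C.dim + 1 := by positivity
  have hp : 0 < min (δ / 2) (ε / (2 * (C.dim + 1))) := by positivity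
  filter_upwards [hf z₀ _ hp] with z hz
  have h1 : Near C.K (f z₀).1 (f z).1 := hn (f z) fun h =>
    lt_of_le_of_lt ((hz h).trans (min_le_left _ _)) (by linarith)
  have h2 := C.eucl_le_of_near h1.symm hp.le hz
  have h3 := C.dist_le_eucl h1.symm
  have h4 : (C.dim + 1) * min (δ / 2) (ε / (2 * (C.dim + 1))) ≤ ε / 2 := by
    calc _ ≤ (C.dim + 1) * (ε / (2 * (C.dim + 1))) :=
          mul_le_mul_of_nonneg_left (min_le_right _ _) hd.le
      _ = ε / 2 := by field_simp
  linarith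

theorem continuous_coord (h : H) : Continuous fun x : C.X => x.1 h := by
  apply LipschitzWith.continuous (K := 1)
  apply LipschitzWith.of_dist_le_mul
  intro x y
  simpa [Real.dist_eq] using C.abs_le_dist x y h

/-- A path that is Lipschitz for the Euclidean distance is Lipschitz for the path metric. -/
theorem dist_le_of_eucl (γ : ℝ → C.X) (L : ℝ)
    (hL : ∀ s t, eucl (γ s).1 (γ t).1 ≤ L * |s - t|) (a b : ℝ) (hab : a ≤ b) :
    dist (γ a) (γ b) ≤ L * (b - a) := by
  have hL0 : 0 ≤ L := by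
    have := (eucl_nonneg _ _).trans (hL 1 0)
    simpa using this
  have hco : ∀ s t h, |(γ s).1 h - (γ t).1 h| ≤ L * |s - t| := by
    intro s t h
    obtain ⟨S, hS⟩ := C.finite_diff (γ s) (γ t)
    exact (abs_le_eucl _ _ S hS h).trans (hL s t)
  have hloc : ∀ t, ∀ᶠ s in nhds t, dist (γ t) (γ s) ≤ L * |t - s| := by
    intro t
    obtain ⟨δ, hδ, hn⟩ := C.exists_near (γ t)
    have hc : Continuous fun s : ℝ => L * |s - t| := by fun_prop
    have : ∀ᶠ s in nhds t, L * |s - t| < δ :=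
      hc.continuousAt.eventually_lt continuousAt_const (by simpa using hδ)
    filter_upwards [this] with s hs
    exact (C.dist_le_eucl (hn (γ s) fun h => (hco s t h).trans_lt hs)).trans (hL t s)
  have hcont : Continuous γ := by
    apply C.continuous_of_unif
    intro t ε hε
    have hc : Continuous fun s : ℝ => L * |s - t| := by fun_prop
    have : ∀ᶠ s in nhds t, L * |s - t| < ε :=
      hc.continuousAt.eventually_lt continuousAt_const (by simpa using hε)
    filter_upwards [this] with s hs h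
    exact (hco s t h).trans hs.le
  have key : Set.Icc a b ⊆ {t | dist (γ a) (γ t) ≤ L * (t - a)} := by
    apply IsClosed.Icc_subset_of_forall_mem_nhdsWithin
    · apply IsClosed.inter _ isClosed_Icc
      exact isClosed_le (by fun_prop) (by fun_prop)
    · simp
    · rintro t ⟨ht, _⟩
      have h1 := hloc t
      filter_upwards [nhdsWithin_le_nhds h1, self_mem_nhdsWithin] with s hs hst
      have hst' : t < s := hst
      have ht' : dist (γ a) (γ t) ≤ L * (t - a) := ht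
      rw [abs_sub_comm, abs_of_pos (sub_pos.mpr hst')] at hs
      show dist (γ a) (γ s) ≤ L * (s - a)
      have := dist_triangle (γ a) (γ t) (γ s)
      linarith
  exact key ⟨hab, le_rfl⟩

end CC

end Pool.Agent.Lib.MP_b03b3a_al
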