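import Mathlib
import Pool.Agent.Lib.MP_b03b3a_al.Metric

set_option autoImplicit false

namespace Pool.Agent.Lib.MP_b03b3a_al

open Classical CategoryTheory unitInterval

theorem exists_val (Y : Type) [TopologicalSpace Y] [PathConnectedSpace Y] :
    ∃ (A : Type) (_ : Group A) (val : ∀ {x y : Y}, Path x y → A),
      (∀ {x y z : Y} (p : Path x y) (q : Path y z), val (p.trans q) = val p * val q) ∧
      (∀ {x y : Y} (p q : Path x y), p.Homotopic q → val p = val q) ∧
      ∀ (x : Y) (p : Path x x), val p = 1 → p.Homotopic (Path.refl x) := by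
  obtain ⟨b⟩ : Nonempty Y := inferInstance
  let B : FundamentalGroupoid Y := ⟨b⟩
  let hm : ∀ {x y : Y}, Path x y → ((⟨x⟩ : FundamentalGroupoid Y) ⟶ ⟨y⟩) :=
    fun p => Path.Homotopic.Quotient.mk p
  have hm_trans : ∀ {x y z : Y} (p : Path x y) (q : Path y z), hm (p.trans q) = hm p ≫ hm q :=
    fun p q => rfl
  let δ : ∀ x : Y, (B ⟶ ⟨x⟩) := fun x => hm (PathConnectedSpace.somePath b x)
  refine ⟨B ⟶ B, Groupoid.vertexGroup B, fun {x y} p => δ x ≫ hm p ≫ Groupoid.inv (δ y),
    ?_, ?_, ?_⟩
  · intro x y z p q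
    rw [Groupoid.vertexGroup_mul]
    simp only [hm_trans]
    simp
  · intro x y p q h
    have : hm p = hm q := Path.Homotopic.Quotient.eq.mpr h
    simp only [this]
  · intro x p h
    rw [Groupoid.vertexGroup_one] at h
    simp only at h
    have h2 : hm p = 𝟙 _ := by
      have h3 : Groupoid.inv (δ x) ≫ (δ x ≫ hm p ≫ Groupoid.inv (δ x)) ≫ δ x =
          Groupoid.inv (δ x) ≫ 𝟙 B ≫ δ x := by rw [h]
      simpa using h3
    exact Path.Homotopic.Quotient.eq.mp h2

variable {H : Type}

/-- Flip one coordinate of a vertex. -/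
noncomputable def flip (v : H → Bool) (h : H) : H → Bool := Function.update v h (!v h)

/-- The point of a vertex. -/
def pt (v : H → Bool) : H → ℝ := fun h => if v h = true then 1 else 0

theorem pt_mem {v w : H → Bool} {D : Finset H} (hw : ∀ h, h ∉ D → w h = v h) :
    pt w ∈ cube (v, D) := by
  intro h
  refine ⟨fun _ => ?_, fun hh => ?_⟩
  · unfold pt; split_ifs <;> norm_num
  · simp only [pt, hw h hh]

theorem cube_mono {v w : H → Bool} {D E : Finset H} (hE : E ⊆ D) (hw : ∀ h, h ∉ D → w h = v h) :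
    cube (w, E) ⊆ cube (v, D) := by
  intro x hx h
  refine ⟨fun _ => cube_bounds hx h, fun hh => ?_⟩
  rw [(hx h).2 fun h' => hh (hE h')]
  simp only [hw h hh]

theorem cube_convex {c : Cb H} {x y : H → ℝ} (hx : x ∈ cube c) (hy : y ∈ cube c) (s : ℝ)
    (h0 : 0 ≤ s) (h1 : s ≤ 1) : (fun h => (1 - s) * x h + s * y h) ∈ cube c := by
  intro h
  refine ⟨fun hh => ?_, fun hh => ?_⟩
  · have a := (hx h).1 hh
    have b := (hy h).1 hh
    constructor <;> nlinarith [a.1, a.2, b.1, b.2]
  · show (1 - s) * x h + s * y h = _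
    rw [(hx h).2 hh, (hy h).2 hh]; ring

namespace CC

variable (C : CC H)

theorem face' {v w : H → Bool} {D E : Finset H} (h : (v, D) ∈ C.K) (hE : E ⊆ D)
    (hw : ∀ h, h ∉ D → w h = v h) : (w, E) ∈ C.K := C.face _ h _ (cube_mono hE hw)

/-- Convex combination of two points of a common cube. -/
def comb {x y : C.X} (h : Near C.K x.1 y.1) (s : I) : C.X :=
  ⟨fun h => (1 - s) * x.1 h + s * y.1 h, by
    obtain ⟨c, hc, h1, h2⟩ := h
    have := cube_convex h1 h2 s s.2.1 s.2.2
    exact ⟨c, hc, this, this⟩⟩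

theorem comb_est (a b a' b' s s' ε : ℝ) (ha : |a - a'| ≤ ε) (hb : |b - b'| ≤ ε) (hs : |s - s'| ≤ ε)
    (h0 : 0 ≤ s) (h1 : s ≤ 1) (ha' : 0 ≤ a' ∧ a' ≤ 1) (hb' : 0 ≤ b' ∧ b' ≤ 1) :
    |((1 - s) * a + s * b) - ((1 - s') * a' + s' * b')| ≤ 2 * ε := by
  have e : ((1 - s) * a + s * b) - ((1 - s') * a' + s' * b') =
      (1 - s) * (a - a') + s * (b - b') + (s - s') * (b' - a') := by ring
  rw [e]
  have h2 : |b' - a'| ≤ 1 := abs_le.mpr ⟨by linarith [ha'.2, hb'.1], by linarith [ha'.1, hb'.2]⟩
  have h3 : |(s - s') * (b' - a')| ≤ ε := by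
    rw [abs_mul]
    nlinarith [abs_nonneg (s - s'), abs_nonneg (b' - a')]
  have h4 : |(1 - s) * (a - a')| ≤ (1 - s) * ε := by
    rw [abs_mul, abs_of_nonneg (by linarith)]
    exact mul_le_mul_of_nonneg_left ha (by linarith)
  have h5 : |s * (b - b')| ≤ s * ε := by
    rw [abs_mul, abs_of_nonneg h0]
    exact mul_le_mul_of_nonneg_left hb h0
  have h6 := abs_add_three ((1 - s) * (a - a')) (s * (b - b')) ((s - s') * (b' - a'))
  linarith

theorem continuous_comb {Z : Type} [TopologicalSpace Z] (f g : Z → C.X) (s : Z → I)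
    (hf : Continuous f) (hg : Continuous g) (hs : Continuous s)
    (hn : ∀ z, Near C.K (f z).1 (g z).1) : Continuous fun z => C.comb (hn z) (s z) := by
  apply C.continuous_of_unif
  intro z₀ ε hε
  have e1 := (Metric.tendsto_nhds.mp (hf.tendsto z₀)) (ε / 2) (by linarith)
  have e2 := (Metric.tendsto_nhds.mp (hg.tendsto z₀)) (ε / 2) (by linarith)
  have e3 := (Metric.tendsto_nhds.mp (hs.tendsto z₀)) (ε / 2) (by linarith)
  filter_upwards [e1, e2, e3] with z h1 h2 h3 h
  have := comb_est ((f z).1 h) ((g z).1 h) ((f z₀).1 h) ((g z₀).1 h) (s z) (s z₀) (ε / 2)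
    ((C.abs_le_dist _ _ h).trans h1.le) ((C.abs_le_dist _ _ h).trans h2.le)
    (le_of_lt h3) (s z).2.1 (s z).2.2 (C.bounds _ h) (C.bounds _ h)
  show |((1 - (s z : ℝ)) * (f z).1 h + s z * (g z).1 h) -
    ((1 - (s z₀ : ℝ)) * (f z₀).1 h + s z₀ * (g z₀).1 h)| ≤ ε
  linarith

/-- The straight segment between two points of a common cube. -/
def seg {x y : C.X} (h : Near C.K x.1 y.1) : Path x y where
  toFun s := C.comb h s
  continuous_toFun := C.continuous_comb (fun _ => x) (fun _ => y) id continuous_const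
    continuous_const continuous_id fun _ => h
  source' := by apply Subtype.ext; funext h; simp [comb]
  target' := by apply Subtype.ext; funext h; simp [comb]

theorem homotopic_of_near {x y : C.X} (p q : Path x y) (h : ∀ t, Near C.K (p t).1 (q t).1) :
    p.Homotopic q := by
  refine ⟨⟨⟨⟨fun z : I × I => C.comb (h z.2) z.1, ?_⟩, ?_, ?_⟩, ?_⟩⟩
  · exact C.continuous_comb (fun z : I × I => p z.2) (fun z => q z.2) Prod.fst (by fun_prop)
      (by fun_prop) continuous_fst fun z => h z.2
  · intro t; apply Subtype.ext; funext h; simp [comb]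
  · intro t; apply Subtype.ext; funext h; simp [comb]
  · intro s t ht
    apply Subtype.ext; funext h
    rcases ht with rfl | ht
    · simp [comb]; ring
    · rw [Set.mem_singleton_iff.mp ht]; simp [comb]; ring

theorem pathConnected [Nonempty C.X] : PathConnectedSpace C.X := by
  refine ⟨inferInstance, fun x y => ?_⟩
  obtain ⟨r, hr⟩ := C.conn _ _ x.2 y.2
  have : ∀ (y : H → ℝ) (r : ℝ), Ch C.K x.1 y r → ∀ hy, Joined x ⟨y, hy⟩ := by
    intro y r h
    induction h with
    | refl => intro _; exact Joined.refl x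
    | step y z r _ hyz ih =>
      intro hz
      exact (ih (C.near_left hyz)).trans ⟨C.seg (x := ⟨y, C.near_left hyz⟩) (y := ⟨z, hz⟩) hyz⟩
  exact this y.1 r hr y.2

theorem trans_mem {Y : Type} [TopologicalSpace Y] {x y z : Y} (p : Path x y) (q : Path y z)
    (S : Set Y) (hp : ∀ t, p t ∈ S) (hq : ∀ t, q t ∈ S) (t : I) : (p.trans q) t ∈ S := by
  rw [Path.trans_apply]
  split_ifs
  · exact hp _
  · exact hq _

/-- Combinatorial simple connectivity: every flat connection on the edges is trivial. -/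
def CombSC : Prop :=
  ∀ (A : Type) [Group A] (φ : (H → Bool) → H → A),
    (∀ v h, (v, {h}) ∈ C.K → φ v h * φ (flip v h) h = 1) →
    (∀ v h h', h ≠ h' → (v, {h, h'}) ∈ C.K →
      φ v h * φ (flip v h) h' = φ v h' * φ (flip v h') h) →
    ∃ f : (H → Bool) → A, ∀ v h, (v, {h}) ∈ C.K → f (flip v h) = f v * φ v h

theorem flip_off (v : H → Bool) (h : H) {D : Finset H} (hh : h ∈ D) (k : H) (hk : k ∉ D) :
    flip v h k = v k := by
  unfold flip
  rw [Function.update_of_ne]
  rintro rfl
  exact hk hh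

theorem flip_flip (v : H → Bool) (h : H) : flip (flip v h) h = v := by
  unfold flip; simp

theorem flip_comm (v : H → Bool) {h h' : H} (hne : h ≠ h') :
    flip (flip v h) h' = flip (flip v h') h := by
  unfold flip
  rw [Function.update_of_ne hne.symm, Function.update_of_ne hne, Function.update_comm hne]

theorem simplyConnected [Nonempty C.X] (hC : C.CombSC) : SimplyConnectedSpace C.X := by
  have := C.pathConnected
  obtain ⟨A, _, val, v_trans, v_hom, v_one⟩ := exists_val C.X
  have v_refl : ∀ x : C.X, val (Path.refl x) = 1 := by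
    intro x
    have := v_trans (Path.refl x) (Path.refl x)
    rw [v_hom _ _ (Path.Homotopic.refl_trans (Path.refl x))] at this
    simpa using this
  -- the value of a segment, on functions
  let ψ : (H → ℝ) → (H → ℝ) → A := fun x y =>
    if h : Near C.K x y then
      val (C.seg (x := ⟨x, C.near_left h⟩) (y := ⟨y, C.near_left h.symm⟩) h) else 1
  have ψ_eq : ∀ (x y : C.X) (h : Near C.K x.1 y.1), ψ x.1 y.1 = val (C.seg h) := by
    intro x y h
    simp only [ψ, dif_pos h]
    rfl
  have seg_mem : ∀ (c : Cb H) (x y : C.X) (h : Near C.K x.1 y.1), x.1 ∈ cube c → y.1 ∈ cube c →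
      ∀ t, C.seg h t ∈ {u : C.X | u.1 ∈ cube c} :=
    fun c x y h hx hy t => cube_convex hx hy t t.2.1 t.2.2
  have ψ_co : ∀ c ∈ C.K, ∀ x y z, x ∈ cube c → y ∈ cube c → z ∈ cube c →
      ψ x y * ψ y z = ψ x z := by
    intro c hc x y z hx hy hz
    let x' : C.X := ⟨x, c, hc, hx, hx⟩
    let y' : C.X := ⟨y, c, hc, hy, hy⟩
    let z' : C.X := ⟨z, c, hc, hz, hz⟩
    rw [ψ_eq x' y' ⟨c, hc, hx, hy⟩, ψ_eq y' z' ⟨c, hc, hy, hz⟩, ψ_eq x' z' ⟨c, hc, hx, hz⟩,
      ← v_trans]
    apply v_hom
    apply C.homotopic_of_near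
    intro t
    exact ⟨c, hc, trans_mem _ _ _ (seg_mem c x' y' _ hx hy) (seg_mem c y' z' _ hy hz) t,
      seg_mem c x' z' _ hx hz t⟩
  have ψ_self : ∀ c ∈ C.K, ∀ x, x ∈ cube c → ψ x x = 1 := by
    intro c hc x hx
    have := ψ_co c hc x x x hx hx hx
    simpa using this
  obtain ⟨f, hf⟩ := hC A (fun v h => ψ (pt v) (pt (flip v h))) (by
      intro v h hv
      have h1 : pt v ∈ cube (v, {h}) := pt_mem fun _ _ => rfl
      have h2 : pt (flip v h) ∈ cube (v, {h}) := pt_mem (flip_off v h (by simp))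
      rw [flip_flip, ψ_co _ hv _ _ _ h1 h2 h1, ψ_self _ hv _ h1]) (by
      intro v h h' hne hv
      have h1 : pt v ∈ cube (v, {h, h'}) := pt_mem fun _ _ => rfl
      have h2 : pt (flip v h) ∈ cube (v, {h, h'}) := pt_mem (flip_off v h (by simp))
      have h3 : pt (flip v h') ∈ cube (v, {h, h'}) := pt_mem (flip_off v h' (by simp))
      have h4 : pt (flip (flip v h) h') ∈ cube (v, {h, h'}) := pt_mem fun k hk => by
        rw [flip_off _ h' (by simp) k hk, flip_off v h (by simp) k hk]
      rw [ψ_co _ hv _ _ _ h1 h2 h4, ← flip_comm v hne, ψ_co _ hv _ _ _ h1 h3 h4])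
  -- vertices of one cube
  have f_cube : ∀ v D, (v, D) ∈ C.K → ∀ (S : Finset H), S ⊆ D → ∀ w : H → Bool,
      (∀ h, h ∉ S → w h = v h) → f w = f v * ψ (pt v) (pt w) := by
    intro v D hv S
    induction S using Finset.induction_on with
    | empty =>
      intro _ w hw
      have : w = v := funext fun h => hw h (by simp)
      rw [this, ψ_self _ hv _ (pt_mem fun _ _ => rfl), mul_one]
    | insert a S ha ih =>
      intro hS w hw
      have hSD : S ⊆ D := (Finset.subset_insert _ _).trans hS
      have haD : a ∈ D := hS (Finset.mem_insert_self _ _)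
      by_cases hwa : w a = v a
      · apply ih hSD w
        intro h hh
        by_cases e : h = a
        · rw [e, hwa]
        · exact hw h (by simp [e, hh])
      · have hw' : ∀ h, h ∉ S → flip w a h = v h := by
          intro h hh
          by_cases e : h = a
          · subst e
            unfold flip
            rw [Function.update_self]
            revert hwa
            cases w h <;> cases v h <;> simp
          · unfold flip
            rw [Function.update_of_ne e]
            exact hw h (by simp [e, hh])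
        have hw'D : ∀ h, h ∉ D → flip w a h = v h := fun h hh => hw' h fun h' => hh (hSD h')
        have e1 := ih hSD (flip w a) hw'
        have e2 := hf (flip w a) a (C.face' hv (by simpa using haD) hw'D)
        rw [flip_flip] at e2
        rw [e2, e1, mul_assoc, ψ_co _ hv _ _ _ (pt_mem fun _ _ => rfl) (pt_mem hw'D)
          (pt_mem fun h hh => hw h fun h' => hh (hS h'))]
  -- extension to all points
  have hF : ∃ F : C.X → A, ∀ c ∈ C.K, ∀ x : C.X, x.1 ∈ cube c → F x = f c.1 * ψ (pt c.1) x.1 := by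
    choose cr hcr h2 h3 using C.exists_carrier
    refine ⟨fun x => f (cr x).1 * ψ (pt (cr x).1) x.1, fun c hc x hx => ?_⟩
    have hv : ∀ h, h ∉ c.2 → (cr x).1 h = c.1 h := by
      intro h hh
      have e := (hx h).2 hh
      have e2 := h3 x h
      revert e e2
      cases (cr x).1 h <;> cases c.1 h <;> simp +contextual
    show f (cr x).1 * ψ (pt (cr x).1) x.1 = _
    rw [f_cube c.1 c.2 hc c.2 (Finset.Subset.refl _) _ hv, mul_assoc,
      ψ_co c hc _ _ _ (pt_mem fun _ _ => rfl) (pt_mem hv) hx]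
  obtain ⟨F, hF⟩ := hF
  have F_near : ∀ (x y : C.X) (h : Near C.K x.1 y.1), F y = F x * val (C.seg h) := by
    intro x y h
    obtain ⟨c, hc, hx, hy⟩ := id h
    rw [hF c hc x hx, hF c hc y hy, ← ψ_eq x y h, mul_assoc,
      ψ_co c hc _ _ _ (pt_mem fun _ _ => rfl) hx hy]
  rw [simply_connected_iff_loops_nullhomotopic]
  refine ⟨inferInstance, fun x p => v_one x p ?_⟩
  have hlc : IsLocallyConstant fun t : I => val (p.subpath 0 t) * (F (p t))⁻¹ := by
    rw [IsLocallyConstant.iff_eventually_eq]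
    intro t₀
    obtain ⟨ε, hε, hn⟩ := C.exists_near (p t₀)
    have hc := Metric.continuous_iff.mp p.continuous t₀ ε hε
    obtain ⟨δ, hδ, hc⟩ := hc
    filter_upwards [Metric.ball_mem_nhds t₀ hδ] with t ht
    have hU : ∀ s : I, dist s t₀ < δ → p s ∈ {u : C.X | ∀ h, |u.1 h - (p t₀).1 h| < ε} :=
      fun s hs h => (C.abs_le_dist _ _ h).trans_lt (hc s hs)
    have hnt : Near C.K (p t).1 (p t₀).1 := (hn _ (hU t ht)).symm
    have e1 : val (p.subpath 0 t) = val (p.subpath 0 t₀) * val (p.subpath t₀ t) := by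
      rw [← v_trans]
      exact (v_hom _ _ ⟨Path.Homotopy.subpathTransSubpath p 0 t₀ t⟩).symm
    have e2 : val (p.subpath t₀ t) * val (C.seg hnt) = 1 := by
      rw [← v_trans, ← v_refl (p t₀)]
      apply v_hom
      apply C.homotopic_of_near
      intro s
      refine (hn _ (trans_mem _ _ {u : C.X | ∀ h, |u.1 h - (p t₀).1 h| < ε} ?_ ?_ s)).symm
      · intro u
        have : p.subpath t₀ t u ∈ Set.range (p.subpath t₀ t) := ⟨u, rfl⟩
        rw [Path.range_subpath] at this
        obtain ⟨s', hs', e⟩ := this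
        rw [← e]
        apply hU
        refine lt_of_le_of_lt ?_ ht
        have h1 : (s' : ℝ) ∈ Set.uIcc (t₀ : ℝ) t := by
          rcases Set.mem_uIcc.mp hs' with h | h
          · exact Set.mem_uIcc.mpr (Or.inl h)
          · exact Set.mem_uIcc.mpr (Or.inr h)
        exact Set.abs_sub_left_of_mem_uIcc h1
      · intro u h
        show |((1 - (u : ℝ)) * (p t).1 h + u * (p t₀).1 h) - (p t₀).1 h| < ε
        have e : ((1 - (u : ℝ)) * (p t).1 h + u * (p t₀).1 h) - (p t₀).1 h =
          (1 - u) * ((p t).1 h - (p t₀).1 h) := by ring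
        rw [e, abs_mul, abs_of_nonneg (by linarith [u.2.2])]
        have := hU t ht h
        nlinarith [u.2.1, u.2.2, abs_nonneg ((p t).1 h - (p t₀).1 h)]
    rw [e1, F_near _ _ hnt, mul_inv_rev, mul_assoc, eq_inv_of_mul_eq_one_left e2]
  have h01 := hlc.apply_eq_of_preconnectedSpace 0 1
  simp only [Path.subpath_self, v_refl, one_mul, Path.subpath_zero_one] at h01
  have e0 : p 0 = x := p.source
  have e1 : p 1 = x := p.target
  have e2 : val (p.cast p.source p.target) = val p := by
    have : ∀ (a b : C.X) (ha : a = x) (hb : b = x), val (p.cast ha hb) = val p := by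
      intro a b ha hb; subst ha; subst hb; rfl
    exact this _ _ _ _
  rw [e2, e0, e1] at h01
  simpa using h01.symm

end CC

end Pool.Agent.Lib.MP_b03b3a_al
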