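import Mathlib
import Pool.Agent.Lib.MP_b03b3a_al.Simply

set_option autoImplicit false

namespace Pool.Agent.Lib.MP_b03b3a_al

open Classical

variable {H : Type}

/-- The cone over the clique complex of `adj`. -/
def Cone {U : Type} (adj : U → U → Prop) : Set (U → ℝ) :=
  {x | (∀ u, 0 ≤ x u) ∧ ∀ u u', x u ≠ 0 → x u' ≠ 0 → u ≠ u' → adj u u'}

/-- The link of the vertex `v` is the clique complex of `adj`. -/
def IsLink (K : Set (Cb H)) (v : H → Bool) {U : Type} (adj : U → U → Prop) (j : U → H) : Prop :=
  Function.Injective j ∧ ∀ D : Finset H, (v, D) ∈ K ↔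
    (∀ h ∈ D, ∃ u, j u = h) ∧ ∀ u u', j u ∈ D → j u' ∈ D → u ≠ u' → adj u u'

namespace CC

variable (C : CC H)

/-- The open star of a vertex. -/
def star (v : H → Bool) : Set C.X := {x | ∀ h, |x.1 h - pt v h| < 1}

theorem pt_cases (v : H → Bool) (h : H) : pt v h = 0 ∨ pt v h = 1 := by
  unfold pt; split_ifs <;> simp

theorem star_eq {v : H → Bool} {x : C.X} (hx : x ∈ C.star v) (h : H)
    (hh : x.1 h = 0 ∨ x.1 h = 1) : x.1 h = pt v h := by
  have := abs_lt.mp (hx h)
  rcases hh with a | a <;> rcases pt_cases v h with b | b <;> rw [a, b] at this ⊢ <;>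
    linarith [this.1, this.2]

theorem isOpen_star (v : H → Bool) : IsOpen (C.star v) := by
  rw [Metric.isOpen_iff]
  intro x hx
  obtain ⟨ε, h0, h1, h2⟩ := C.exists_eps x
  refine ⟨ε, h0, fun z hz h => ?_⟩
  have h3 := abs_lt.mp ((C.abs_le_dist z x h).trans_lt hz)
  by_cases a : x.1 h = 0 ∨ x.1 h = 1
  · rw [← C.star_eq hx h a, abs_lt]
    constructor <;> linarith [h3.1, h3.2]
  · rw [not_or] at a
    have h4 := h2 h a.1 a.2
    rw [abs_lt]
    rcases pt_cases v h with b | b <;> rw [b] <;> constructor <;>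
      linarith [h3.1, h3.2, h4.1, h4.2]

theorem exists_star (x : C.X) : ∃ v, (v, ∅) ∈ C.K ∧ x ∈ C.star v := by
  obtain ⟨c, hc, h2, h3⟩ := C.exists_carrier x
  refine ⟨c.1, C.face' (v := c.1) (D := c.2) hc (Finset.empty_subset _) fun _ _ => rfl, fun h => ?_⟩
  have hb := C.bounds x h
  unfold pt
  rw [abs_lt]
  split_ifs with e
  · rw [(h3 h).1 e]; norm_num
  · have : x.1 h ≠ 1 := fun e' => e ((h3 h).2 e')
    have := lt_of_le_of_ne hb.2 this
    constructor <;> linarith [hb.1]

theorem star_cube {v : H → Bool} {x : C.X} (hx : x ∈ C.star v) :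
    ∃ D : Finset H, (v, D) ∈ C.K ∧ ∀ h, h ∈ D ↔ x.1 h ≠ pt v h := by
  obtain ⟨c, hc, h2, h3⟩ := C.exists_carrier x
  refine ⟨c.2, C.face' (v := c.1) hc (Finset.Subset.refl _) fun h hh => ?_, fun h => ?_⟩
  · rw [h2, not_and_or, not_not, not_not] at hh
    have e := C.star_eq hx h hh
    have e2 := h3 h
    unfold pt at e
    revert e e2
    cases c.1 h <;> cases v h <;> simp +contextual
  · rw [h2]
    constructor
    · rintro ⟨a, b⟩ e
      rcases pt_cases v h with e' | e'
      · exact a (e.trans e')
      · exact b (e.trans e')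
    · intro e
      by_contra a
      rw [not_and_or, not_not, not_not] at a
      exact e (C.star_eq hx h a)

theorem exists_chart {U E : Type} [Fintype U] [TopologicalSpace E] (adj : U → U → Prop)
    (v : H → Bool) (j : U → H) (hl : IsLink C.K v adj j) (e : Cone adj ≃ₜ E) :
    ∃ φ : OpenPartialHomeomorph C.X E, φ.source = C.star v := by
  obtain ⟨hj, hK⟩ := hl
  let g : Cone adj → H → ℝ := fun q h =>
    if hh : ∃ u, j u = h then |pt v h - min (q.1 hh.choose) 1| else pt v h
  have g_j : ∀ q u, g q (j u) = |pt v (j u) - min (q.1 u) 1| := by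
    intro q u
    have hh : ∃ u', j u' = j u := ⟨u, rfl⟩
    simp only [g, dif_pos hh]
    rw [hj hh.choose_spec]
  have g_off : ∀ q h, (¬ ∃ u, j u = h) → g q h = pt v h := by
    intro q h hh
    simp only [g, dif_neg hh]
  have g_abs : ∀ q u, |g q (j u) - pt v (j u)| = min (q.1 u) 1 := by
    intro q u
    have h0 : 0 ≤ min (q.1 u) 1 := le_min (q.2.1 u) zero_le_one
    have h1 : min (q.1 u) 1 ≤ 1 := min_le_right _ _
    rw [g_j]
    rcases pt_cases v (j u) with b | b <;> rw [b]
    · simp [abs_of_nonneg h0]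
    · rw [abs_of_nonneg (a := 1 - min (q.1 u) 1) (by linarith)]
      simp [abs_of_nonneg h0]
  have g_mem : ∀ q, Near C.K (g q) (g q) := by
    intro q
    have hc : g q ∈ cube (v, (Finset.univ.filter fun u => q.1 u ≠ 0).image j) := by
      intro h
      refine ⟨fun hh => ?_, fun hh => ?_⟩
      · obtain ⟨u, _, rfl⟩ := Finset.mem_image.mp hh
        have h0 : 0 ≤ min (q.1 u) 1 := le_min (q.2.1 u) zero_le_one
        have h1 : min (q.1 u) 1 ≤ 1 := min_le_right _ _
        rw [g_j]
        refine ⟨abs_nonneg _, abs_le.mpr ?_⟩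
        rcases pt_cases v (j u) with b | b <;> rw [b] <;> constructor <;> linarith
      · by_cases hu : ∃ u, j u = h
        · obtain ⟨u, rfl⟩ := hu
          have : q.1 u = 0 := by
            by_contra hq
            exact hh (Finset.mem_image_of_mem _ (by simpa using hq))
          have e := g_abs q u
          rw [this, min_eq_left zero_le_one, abs_eq_zero, sub_eq_zero] at e
          exact e
        · exact g_off q h hu
    refine ⟨_, (hK _).2 ⟨fun h hh => ?_, fun u u' hu hu' hne => ?_⟩, hc, hc⟩
    · obtain ⟨u, _, rfl⟩ := Finset.mem_image.mp hh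
      exact ⟨u, rfl⟩
    · obtain ⟨a, ha, e1⟩ := Finset.mem_image.mp hu
      obtain ⟨b, hb, e2⟩ := Finset.mem_image.mp hu'
      rw [hj e1] at ha
      rw [hj e2] at hb
      exact q.2.2 u u' (by simpa using ha) (by simpa using hb) hne
  let Ψ : Cone adj → C.X := fun q => ⟨g q, g_mem q⟩
  have hΨ : Continuous Ψ := by
    apply C.continuous_of_unif
    intro q₀ ε hε
    have : ∀ᶠ q in nhds q₀, ∀ u, |q.1 u - q₀.1 u| < ε := by
      rw [Filter.eventually_all]
      intro u
      have hc : Continuous fun q : Cone adj => |q.1 u - q₀.1 u| :=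
        (((continuous_apply u).comp continuous_subtype_val).sub continuous_const).abs
      exact hc.continuousAt.eventually_lt continuousAt_const (by simpa using hε)
    filter_upwards [this] with q hq h
    show |g q h - g q₀ h| ≤ ε
    by_cases hu : ∃ u, j u = h
    · obtain ⟨u, rfl⟩ := hu
      rw [g_j, g_j]
      refine (abs_abs_sub_abs_le_abs_sub _ _).trans ?_
      rw [sub_sub_sub_cancel_left, abs_sub_comm]
      refine (abs_min_sub_min_le_max _ _ _ _).trans ?_
      simp [(hq u).le]
    · rw [g_off q h hu, g_off q₀ h hu]; simp [hε.le]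
  have t_mem : ∀ x : C.X, x ∈ C.star v → (fun u => |x.1 (j u) - pt v (j u)|) ∈ Cone adj := by
    intro x hx
    obtain ⟨D, hD, hD2⟩ := C.star_cube hx
    refine ⟨fun u => abs_nonneg _, fun u u' hu hu' hne => ((hK D).1 hD).2 u u' ?_ ?_ hne⟩
    · rw [hD2]; intro e; exact hu (by simp [e])
    · rw [hD2]; intro e; exact hu' (by simp [e])
  let Θ : C.X → Cone adj := fun x =>
    if hx : x ∈ C.star v then ⟨_, t_mem x hx⟩ else ⟨0, fun _ => le_rfl, fun _ _ h => absurd rfl h⟩
  have Θ_val : ∀ x, x ∈ C.star v → ∀ u, (Θ x).1 u = |x.1 (j u) - pt v (j u)| := by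
    intro x hx u
    simp only [Θ, dif_pos hx]
  let φ : OpenPartialHomeomorph C.X (Cone adj) :=
    { toFun := Θ
      invFun := Ψ
      source := C.star v
      target := {q | ∀ u, q.1 u < 1}
      map_source' := by
        intro x hx u
        rw [Θ_val x hx]; exact hx _
      map_target' := by
        intro q hq h
        show |g q h - pt v h| < 1
        by_cases hu : ∃ u, j u = h
        · obtain ⟨u, rfl⟩ := hu
          rw [g_abs]; exact (min_le_left _ _).trans_lt (hq u)
        · rw [g_off q h hu]; simp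
      left_inv' := by
        intro x hx
        apply Subtype.ext
        funext h
        show g (Θ x) h = x.1 h
        by_cases hu : ∃ u, j u = h
        · obtain ⟨u, rfl⟩ := hu
          rw [g_j, Θ_val x hx, min_eq_left (hx _).le]
          have hb := C.bounds x (j u)
          rcases pt_cases v (j u) with b | b <;> rw [b]
          · simp [abs_of_nonneg hb.1]
          · rw [abs_of_nonpos (a := x.1 (j u) - 1) (by linarith [hb.2])]
            simp [abs_of_nonneg hb.1]
        · rw [g_off _ h hu]
          obtain ⟨D, hD, hD2⟩ := C.star_cube hx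
          by_contra e
          exact hu (((hK D).1 hD).1 h ((hD2 h).2 (Ne.symm e)))
      right_inv' := by
        intro q hq
        have hx : Ψ q ∈ C.star v := by
          intro h
          show |g q h - pt v h| < 1
          by_cases hu : ∃ u, j u = h
          · obtain ⟨u, rfl⟩ := hu
            rw [g_abs]; exact (min_le_left _ _).trans_lt (hq u)
          · rw [g_off q h hu]; simp
        apply Subtype.ext
        funext u
        rw [Θ_val _ hx]
        show |g q (j u) - pt v (j u)| = _
        rw [g_abs, min_eq_left (hq u).le]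
      open_source := C.isOpen_star v
      open_target := by
        have : {q : Cone adj | ∀ u, q.1 u < 1} = ⋂ u, {q : Cone adj | q.1 u < 1} := by
          ext q; simp
        rw [this]
        exact isOpen_iInter_of_finite fun u => isOpen_lt
          ((continuous_apply u).comp continuous_subtype_val) continuous_const
      continuousOn_toFun := by
        rw [continuousOn_iff_continuous_domRestrict]
        have : (C.star v).domRestrict Θ = fun x : C.star v => ⟨_, t_mem x.1 x.2⟩ := by
          funext x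
          apply Subtype.ext
          funext u
          exact Θ_val x.1 x.2 u
        rw [this]
        apply Continuous.subtype_mk
        apply continuous_pi
        intro u
        have := (C.continuous_coord (j u)).comp (continuous_subtype_val (p := (· ∈ C.star v)))
        exact (this.sub continuous_const).abs
      continuousOn_invFun := hΨ.continuousOn }
  exact ⟨φ.transHomeomorph e, rfl⟩

end CC

/-- An action of `G` on the complex by permuting and flipping coordinates. -/
structure CAct (C : CC H) (G : Type) [Group G] [MulAction G H] where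
  fl : G → H → Bool
  fl_one : ∀ h, fl 1 h = false
  fl_mul : ∀ g g' h, fl (g * g') h = xor (fl g h) (fl g' (g⁻¹ • h))
  inv : ∀ (g : G) (v : H → Bool) (D : Finset H), (v, D) ∈ C.K →
    ((fun h => xor (fl g h) (v (g⁻¹ • h))), D.image fun h => g • h) ∈ C.K

namespace CAct

variable {C : CC H} {G : Type} [Group G] [MulAction G H] (A : CAct C G)

/-- The action on functions. -/
noncomputable def actP (g : G) (x : H → ℝ) : H → ℝ :=
  fun h => if A.fl g h = true then 1 - x (g⁻¹ • h) else x (g⁻¹ • h)

/-- The action on cubes. -/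
noncomputable def actC (g : G) (c : Cb H) : Cb H :=
  ((fun h => xor (A.fl g h) (c.1 (g⁻¹ • h))), c.2.image fun h => g • h)

theorem actC_mem (g : G) {c : Cb H} (hc : c ∈ C.K) : A.actC g c ∈ C.K := A.inv g c.1 c.2 hc

theorem mem_image_smul (g : G) (D : Finset H) (h : H) :
    h ∈ D.image (fun h => g • h) ↔ g⁻¹ • h ∈ D := by
  rw [Finset.mem_image]
  constructor
  · rintro ⟨a, ha, rfl⟩; simpa using ha
  · intro ha; exact ⟨_, ha, by simp⟩

theorem actP_mem_iff (g : G) (c : Cb H) (x : H → ℝ) :
    A.actP g x ∈ cube (A.actC g c) ↔ x ∈ cube c := by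
  have key : ∀ h, ((h ∈ (A.actC g c).2 → 0 ≤ A.actP g x h ∧ A.actP g x h ≤ 1) ∧
      (h ∉ (A.actC g c).2 → A.actP g x h = if (A.actC g c).1 h = true then 1 else 0)) ↔
      ((g⁻¹ • h ∈ c.2 → 0 ≤ x (g⁻¹ • h) ∧ x (g⁻¹ • h) ≤ 1) ∧
      (g⁻¹ • h ∉ c.2 → x (g⁻¹ • h) = if c.1 (g⁻¹ • h) = true then 1 else 0)) := by
    intro h
    simp only [actC, actP, mem_image_smul]
    rcases Bool.eq_false_or_eq_true (A.fl g h) with e1 | e1 <;>
      rcases Bool.eq_false_or_eq_true (c.1 (g⁻¹ • h)) with e2 | e2 <;> simp only [e1, e2] <;> simp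
    · refine and_congr (imp_congr_right fun _ => and_comm) (imp_congr_right fun _ => ?_)
      constructor <;> intro a <;> linarith
    · exact fun _ => imp_congr_right fun _ => and_comm
  constructor
  · intro hx h
    have := (key (g • h)).1 (hx _)
    rwa [inv_smul_smul] at this
  · intro hx h
    exact (key h).2 (hx _)

theorem actP_one (x : H → ℝ) : A.actP 1 x = x := by
  funext h; simp [actP, A.fl_one]

theorem actP_mul (g g' : G) (x : H → ℝ) : A.actP (g * g') x = A.actP g (A.actP g' x) := by
  funext h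
  simp only [actP, A.fl_mul, mul_inv_rev, mul_smul]
  cases A.fl g h <;> cases A.fl g' (g⁻¹ • h) <;> simp

theorem near_act (g : G) {x y : H → ℝ} (h : Near C.K x y) :
    Near C.K (A.actP g x) (A.actP g y) := by
  obtain ⟨c, hc, h1, h2⟩ := h
  exact ⟨_, A.actC_mem g hc, (A.actP_mem_iff g c x).2 h1, (A.actP_mem_iff g c y).2 h2⟩

theorem eucl_act (g : G) (x y : H → ℝ) : eucl (A.actP g x) (A.actP g y) = eucl x y := by
  unfold eucl
  congr 1
  rw [← finsum_comp_equiv (MulAction.toPerm g⁻¹) (f := fun h => (x h - y h) ^ 2)]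
  apply finsum_congr
  intro h
  simp only [actP, MulAction.toPerm_apply]
  split_ifs <;> ring

theorem ch_act (g : G) {x y : H → ℝ} {r : ℝ} (h : Ch C.K x y r) :
    Ch C.K (A.actP g x) (A.actP g y) r := by
  induction h with
  | refl => exact Ch.refl
  | step y z r _ hn ih => rw [← A.eucl_act g y z]; exact Ch.step _ _ _ ih (A.near_act g hn)

/-- The action on the points of the complex. -/
@[reducible] noncomputable def mulAction : MulAction G C.X where
  smul g x := ⟨A.actP g x.1, A.near_act g x.2⟩
  one_smul x := Subtype.ext (A.actP_one x.1)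
  mul_smul g g' x := Subtype.ext (A.actP_mul g g' x.1)

theorem dist_act_le (g : G) (x y : C.X) :
    chainDist C.K (A.actP g x.1) (A.actP g y.1) ≤ chainDist C.K x.1 y.1 :=
  C.le_cd x y fun _ hr => C.cd_le (A.ch_act g hr)

theorem dist_act (g : G) (x y : C.X) :
    letI := A.mulAction
    dist (g • x) (g • y) = dist x y := by
  let _ := A.mulAction
  apply le_antisymm (A.dist_act_le g x y)
  have := A.dist_act_le g⁻¹ (g • x) (g • y)
  have e1 : A.actP g⁻¹ (g • x).1 = x.1 := congrArg Subtype.val (inv_smul_smul g x)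
  have e2 : A.actP g⁻¹ (g • y).1 = y.1 := congrArg Subtype.val (inv_smul_smul g y)
  rw [e1, e2] at this
  exact this

theorem image_cube (g : G) (c : Cb H) :
    letI := A.mulAction
    (fun x : C.X => g • x) '' ((fun x : C.X => x.1) ⁻¹' cube c) =
      (fun x : C.X => x.1) ⁻¹' cube (A.actC g c) := by
  let _ := A.mulAction
  ext y
  constructor
  · rintro ⟨x, hx, rfl⟩
    exact (A.actP_mem_iff g c x.1).2 hx
  · intro hy
    refine ⟨g⁻¹ • y, ?_, smul_inv_smul g y⟩
    apply (A.actP_mem_iff g c _).1
    have e1 : A.actP g (g⁻¹ • y).1 = y.1 := congrArg Subtype.val (smul_inv_smul g y)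
    rw [e1]
    exact hy

theorem discrete (x : C.X) :
    letI := A.mulAction
    ∃ ε : ℝ, 0 < ε ∧ ∀ g : G, dist (g • x) x < ε → g • x = x := by
  let _ := A.mulAction
  obtain ⟨c, -, hx, -⟩ := x.2
  have h1 : (Set.range x.1).Finite := by
    refine ((c.2.finite_toSet.image x.1).union (Set.toFinite {0, 1})).subset ?_
    rintro _ ⟨h, rfl⟩
    by_cases e : h ∈ c.2
    · exact Or.inl ⟨h, e, rfl⟩
    · rw [(hx h).2 e]
      split_ifs <;> simp
  have h2 := (h1.union (h1.image fun t => 1 - t)).prod h1
  have h3 := (Filter.eventually_all_finite (l := nhdsWithin (0 : ℝ) (Set.Ioi 0))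
    (p := fun p ε => p.1 ≠ p.2 → ε < |p.1 - p.2|) h2).2 fun p _ => by
      by_cases h : p.1 = p.2
      · simp [h]
      · filter_upwards [nhdsWithin_le_nhds (Iio_mem_nhds (abs_pos.2 (sub_ne_zero.2 h)))]
          with ε hε _ using hε
  obtain ⟨ε, h4, h5⟩ := (h3.and self_mem_nhdsWithin).exists
  refine ⟨ε, h5, fun g hg => Subtype.ext (funext fun h => by_contra fun e => ?_)⟩
  have := h4 ((g • x).1 h, x.1 h) ⟨?_, h, rfl⟩ e
  · exact absurd (this.trans_le (C.abs_le_dist (g • x) x h)) hg.le.not_gt
  · show A.actP g x.1 h ∈ _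
    unfold actP
    split_ifs
    · exact Or.inr ⟨_, ⟨_, rfl⟩, rfl⟩
    · exact Or.inl ⟨_, rfl⟩

end CAct

end Pool.Agent.Lib.MP_b03b3a_al
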