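import Mathlib

set_option autoImplicit false

namespace Pool.Agent.Lib.MP_b03b3a_al

open Classical

/-- A graph of commuting generators. -/
structure RG (M : Type) where
  adj : M → M → Prop
  symm : ∀ a b, adj a b → adj b a
  irrefl : ∀ a, ¬ adj a a

namespace RG

variable {M : Type} (R : RG M)

/-- The right-angled Coxeter matrix. -/
noncomputable def cm : CoxeterMatrix M where
  M := Matrix.of fun a b => if a = b then 1 else if R.adj a b then 2 else 0
  isSymm := by
    ext a b
    simp only [Matrix.transpose_apply, Matrix.of_apply]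
    by_cases h : a = b
    · simp [h]
    · have : R.adj b a ↔ R.adj a b := ⟨R.symm _ _, R.symm _ _⟩
      simp [h, Ne.symm h, this]
  diagonal := by intro i; simp
  off_diagonal := by
    intro i j h
    simp only [Matrix.of_apply, if_neg h]
    split_ifs <;> simp

/-- The right-angled Coxeter group. -/
def W : Type := R.cm.Group

noncomputable instance instGroupW : Group R.W := inferInstanceAs (Group R.cm.Group)

/-- Its Coxeter system. -/
noncomputable def cs : CoxeterSystem R.cm R.W := R.cm.toCoxeterSystem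

/-- The generators. -/
noncomputable def s (i : M) : R.W := R.cs.simple i

theorem s_s (i : M) : R.s i * R.s i = 1 := R.cs.simple_mul_simple_self i

theorem s_inv (i : M) : (R.s i)⁻¹ = R.s i := R.cs.inv_simple i

theorem s_comm {i j : M} (h : R.adj i j) : R.s i * R.s j = R.s j * R.s i := by
  have hne : i ≠ j := by rintro rfl; exact R.irrefl _ h
  have := R.cs.simple_mul_simple_pow i j
  have e : R.cm i j = 2 := by simp [cm, hne, h]
  rw [e, pow_two] at this
  have h2 : R.s i * R.s j = (R.s i * R.s j)⁻¹ := eq_inv_of_mul_eq_one_left this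
  rw [h2, mul_inv_rev, s_inv, s_inv]

theorem liftable {G : Type} [Group G] (f : M → G) (h1 : ∀ i, f i * f i = 1)
    (h2 : ∀ i j, R.adj i j → f i * f j = f j * f i) : R.cm.IsLiftable f := by
  intro i j
  by_cases h : i = j
  · subst h; simp [h1]
  · by_cases h' : R.adj i j
    · have e : R.cm i j = 2 := by simp [cm, h, h']
      rw [e, pow_two]
      calc f i * f j * (f i * f j) = f i * (f j * f i) * f j := by group
        _ = (f i * f i) * (f j * f j) := by rw [← h2 i j h']; group
        _ = 1 := by rw [h1, h1, mul_one]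
    · have e : R.cm i j = 0 := by simp [cm, h, h']
      rw [e, pow_zero]

/-- The universal property. -/
noncomputable def lift {G : Type} [Group G] (f : M → G) (h1 : ∀ i, f i * f i = 1)
    (h2 : ∀ i j, R.adj i j → f i * f j = f j * f i) : R.W →* G :=
  R.cs.lift ⟨f, R.liftable f h1 h2⟩

theorem lift_s {G : Type} [Group G] (f : M → G) (h1 : ∀ i, f i * f i = 1)
    (h2 : ∀ i j, R.adj i j → f i * f j = f j * f i) (i : M) : R.lift f h1 h2 (R.s i) = f i :=
  R.cs.lift_apply_simple (R.liftable f h1 h2) i

theorem ind {p : R.W → Prop} (w : R.W) (h1 : p 1) (h2 : ∀ w i, p w → p (w * R.s i)) : p w :=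
  R.cs.simple_induction_right w h1 h2

theorem conj_eq_iff (i : M) (r t : R.W) : R.s i * r * R.s i = t ↔ r = R.s i * t * R.s i := by
  constructor
  · rintro rfl
    rw [← mul_assoc, ← mul_assoc, s_s, one_mul, mul_assoc, s_s, mul_one]
  · rintro rfl
    rw [← mul_assoc, ← mul_assoc, s_s, one_mul, mul_assoc, s_s, mul_one]

theorem conj_self (i : M) : R.s i * R.s i * R.s i = R.s i := by rw [s_s, one_mul]

/-- The sign representation on generators. -/
noncomputable def sgnFun (i : M) (x : R.W × Bool) : R.W × Bool :=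
  (R.s i * x.1 * R.s i, xor x.2 (decide (x.1 = R.s i)))

theorem sgnFun_invol (i : M) : Function.Involutive (R.sgnFun i) := by
  rintro ⟨r, e⟩
  simp only [sgnFun, conj_eq_iff, conj_self, Prod.mk.injEq, true_and]
  cases e <;> simp

/-- The sign representation. -/
noncomputable def sgn : R.W →* Equiv.Perm (R.W × Bool) :=
  R.lift (fun i => (R.sgnFun_invol i).toPerm) (fun i => by
      ext1 x; exact R.sgnFun_invol i x) (fun i j h => by
      ext1 ⟨r, e⟩
      have h1 : R.s j * R.s i * R.s j = R.s i := by
        rw [← R.s_comm h, mul_assoc, s_s, mul_one]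
      have h2 : R.s i * R.s j * R.s i = R.s j := by
        rw [R.s_comm h, mul_assoc, s_s, mul_one]
      simp only [Equiv.Perm.mul_apply, Function.Involutive.coe_toPerm, sgnFun, conj_eq_iff, h1, h2,
        Prod.mk.injEq]
      constructor
      · calc r = (R.s j * R.s i) * ((R.s i * R.s j) * r * (R.s j * R.s i)) * (R.s i * R.s j) := by
              simp only [mul_assoc]
              rw [← mul_assoc (R.s i) (R.s i), ← mul_assoc (R.s i) (R.s i), s_s, one_mul, one_mul,
                s_s, mul_one, ← mul_assoc, s_s, one_mul]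
          _ = (R.s j * R.s i) * ((R.s j * R.s i) * r * (R.s i * R.s j)) * (R.s i * R.s j) := by
              rw [R.s_comm h]
          _ = _ := by simp only [mul_assoc]
      · cases e <;> cases decide (r = R.s i) <;> cases decide (r = R.s j) <;> rfl)

theorem sgn_s (i : M) (x : R.W × Bool) : R.sgn (R.s i) x = R.sgnFun i x := by
  rw [sgn, lift_s]; rfl

theorem sgn_apply (w r : R.W) (e : Bool) :
    R.sgn w (r, e) = (w * r * w⁻¹, xor e (R.sgn w (r, false)).2) := by
  induction w using R.ind generalizing r e with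
  | h1 => simp
  | h2 w i ih =>
    simp only [map_mul, Equiv.Perm.mul_apply, sgn_s, sgnFun]
    rw [ih, ih _ (xor false _), mul_inv_rev, s_inv]
    simp [mul_assoc]

/-- `N w r` says whether the wall of `r` separates `1` from `w`. -/
noncomputable def N (w r : R.W) : Bool := (R.sgn w (w⁻¹ * r * w, false)).2

theorem N_one (r : R.W) : R.N 1 r = false := by simp [N]

theorem N_mul (u v r : R.W) : R.N (u * v) r = xor (R.N u r) (R.N v (u⁻¹ * r * u)) := by
  simp only [N, map_mul, Equiv.Perm.mul_apply]
  rw [R.sgn_apply v, R.sgn_apply u]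
  simp [mul_assoc, Bool.xor_comm]

theorem N_s (i : M) (r : R.W) : R.N (R.s i) r = decide (r = R.s i) := by
  simp only [N, sgn_s, sgnFun, s_inv, conj_eq_iff, conj_self, Bool.false_xor]

theorem N_mul_s (w : R.W) (i : M) (r : R.W) :
    R.N (w * R.s i) r = xor (R.N w r) (decide (r = w * R.s i * w⁻¹)) := by
  rw [N_mul, N_s]
  congr 2
  apply propext
  constructor
  · intro h; rw [← h]; group
  · intro h; rw [h]; group

theorem N_word : ∀ ω : List M, (R.cs.leftInvSeq ω).Nodup → ∀ r,
    (R.N (R.cs.wordProd ω) r = true ↔ r ∈ R.cs.leftInvSeq ω)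
  | [], _, r => by simp [N_one]
  | i :: ω, h, r => by
    rw [CoxeterSystem.leftInvSeq, List.nodup_cons] at h
    have ih := N_word ω (List.Nodup.of_map _ h.2) ((R.s i)⁻¹ * r * R.s i)
    have e : r ∈ List.map (MulAut.conj (R.cs.simple i)) (R.cs.leftInvSeq ω) ↔
        (R.s i)⁻¹ * r * R.s i ∈ R.cs.leftInvSeq ω := by
      rw [List.mem_map]
      constructor
      · rintro ⟨a, ha, rfl⟩
        simpa [s, mul_assoc] using ha
      · intro ha
        exact ⟨_, ha, by simp [s, mul_assoc]⟩
    rw [CoxeterSystem.wordProd_cons, CoxeterSystem.leftInvSeq, List.mem_cons, e, ← ih]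
    have e2 := R.N_mul (R.s i) (R.cs.wordProd ω) r
    rw [N_s] at e2
    have e3 : R.cs.simple i = R.s i := rfl
    rw [e3, e2]
    by_cases hr : r = R.s i
    · have : ¬ R.N (R.cs.wordProd ω) ((R.s i)⁻¹ * r * R.s i) = true := by
        rw [ih, ← e, hr]; exact h.1
      simp [hr] at this ⊢
      exact this
    · simp [hr]

theorem eq_one_of_N {w : R.W} (h : ∀ r, R.N w r = false) : w = 1 := by
  obtain ⟨ω, hω, rfl⟩ := R.cs.exists_isReduced w
  cases ω with
  | nil => simp
  | cons i ω =>
    have := (R.N_word _ hω.nodup_leftInvSeq (R.s i)).2 (by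
      rw [CoxeterSystem.leftInvSeq]; exact List.mem_cons_self)
    rw [h] at this
    exact absurd this (by simp)

theorem N_inj {u v : R.W} (h : ∀ r, R.N u r = R.N v r) : u = v := by
  have : u⁻¹ * v = 1 := by
    apply R.eq_one_of_N
    intro r
    have e := R.N_mul u⁻¹ u r
    rw [inv_mul_cancel, N_one] at e
    rw [N_mul, ← h, ← e]
  exact inv_mul_eq_one.mp this

theorem N_supp (w : R.W) : ∃ S : Finset R.W, (∀ r ∈ S, ∃ u i, r = u * R.s i * u⁻¹) ∧
    ∀ r, r ∉ S → R.N w r = false := by
  induction w using R.ind with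
  | h1 => exact ⟨∅, by simp, fun r _ => R.N_one r⟩
  | h2 w i ih =>
    obtain ⟨S, h1, h2⟩ := ih
    refine ⟨insert (w * R.s i * w⁻¹) S, fun r hr => ?_, fun r hr => ?_⟩
    · rcases Finset.mem_insert.mp hr with rfl | hr
      · exact ⟨w, i, rfl⟩
      · exact h1 r hr
    · rw [Finset.mem_insert, not_or] at hr
      rw [N_mul_s, h2 r hr.2]
      simp [hr.1]

/-- Parity of the number of generators with property `P`. -/
noncomputable def chi (P : M → Prop) : R.W →* ℤˣ :=
  R.lift (fun i => if P i then -1 else 1) (fun _ => Int.units_mul_self _)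
    (fun _ _ _ => mul_comm _ _)

theorem chi_s (P : M → Prop) (i : M) : R.chi P (R.s i) = if P i then -1 else 1 :=
  R.lift_s _ _ _ i

theorem chi_conj (P : M → Prop) (u r : R.W) : R.chi P (u * r * u⁻¹) = R.chi P r := by
  rw [map_mul, map_mul, map_inv, mul_comm (R.chi P u), mul_assoc, mul_inv_cancel, mul_one]

theorem conj_inj {u v : R.W} {i j : M} (h : u * R.s i * u⁻¹ = v * R.s j * v⁻¹) : i = j := by
  have := congrArg (R.chi (· = i)) h
  rw [chi_conj, chi_conj, chi_s, chi_s, if_pos rfl] at this
  by_contra e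
  rw [if_neg (Ne.symm e)] at this
  exact absurd this (by decide)

section Aut

variable {Γ : Type} [Group Γ] [MulAction Γ M]

/-- The endomorphism induced by a symmetry of the graph. -/
noncomputable def autHom (hΓ : ∀ (γ : Γ) a b, R.adj a b → R.adj (γ • a) (γ • b)) (γ : Γ) :
    R.W →* R.W :=
  R.lift (fun i => R.s (γ • i)) (fun _ => R.s_s _) fun i j h => R.s_comm (hΓ γ i j h)

variable (hΓ : ∀ (γ : Γ) a b, R.adj a b → R.adj (γ • a) (γ • b))

theorem autHom_s (γ : Γ) (i : M) : R.autHom hΓ γ (R.s i) = R.s (γ • i) := R.lift_s _ _ _ i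

theorem autHom_mul (γ δ : Γ) (w : R.W) :
    R.autHom hΓ (γ * δ) w = R.autHom hΓ γ (R.autHom hΓ δ w) := by
  induction w using R.ind with
  | h1 => simp
  | h2 w i ih => simp only [map_mul, ih, autHom_s, mul_smul]

theorem autHom_one (w : R.W) : R.autHom hΓ 1 w = w := by
  induction w using R.ind with
  | h1 => simp
  | h2 w i ih => simp only [map_mul, ih, autHom_s, one_smul]

/-- The action by automorphisms. -/
noncomputable def aut : Γ →* MulAut R.W where
  toFun γ :=
    { toFun := R.autHom hΓ γ
      invFun := R.autHom hΓ γ⁻¹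
      left_inv := fun w => by rw [← autHom_mul, inv_mul_cancel, autHom_one]
      right_inv := fun w => by rw [← autHom_mul, mul_inv_cancel, autHom_one]
      map_mul' := map_mul _ }
  map_one' := by ext w; exact R.autHom_one hΓ w
  map_mul' γ δ := by ext w; exact R.autHom_mul hΓ γ δ w

theorem aut_s (γ : Γ) (i : M) : R.aut hΓ γ (R.s i) = R.s (γ • i) := R.autHom_s hΓ γ i

theorem N_aut (γ : Γ) (w r : R.W) : R.N (R.aut hΓ γ w) (R.aut hΓ γ r) = R.N w r := by
  induction w using R.ind with
  | h1 => simp [N_one]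
  | h2 w i ih =>
    rw [map_mul, aut_s, N_mul_s, N_mul_s, ih, ← aut_s R hΓ, ← map_inv, ← map_mul, ← map_mul]
    simp only [EmbeddingLike.apply_eq_iff_eq]

theorem chi_aut (P : M → Prop) (γ : Γ) (hP : ∀ i, P (γ • i) ↔ P i) (w : R.W) :
    R.chi P (R.aut hΓ γ w) = R.chi P w := by
  induction w using R.ind with
  | h1 => simp
  | h2 w i ih => simp only [map_mul, ih, aut_s, chi_s, hP]

end Aut

end RG

end Pool.Agent.Lib.MP_b03b3a_al
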