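import Mathlib
import Pool.Agent.Lib.MP_b03b3a_al.Simply

set_option autoImplicit false

namespace Pool.Agent.Lib.MP_b03b3a_al

open Classical

/-- A rooted tree without leaves; every edge has a canonical orientation `lo`, `hi` and the
orientation `bot`, `top` away from the root. -/
structure HT (P D : Type) where
  lo : D → P
  hi : D → P
  bot : D → P
  top : D → P
  base : P
  dp : P → ℕ
  ends : ∀ d, (top d = hi d ∧ bot d = lo d) ∨ (top d = lo d ∧ bot d = hi d)
  dp_top : ∀ d, dp (top d) = dp (bot d) + 1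
  dp_base : dp base = 0
  top_inj : Function.Injective top
  top_surj : ∀ p, p ≠ base → ∃ d, top d = p
  child : ∀ p, ∃ d, bot d = p

/-- The `ℓ¹` distance. -/
noncomputable def rho {D : Type} (x y : D → ℝ) : ℝ := ∑ᶠ d, |x d - y d|

theorem rho_eq_sum {D : Type} (x y : D → ℝ) (S : Finset D) (hS : ∀ d, d ∉ S → x d = y d) :
    rho x y = ∑ d ∈ S, |x d - y d| := by
  apply finsum_eq_sum_of_support_subset
  intro d hd
  by_contra hn
  apply hd
  simp [hS d hn]

theorem rho_nonneg {D : Type} (x y : D → ℝ) : 0 ≤ rho x y := finsum_nonneg fun _ => abs_nonneg _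

theorem rho_self {D : Type} (x : D → ℝ) : rho x x = 0 := by simp [rho]

theorem rho_comm {D : Type} (x y : D → ℝ) : rho x y = rho y x :=
  finsum_congr fun _ => abs_sub_comm _ _

theorem rho_tri {D : Type} (x y z : D → ℝ) (h1 : ∃ S : Finset D, ∀ d, d ∉ S → x d = y d)
    (h2 : ∃ S : Finset D, ∀ d, d ∉ S → y d = z d) : rho x z ≤ rho x y + rho y z := by
  obtain ⟨S, hS⟩ := h1
  obtain ⟨T, hT⟩ := h2
  have a : ∀ d, d ∉ S ∪ T → x d = y d := fun d h => hS d fun h' => h (Finset.mem_union_left _ h')
  have b : ∀ d, d ∉ S ∪ T → y d = z d := fun d h => hT d fun h' => h (Finset.mem_union_right _ h')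
  rw [rho_eq_sum x y _ a, rho_eq_sum y z _ b, rho_eq_sum x z _ fun d h => (a d h).trans (b d h),
    ← Finset.sum_add_distrib]
  exact Finset.sum_le_sum fun d _ => abs_sub_le _ _ _

theorem rho_smul {D Γ : Type} [Group Γ] [MulAction Γ D] (γ : Γ) (x y : D → ℝ) :
    rho (fun d => x (γ • d)) (fun d => y (γ • d)) = rho x y :=
  finsum_comp_equiv (MulAction.toPerm γ) (f := fun d => |x d - y d|)

/-- Clamp to the unit interval. -/
noncomputable def clamp (t : ℝ) : ℝ := max 0 (min t 1)

theorem sum_clamp (t : ℝ) (h0 : 0 ≤ t) (n : ℕ) : ∑ k ∈ Finset.range n, clamp (t - k) = min t n := by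
  induction n with
  | zero => simp [h0]
  | succ n ih =>
    rw [Finset.sum_range_succ, ih]
    push_cast
    unfold clamp
    rcases le_total t n with h | h
    · rw [min_eq_left h, min_eq_left (by linarith : t ≤ n + 1), min_eq_left (by linarith),
        max_eq_left (by linarith), add_zero]
    · rw [min_eq_right h, max_eq_right (le_min (by linarith) zero_le_one)]
      rcases le_total t (n + 1) with h' | h'
      · rw [min_eq_left h', min_eq_left (by linarith)]; ring
      · rw [min_eq_right h', min_eq_right (by linarith)]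

theorem clamp_mono {s t : ℝ} (h : s ≤ t) : clamp s ≤ clamp t :=
  max_le_max le_rfl (min_le_min h le_rfl)

theorem clamp_bounds (t : ℝ) : 0 ≤ clamp t ∧ clamp t ≤ 1 :=
  ⟨le_max_left _ _, max_le zero_le_one (min_le_right _ _)⟩

theorem clamp_of_le {t : ℝ} (h : t ≤ 0) : clamp t = 0 :=
  max_eq_left ((min_le_left _ _).trans h)

theorem clamp_of_ge {t : ℝ} (h : 1 ≤ t) : clamp t = 1 := by
  unfold clamp; rw [min_eq_right h, max_eq_right zero_le_one]

theorem clamp_of_mem {t : ℝ} (h0 : 0 ≤ t) (h : t ≤ 1) : clamp t = t := by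
  unfold clamp; rw [min_eq_left h, max_eq_right h0]

namespace HT

variable {P D : Type} (T : HT P D)

theorem top_ne_bot (d : D) : T.top d ≠ T.bot d := by
  intro h
  have := T.dp_top d
  rw [h] at this
  omega

theorem lo_ne_hi (d : D) : T.lo d ≠ T.hi d := by
  have := T.top_ne_bot d
  rcases T.ends d with h | h <;> rw [h.1, h.2] at this
  · exact this.symm
  · exact this

theorem ind {Q : P → Prop} (h0 : Q T.base) (h1 : ∀ d, Q (T.bot d) → Q (T.top d)) (p : P) : Q p := by
  have : ∀ n p, T.dp p = n → Q p := by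
    intro n
    induction n with
    | zero =>
      intro p hp
      by_cases e : p = T.base
      · exact e ▸ h0
      · obtain ⟨d, rfl⟩ := T.top_surj p e
        rw [T.dp_top] at hp
        omega
    | succ n ih =>
      intro p hp
      by_cases e : p = T.base
      · exact e ▸ h0
      · obtain ⟨d, rfl⟩ := T.top_surj p e
        rw [T.dp_top] at hp
        exact h1 d (ih _ (by omega))
  exact this _ p rfl

theorem edge_ind {Q : P → Prop} (h0 : Q T.base) (h1 : ∀ d, Q (T.lo d) ↔ Q (T.hi d)) (p : P) :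
    Q p := by
  refine T.ind h0 (fun d hd => ?_) p
  rcases T.ends d with h | h <;> rw [h.1] <;> rw [h.2] at hd
  · exact (h1 d).1 hd
  · exact (h1 d).2 hd

theorem exists_rec {A : Type} (a : A) (st : D → A → A) :
    ∃ f : P → A, f T.base = a ∧ ∀ d, f (T.top d) = st d (f (T.bot d)) := by
  let F : ℕ → P → A := fun n => Nat.rec (fun _ => a)
    (fun _ G p => if h : ∃ d, T.top d = p then st h.choose (G (T.bot h.choose)) else a) n
  refine ⟨fun p => F (T.dp p) p, by simp only [T.dp_base]; rfl, fun d => ?_⟩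
  simp only [T.dp_top]
  have h : ∃ d', T.top d' = T.top d := ⟨d, rfl⟩
  have e : F (T.dp (T.bot d) + 1) (T.top d) =
      st h.choose (F (T.dp (T.bot d)) (T.bot h.choose)) := dif_pos h
  rw [e, T.top_inj h.choose_spec]

theorem exists_pot {A : Type} [Group A] (a : A) (φ : D → A) :
    ∃ f : P → A, f T.base = a ∧ ∀ d, f (T.hi d) = f (T.lo d) * φ d := by
  obtain ⟨f, h0, h1⟩ := T.exists_rec a fun d x => if T.top d = T.hi d then x * φ d else x * (φ d)⁻¹
  refine ⟨f, h0, fun d => ?_⟩
  have := h1 d
  rcases T.ends d with h | h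
  · rwa [if_pos h.1, h.1, h.2] at this
  · rw [if_neg (by rw [h.1]; exact T.lo_ne_hi d), h.1, h.2] at this
    rw [this]; simp

/-- The edges between the root and a vertex. -/
noncomputable def sep : P → Finset D := (T.exists_rec (∅ : Finset D) fun d S => insert d S).choose

theorem sep_base : T.sep T.base = ∅ :=
  (T.exists_rec (∅ : Finset D) fun d S => insert d S).choose_spec.1

theorem sep_top (d : D) : T.sep (T.top d) = insert d (T.sep (T.bot d)) :=
  (T.exists_rec (∅ : Finset D) fun d S => insert d S).choose_spec.2 d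

theorem dp_le_of_mem (p : P) : ∀ d ∈ T.sep p, T.dp (T.top d) ≤ T.dp p := by
  induction p using T.ind with
  | h0 => simp [sep_base]
  | h1 e ih =>
    intro d hd
    rw [sep_top, Finset.mem_insert] at hd
    rcases hd with rfl | hd
    · exact le_rfl
    · rw [T.dp_top e]; exact (ih d hd).trans (Nat.le_succ _)

theorem not_mem_sep_bot (d : D) : d ∉ T.sep (T.bot d) := by
  intro h
  have := T.dp_le_of_mem _ d h
  rw [T.dp_top] at this
  omega

theorem card_sep (p : P) : (T.sep p).card = T.dp p := by
  induction p using T.ind with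
  | h0 => simp [sep_base, T.dp_base]
  | h1 e ih => rw [sep_top, Finset.card_insert_of_notMem (T.not_mem_sep_bot e), ih, T.dp_top]

theorem sep_inj {p q : P} (h : T.sep p = T.sep q) : p = q := by
  have hd : T.dp p = T.dp q := by rw [← card_sep, ← card_sep, h]
  by_cases hp : p = T.base
  · by_contra hq
    obtain ⟨d, rfl⟩ := T.top_surj q fun e => hq (hp.trans e.symm)
    rw [hp, T.dp_base, T.dp_top] at hd
    omega
  · obtain ⟨d, rfl⟩ := T.top_surj p hp
    by_cases hq : q = T.base
    · rw [hq, T.dp_base, T.dp_top] at hd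
      omega
    · obtain ⟨d', rfl⟩ := T.top_surj q hq
      have : d ∈ T.sep (T.top d') := by rw [← h, sep_top]; exact Finset.mem_insert_self _ _
      rw [sep_top, Finset.mem_insert] at this
      rcases this with rfl | this
      · rfl
      · have := T.dp_le_of_mem _ d this
        rw [T.dp_top d'] at hd
        omega

/-- The side of the edge `d` on which `p` lies. -/
noncomputable def co (p : P) (d : D) : Bool := xor (decide (d ∈ T.sep p)) (decide (d ∈ T.sep (T.lo d)))

theorem co_lo (d : D) : T.co (T.lo d) d = false := by simp [co]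

theorem co_hi (d : D) : T.co (T.hi d) d = true := by
  have h1 := T.not_mem_sep_bot d
  have h2 : d ∈ T.sep (T.top d) := by rw [sep_top]; exact Finset.mem_insert_self _ _
  rcases T.ends d with h | h <;> rw [h.1] at h2 <;> rw [h.2] at h1 <;> simp [co, h1, h2]

theorem co_top_bot {d d' : D} (h : d' ≠ d) : T.co (T.top d) d' = T.co (T.bot d) d' := by
  simp [co, sep_top, h]

theorem co_other {d d' : D} (h : d' ≠ d) : T.co (T.lo d) d' = T.co (T.hi d) d' := by
  have := T.co_top_bot h
  rcases T.ends d with e | e <;> rw [e.1, e.2] at this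
  · exact this.symm
  · exact this

theorem co_bot {d d' : D} (h : d' ≠ d) : T.co (T.bot d) d' = T.co (T.lo d) d' := by
  rcases T.ends d with e | e <;> rw [e.2]
  exact (T.co_other h).symm

theorem co_inj {p q : P} (h : T.co p = T.co q) : p = q := by
  apply T.sep_inj
  ext d
  have := congrFun h d
  simp only [co, Bool.xor_left_inj, decide_eq_decide] at this
  exact this

theorem co_smul {Γ : Type} [Group Γ] [MulAction Γ P] [MulAction Γ D] (γ : Γ)
    (h1 : ∀ d, T.lo (γ • d) = γ • T.lo d) (h2 : ∀ d, T.hi (γ • d) = γ • T.hi d) (p : P) (d : D) :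
    T.co (γ • p) (γ • d) = T.co p d := by
  have key : ∀ p, xor (T.co (γ • p) (γ • d)) (T.co p d) =
      xor (T.co (γ • T.base) (γ • d)) (T.co T.base d) := by
    intro p
    refine T.edge_ind (Q := fun p => xor (T.co (γ • p) (γ • d)) (T.co p d) =
      xor (T.co (γ • T.base) (γ • d)) (T.co T.base d)) rfl (fun e => ?_) p
    rw [← h1, ← h2]
    by_cases he : d = e
    · subst he
      simp [co_lo, co_hi]
    · rw [T.co_other he, T.co_other (d := γ • e) (by simpa using he)]
  have h3 := key (T.lo d)
  rw [← key p, ← h1, co_lo, co_lo] at h3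
  revert h3
  cases T.co (γ • p) (γ • d) <;> cases T.co p d <;> simp

/-- The point `x` lies on the edge `d`. -/
def OnE (d : D) (x : D → ℝ) : Prop :=
  (∀ d', d' ≠ d → x d' = pt (T.co (T.lo d)) d') ∧ 0 ≤ x d ∧ x d ≤ 1

theorem rho_base (p : P) : rho (pt (T.co T.base)) (pt (T.co p)) = T.dp p := by
  rw [rho_eq_sum _ _ (T.sep p), ← card_sep, Finset.card_eq_sum_ones]
  · push_cast
    apply Finset.sum_congr rfl
    intro d hd
    simp only [pt, co, sep_base, hd]
    by_cases e : d ∈ T.sep (T.lo d) <;> simp [e]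
  · intro d hd
    simp [pt, co, sep_base, hd]

theorem rho_onE {d : D} {x y : D → ℝ} (hx : T.OnE d x) (hy : T.OnE d y) :
    rho x y = |x d - y d| := by
  rw [rho_eq_sum x y {d}, Finset.sum_singleton]
  intro d' hd
  rw [Finset.mem_singleton] at hd
  rw [hx.1 d' hd, hy.1 d' hd]

theorem exists_ray {d₀ : D} {x : D → ℝ} (hx : T.OnE d₀ x) :
    ∃ L : ℝ → D → ℝ, L 0 = x ∧ (∀ s, 0 ≤ s → ∃ d, T.OnE d (L s)) ∧
      (∀ s t, ∃ S : Finset D, ∀ d, d ∉ S → L s d = L t d) ∧
      ∀ s t, 0 ≤ s → 0 ≤ t → rho (L s) (L t) = |s - t| := by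
  choose ch hch using T.child
  let e : ℕ → D := fun n => Nat.rec d₀ (fun _ d => ch (T.top d)) n
  have e_succ : ∀ n, T.bot (e (n + 1)) = T.top (e n) := fun n => hch _
  have e_dp : ∀ n, T.dp (T.bot (e n)) = T.dp (T.bot d₀) + n := by
    intro n
    induction n with
    | zero => rfl
    | succ n ih => rw [e_succ, T.dp_top, ih, add_assoc]
  have e_inj : Function.Injective e := by
    intro m n h
    have := e_dp m
    rw [h, e_dp] at this
    omega
  have e_co : ∀ i k d, i ≤ k → (∀ j, i ≤ j → j < k → e j ≠ d) →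
      T.co (T.bot (e k)) d = T.co (T.bot (e i)) d := by
    intro i k d hik
    induction k, hik using Nat.le_induction with
    | base => intro _; rfl
    | succ k hk ih =>
      intro h
      rw [e_succ, T.co_top_bot (h k hk (Nat.lt_succ_self _)).symm]
      exact ih fun j h1 h2 => h j h1 (Nat.lt_succ_of_lt h2)
  let val : D → ℝ → ℝ := fun d u => if T.top d = T.hi d then u else 1 - u
  have val0 : ∀ d, val d 0 = pt (T.co (T.bot d)) d := by
    intro d
    rcases T.ends d with h | h
    · simp [val, h.1, h.2, pt, co_lo]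
    · simp [val, h.1, h.2, pt, co_hi, T.lo_ne_hi d]
  have val1 : ∀ d, val d 1 = pt (T.co (T.top d)) d := by
    intro d
    rcases T.ends d with h | h
    · simp [val, h.1, pt, co_hi]
    · simp [val, h.1, pt, co_lo, T.lo_ne_hi d]
  have val_abs : ∀ d u v, |val d u - val d v| = |u - v| := by
    intro d u v
    simp only [val]
    split_ifs
    · rfl
    · rw [abs_sub_comm]; congr 1; ring
  have val_val : ∀ d u, val d (val d u) = u := by
    intro d u
    simp only [val]
    split_ifs <;> ring
  have val_b : ∀ d u, 0 ≤ u ∧ u ≤ 1 → 0 ≤ val d u ∧ val d u ≤ 1 := by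
    intro d u h
    simp only [val]
    split_ifs
    · exact h
    · constructor <;> linarith [h.1, h.2]
  let M : ℝ → D → ℝ := fun t =>
    Function.extend e (fun k => val (e k) (clamp (t - k))) (pt (T.co (T.bot d₀)))
  have M_e : ∀ t k, M t (e k) = val (e k) (clamp (t - k)) := fun t k => e_inj.extend_apply _ _ k
  have M_off : ∀ t d, (¬ ∃ k, e k = d) → M t d = pt (T.co (T.bot d₀)) d :=
    fun t d h => Function.extend_apply' _ _ d h
  have M_on : ∀ (t : ℝ) (k : ℕ), k ≤ t → t ≤ k + 1 → T.OnE (e k) (M t) := by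
    intro t k h1 h2
    refine ⟨fun d hd => ?_, ?_⟩
    · have e1 : pt (T.co (T.lo (e k))) d = pt (T.co (T.bot (e k))) d := by
        simp only [pt, T.co_bot hd]
      rw [e1]
      rcases Classical.em (∃ j, e j = d) with h | h
      · obtain ⟨j, rfl⟩ := h
        rw [M_e]
        rcases lt_trichotomy j k with hj | hj | hj
        · have : (j : ℝ) + 1 ≤ k := by exact_mod_cast hj
          rw [clamp_of_ge (by linarith), val1, ← e_succ]
          simp only [pt, e_co (j + 1) k (e j) hj fun i a _ h => by
            have := e_inj h; omega]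
        · exact absurd (congrArg e hj) hd
        · have : (k : ℝ) + 1 ≤ j := by exact_mod_cast hj
          rw [clamp_of_le (by linarith), val0]
          simp only [pt, e_co k j (e j) hj.le fun i _ b h => by
            have := e_inj h; omega]
      · rw [M_off t d h]
        simp only [pt, e_co 0 k d (Nat.zero_le _) fun i _ _ h' => h ⟨i, h'⟩]
        rfl
    · rw [M_e]; exact val_b _ _ (clamp_bounds _)
  have M_fin : ∀ (s t : ℝ) (n : ℕ), s ≤ n → t ≤ n → ∀ d, d ∉ (Finset.range n).image e →
      M s d = M t d := by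
    intro s t n hs ht d hd
    rcases Classical.em (∃ j, e j = d) with h | h
    · obtain ⟨j, rfl⟩ := h
      have : n ≤ j := by
        by_contra hj
        exact hd (Finset.mem_image_of_mem _ (Finset.mem_range.mpr (by omega)))
      have : (n : ℝ) ≤ j := by exact_mod_cast this
      rw [M_e, M_e, clamp_of_le (by linarith), clamp_of_le (by linarith)]
    · rw [M_off s d h, M_off t d h]
  have M_rho : ∀ s t : ℝ, 0 ≤ s → s ≤ t → rho (M t) (M s) = t - s := by
    intro s t h0 hst
    obtain ⟨n, hn⟩ := exists_nat_ge t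
    rw [rho_eq_sum _ _ _ (M_fin t s n hn (hst.trans hn)), Finset.sum_image e_inj.injOn]
    have : ∀ k ∈ Finset.range n, |M t (e k) - M s (e k)| = clamp (t - k) - clamp (s - k) := by
      intro k _
      rw [M_e, M_e, val_abs, abs_of_nonneg (sub_nonneg.mpr (clamp_mono (by linarith)))]
    rw [Finset.sum_congr rfl this, Finset.sum_sub_distrib, sum_clamp t (h0.trans hst),
      sum_clamp s h0, min_eq_left hn, min_eq_left (hst.trans hn)]
  have hb := val_b d₀ (x d₀) hx.2
  refine ⟨fun s => M (val d₀ (x d₀) + s), ?_, fun s hs => ?_, fun s t => ?_, fun s t hs ht => ?_⟩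
  · funext d
    have h1 := M_on (val d₀ (x d₀)) 0 (by simpa using hb.1) (by simpa using hb.2)
    simp only [add_zero]
    by_cases hd : d = d₀
    · subst hd
      have := M_e (val d (x d)) 0
      rw [Nat.cast_zero, sub_zero, clamp_of_mem hb.1 hb.2] at this
      exact this.trans (val_val _ _)
    · rw [hx.1 d hd]; exact h1.1 d hd
  · have h0 : 0 ≤ val d₀ (x d₀) + s := add_nonneg hb.1 hs
    exact ⟨_, M_on _ _ (Nat.floor_le h0) (Nat.lt_floor_add_one _).le⟩
  · obtain ⟨n, hn⟩ := exists_nat_ge (max (val d₀ (x d₀) + s) (val d₀ (x d₀) + t))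
    exact ⟨_, M_fin _ _ n ((le_max_left _ _).trans hn) ((le_max_right _ _).trans hn)⟩
  · rcases le_total s t with h | h
    · rw [rho_comm, M_rho _ _ (add_nonneg hb.1 hs) (by linarith), abs_of_nonpos (by linarith)]; ring
    · rw [M_rho _ _ (add_nonneg hb.1 ht) (by linarith), abs_of_nonneg (by linarith)]; ring

theorem exists_pot₂ {P' D' : Type} (T' : HT P' D') {A : Type} [Group A] (φ : D → P' → A)
    (ψ : P → D' → A)
    (h : ∀ d e, φ d (T'.lo e) * ψ (T.hi d) e = ψ (T.lo d) e * φ d (T'.hi e)) :
    ∃ f : P → P' → A, (∀ d q, f (T.hi d) q = f (T.lo d) q * φ d q) ∧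
      ∀ p e, f p (T'.hi e) = f p (T'.lo e) * ψ p e := by
  obtain ⟨g, _, hg⟩ := T.exists_pot 1 fun d => φ d T'.base
  choose f hf0 hf using fun p => T'.exists_pot (g p) (ψ p)
  refine ⟨f, fun d q => ?_, hf⟩
  refine T'.edge_ind (Q := fun q => f (T.hi d) q = f (T.lo d) q * φ d q) ?_ (fun e => ?_) q
  · rw [hf0, hf0, hg]
  · rw [hf, hf, mul_assoc, ← h, ← mul_assoc, mul_left_inj]

end HT

end Pool.Agent.Lib.MP_b03b3a_al
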