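import Mathlib
import Pool.Agent.Lib.MP_b03b3a_al.Act
import Pool.Agent.Lib.MP_b03b3a_al.Racg
import Pool.Agent.Lib.MP_b03b3a_al.Tree

set_option autoImplicit false

namespace Pool.Agent.Lib.MP_b03b3a_al

open Classical

theorem faceClosed_of {H : Type} (K : Set (Cb H))
    (h1 : ∀ v D h, (v, D) ∈ K → h ∈ D → (flip v h, D) ∈ K)
    (h2 : ∀ v D E, (v, D) ∈ K → E ⊆ D → (v, E) ∈ K) : FaceClosed K := by
  have key : ∀ v D, (v, D) ∈ K → ∀ S : Finset H, S ⊆ D → ∀ w : H → Bool,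
      (∀ h, h ∉ S → w h = v h) → (w, D) ∈ K := by
    intro v D hv S
    induction S using Finset.induction_on with
    | empty =>
      intro _ w hw
      have : w = v := funext fun h => hw h (by simp)
      rwa [this]
    | insert a S ha ih =>
      intro hS w hw
      have hSD : S ⊆ D := (Finset.subset_insert _ _).trans hS
      have haD : a ∈ D := hS (Finset.mem_insert_self _ _)
      by_cases hwa : w a = v a
      · apply ih hSD w
        intro h hh
        by_cases e : h = a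
        · rw [e, hwa]
        · exact hw h (by simp [e, hh])
      · have hw' : ∀ h, h ∉ S → flip w a h = v h := by
          intro h hh
          by_cases e : h = a
          · subst e
            unfold flip
            rw [Function.update_self]
            revert hwa
            cases w h <;> cases v h <;> simp
          · unfold flip
            rw [Function.update_of_ne e]
            exact hw h (by simp [e, hh])
        have := h1 _ _ a (ih hSD _ hw') haD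
        rwa [CC.flip_flip] at this
  rintro ⟨v, D⟩ hc ⟨w, E⟩ hsub
  refine h2 w D E (key v D hc D (Finset.Subset.refl _) w fun h hh => ?_) fun h hh => ?_
  · have := (hsub (pt_mem (v := w) (w := w) (D := E) fun _ _ => rfl) h).2 hh
    simp only [pt] at this
    rcases Bool.eq_false_or_eq_true (w h) with e1 | e1 <;>
      rcases Bool.eq_false_or_eq_true (v h) with e2 | e2 <;> simp [e1, e2] at this ⊢
  · by_contra hD
    have a := (hsub (pt_mem (v := w) (w := w) (D := E) fun _ _ => rfl) h).2 hD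
    have b := (hsub (pt_mem (v := w) (w := flip w h) (D := E) (CC.flip_off w h hh)) h).2 hD
    rw [← b] at a
    simp only [pt, flip, Function.update_self] at a
    revert a
    cases w h <;> simp

theorem RG.exists_pot {M A : Type} [Group A] (R : RG M) (a : R.W → M → A)
    (h1 : ∀ w m, a w m * a (w * R.s m) m = 1)
    (h2 : ∀ w m n, R.adj m n → a w m * a (w * R.s m) n = a w n * a (w * R.s n) m) :
    ∃ F : R.W → A, ∀ w m, F (w * R.s m) = F w * a w m := by
  have inv : ∀ m, Function.Involutive fun x : R.W × A => (x.1 * R.s m, x.2 * a x.1 m) := by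
    rintro m ⟨w, x⟩
    simp only [mul_assoc, R.s_s, h1, mul_one]
  let ψ : R.W →* Equiv.Perm (R.W × A) := R.lift (fun m => (inv m).toPerm)
    (fun m => by ext1 x; exact inv m x) (fun m n h => by
      ext1 ⟨w, x⟩
      simp only [Equiv.Perm.mul_apply, Function.Involutive.coe_toPerm, mul_assoc, R.s_comm h,
        h2 w m n h])
  have ψs : ∀ m x, ψ (R.s m) x = (x.1 * R.s m, x.2 * a x.1 m) := by
    intro m x
    simp only [ψ, R.lift_s]
    rfl
  have ψ1 : ∀ w, (ψ w⁻¹ (1, 1)).1 = w := by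
    intro w
    induction w using R.ind with
    | h1 => simp
    | h2 w m ih => rw [mul_inv_rev, R.s_inv, map_mul, Equiv.Perm.mul_apply, ψs, ih]
  refine ⟨fun w => (ψ w⁻¹ (1, 1)).2, fun w m => ?_⟩
  simp only [mul_inv_rev, R.s_inv, map_mul, Equiv.Perm.mul_apply, ψs, ψ1]

/-- Three kinds of coordinates. -/
inductive Tri (A B C : Type) : Type
  | w : A → Tri A B C
  | a : B → Tri A B C
  | b : C → Tri A B C

/-- The data of a product of two trees with mirrors. -/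
structure BD (P₁ D₁ P₂ D₂ M Col : Type) where
  T₁ : HT P₁ D₁
  T₂ : HT P₂ D₂
  R : RG M
  S₁ : M → Set P₁
  S₂ : M → Set P₂
  c₁ : M → P₁
  c₂ : M → P₂
  c₁_mem : ∀ m, c₁ m ∈ S₁ m
  c₂_mem : ∀ m, c₂ m ∈ S₂ m
  star₁ : ∀ m, ∀ p ∈ S₁ m, p = c₁ m ∨ ∃ d, T₁.lo d = c₁ m ∧ T₁.hi d = p
  star₂ : ∀ m, ∀ q ∈ S₂ m, q = c₂ m ∨ ∃ d, T₂.lo d = c₂ m ∧ T₂.hi d = q
  common : ∀ m n, R.adj m n → ∃ p q, (p ∈ S₁ m ∧ q ∈ S₂ m) ∧ p ∈ S₁ n ∧ q ∈ S₂ n
  col : M → Col
  col_adj : ∀ m n, R.adj m n → col m ≠ col n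

namespace BD

variable {P₁ D₁ P₂ D₂ M Col : Type} (B : BD P₁ D₁ P₂ D₂ M Col)

/-- The coordinates. -/
abbrev H : Type := Tri B.R.W D₁ D₂

/-- The vertices. -/
noncomputable def vx (w : B.R.W) (p : P₁) (q : P₂) : B.H → Bool
  | .w r => B.R.N w r
  | .a d => B.T₁.co p d
  | .b d => B.T₂.co q d

/-- The coordinate of a direction. -/
noncomputable def dir (w : B.R.W) : Tri M D₁ D₂ → B.H
  | .w m => .w (w * B.R.s m * w⁻¹)
  | .a d => .a d
  | .b d => .b d

/-- The directions present at a vertex. -/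
def Pres (p : P₁) (q : P₂) : Tri M D₁ D₂ → Prop
  | .w m => p ∈ B.S₁ m ∧ q ∈ B.S₂ m
  | .a d => p = B.T₁.lo d ∨ p = B.T₁.hi d
  | .b d => q = B.T₂.lo d ∨ q = B.T₂.hi d

/-- Adjacent directions. -/
def LA : Tri M D₁ D₂ → Tri M D₁ D₂ → Prop
  | .w m, .w n => B.R.adj m n
  | .w m, .a d => B.T₁.lo d ∈ B.S₁ m ∧ B.T₁.hi d ∈ B.S₁ m
  | .w m, .b d => B.T₂.lo d ∈ B.S₂ m ∧ B.T₂.hi d ∈ B.S₂ m
  | .a d, .w m => B.T₁.lo d ∈ B.S₁ m ∧ B.T₁.hi d ∈ B.S₁ m
  | .b d, .w m => B.T₂.lo d ∈ B.S₂ m ∧ B.T₂.hi d ∈ B.S₂ m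
  | .a _, .b _ => True
  | .b _, .a _ => True
  | .a _, .a _ => False
  | .b _, .b _ => False

theorem LA_symm {l l' : Tri M D₁ D₂} (h : B.LA l l') : B.LA l' l := by
  cases l <;> cases l' <;> first | exact h | exact B.R.symm _ _ h

/-- Cliques of directions at a vertex. -/
def Clq (p : P₁) (q : P₂) (Q : Finset (Tri M D₁ D₂)) : Prop :=
  (∀ l ∈ Q, B.Pres p q l) ∧ ∀ l ∈ Q, ∀ l' ∈ Q, l ≠ l' → B.LA l l'

/-- The cubes. -/
def K : Set (Cb B.H) := {c | ∃ w p q Q, B.Clq p q Q ∧ c = (B.vx w p q, Q.image (B.dir w))}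

theorem vx_inj {w w' : B.R.W} {p p' : P₁} {q q' : P₂} (h : B.vx w p q = B.vx w' p' q') :
    w = w' ∧ p = p' ∧ q = q' :=
  ⟨B.R.N_inj fun r => congrFun h (.w r), B.T₁.co_inj (funext fun d => congrFun h (.a d)),
    B.T₂.co_inj (funext fun d => congrFun h (.b d))⟩

theorem dir_inj (w : B.R.W) : Function.Injective (B.dir w) := by
  intro l l' h
  cases l <;> cases l' <;> simp only [dir, Tri.w.injEq, Tri.a.injEq, Tri.b.injEq, reduceCtorEq] at h
  · rw [B.R.conj_inj h]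
  · rw [h]
  · rw [h]

theorem mem_K {w : B.R.W} {p : P₁} {q : P₂} {D : Finset B.H} :
    (B.vx w p q, D) ∈ B.K ↔ ∃ Q, B.Clq p q Q ∧ D = Q.image (B.dir w) := by
  constructor
  · rintro ⟨w', p', q', Q, hQ, e⟩
    obtain ⟨rfl, rfl, rfl⟩ := B.vx_inj (congrArg Prod.fst e)
    exact ⟨Q, hQ, congrArg Prod.snd e⟩
  · rintro ⟨Q, hQ, rfl⟩
    exact ⟨w, p, q, Q, hQ, rfl⟩

theorem flip_w (w : B.R.W) (p : P₁) (q : P₂) (m : M) :
    flip (B.vx w p q) (.w (w * B.R.s m * w⁻¹)) = B.vx (w * B.R.s m) p q := by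
  funext h
  unfold flip
  cases h with
  | w r =>
    by_cases e : r = w * B.R.s m * w⁻¹
    · rw [e, Function.update_self]; simp [vx, RG.N_mul_s]
    · rw [Function.update_of_ne (by simpa using e)]; simp [vx, RG.N_mul_s, e]
  | a d => rw [Function.update_of_ne (by simp)]; rfl
  | b d => rw [Function.update_of_ne (by simp)]; rfl

theorem flip_a (w : B.R.W) (d : D₁) (q : P₂) :
    flip (B.vx w (B.T₁.lo d) q) (.a d) = B.vx w (B.T₁.hi d) q := by
  funext h
  unfold flip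
  cases h with
  | w r => rw [Function.update_of_ne (by simp)]; rfl
  | a d' =>
    by_cases e : d' = d
    · rw [e, Function.update_self]; simp [vx, HT.co_lo, HT.co_hi]
    · rw [Function.update_of_ne (by simpa using e)]; exact B.T₁.co_other e
  | b d => rw [Function.update_of_ne (by simp)]; rfl

theorem flip_b (w : B.R.W) (p : P₁) (d : D₂) :
    flip (B.vx w p (B.T₂.lo d)) (.b d) = B.vx w p (B.T₂.hi d) := by
  funext h
  unfold flip
  cases h with
  | w r => rw [Function.update_of_ne (by simp)]; rfl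
  | a d => rw [Function.update_of_ne (by simp)]; rfl
  | b d' =>
    by_cases e : d' = d
    · rw [e, Function.update_self]; simp [vx, HT.co_lo, HT.co_hi]
    · rw [Function.update_of_ne (by simpa using e)]; exact B.T₂.co_other e

theorem flip_a' (w : B.R.W) (d : D₁) (q : P₂) :
    flip (B.vx w (B.T₁.hi d) q) (.a d) = B.vx w (B.T₁.lo d) q := by
  rw [← flip_a, CC.flip_flip]

theorem flip_b' (w : B.R.W) (p : P₁) (d : D₂) :
    flip (B.vx w p (B.T₂.hi d)) (.b d) = B.vx w p (B.T₂.lo d) := by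
  rw [← flip_b, CC.flip_flip]

theorem clq_a {p p' : P₁} {q : P₂} {Q : Finset (Tri M D₁ D₂)} (hQ : B.Clq p q Q) {d : D₁}
    (hd : Tri.a d ∈ Q) (hp : p' = B.T₁.lo d ∨ p' = B.T₁.hi d) : B.Clq p' q Q := by
  refine ⟨fun l hl => ?_, hQ.2⟩
  cases l with
  | w m =>
    have := hQ.2 _ hl _ hd (by simp)
    refine ⟨?_, (hQ.1 _ hl).2⟩
    rcases hp with rfl | rfl
    · exact this.1
    · exact this.2
  | a d' =>
    by_cases e : d' = d
    · rw [e]; exact hp
    · exact (hQ.2 _ hl _ hd (by simpa using e)).elim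
  | b d' => exact hQ.1 _ hl

theorem clq_b {p : P₁} {q q' : P₂} {Q : Finset (Tri M D₁ D₂)} (hQ : B.Clq p q Q) {d : D₂}
    (hd : Tri.b d ∈ Q) (hp : q' = B.T₂.lo d ∨ q' = B.T₂.hi d) : B.Clq p q' Q := by
  refine ⟨fun l hl => ?_, hQ.2⟩
  cases l with
  | w m =>
    have := hQ.2 _ hl _ hd (by simp)
    refine ⟨(hQ.1 _ hl).1, ?_⟩
    rcases hp with rfl | rfl
    · exact this.1
    · exact this.2
  | a d' => exact hQ.1 _ hl
  | b d' =>
    by_cases e : d' = d
    · rw [e]; exact hp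
    · exact (hQ.2 _ hl _ hd (by simpa using e)).elim

theorem conj_adj (w : B.R.W) {m n : M} (h : m = n ∨ B.R.adj m n) :
    w * B.R.s m * B.R.s n * (w * B.R.s m)⁻¹ = w * B.R.s n * w⁻¹ := by
  have : B.R.s m * B.R.s n = B.R.s n * B.R.s m := by
    rcases h with rfl | h
    · rfl
    · exact B.R.s_comm h
  rw [mul_assoc w, this]
  group

theorem faceClosed : FaceClosed B.K := by
  apply faceClosed_of
  · rintro v D h ⟨w, p, q, Q, hQ, e⟩ hh
    obtain ⟨rfl, rfl⟩ := Prod.mk.inj e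
    obtain ⟨l, hl, rfl⟩ := Finset.mem_image.mp hh
    cases l with
    | w m =>
      rw [dir, flip_w, mem_K]
      refine ⟨Q, hQ, Finset.image_congr fun l' hl' => ?_⟩
      cases l' with
      | w n =>
        simp only [dir]
        rw [B.conj_adj w]
        by_cases e : m = n
        · exact Or.inl e
        · exact Or.inr (hQ.2 _ hl _ hl' (by simpa using e))
      | a d => rfl
      | b d => rfl
    | a d =>
      rcases hQ.1 _ hl with e | e
      · rw [dir, e, flip_a, mem_K]; exact ⟨Q, B.clq_a hQ hl (Or.inr rfl), rfl⟩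
      · rw [dir, e, flip_a', mem_K]; exact ⟨Q, B.clq_a hQ hl (Or.inl rfl), rfl⟩
    | b d =>
      rcases hQ.1 _ hl with e | e
      · rw [dir, e, flip_b, mem_K]; exact ⟨Q, B.clq_b hQ hl (Or.inr rfl), rfl⟩
      · rw [dir, e, flip_b', mem_K]; exact ⟨Q, B.clq_b hQ hl (Or.inl rfl), rfl⟩
  · rintro v D E ⟨w, p, q, Q, hQ, e⟩ hE
    obtain ⟨rfl, rfl⟩ := Prod.mk.inj e
    obtain ⟨Q', h1, rfl⟩ := Finset.subset_image_iff.mp hE
    exact ⟨w, p, q, Q', ⟨fun l hl => hQ.1 l (h1 hl), fun l hl l' hl' => hQ.2 l (h1 hl) l' (h1 hl')⟩,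
      rfl⟩

theorem single_mem (w : B.R.W) {p : P₁} {q : P₂} {l : Tri M D₁ D₂} (h : B.Pres p q l) :
    (B.vx w p q, {B.dir w l}) ∈ B.K :=
  B.mem_K.2 ⟨{l}, ⟨by simpa using h, by simp⟩, by simp⟩

theorem pair_mem (w : B.R.W) {p : P₁} {q : P₂} {l l' : Tri M D₁ D₂} (h : B.Pres p q l)
    (h' : B.Pres p q l') (ha : B.LA l l') : (B.vx w p q, {B.dir w l, B.dir w l'}) ∈ B.K := by
  refine B.mem_K.2 ⟨{l, l'}, ⟨?_, ?_⟩, by simp⟩
  · intro a ha
    rcases Finset.mem_insert.mp ha with rfl | ha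
    · exact h
    · rw [Finset.mem_singleton.mp ha]; exact h'
  · intro a h1 b h2 hne
    simp only [Finset.mem_insert, Finset.mem_singleton] at h1 h2
    rcases h1 with rfl | rfl <;> rcases h2 with rfl | rfl
    · exact absurd rfl hne
    · exact ha
    · exact B.LA_symm ha
    · exact absurd rfl hne

theorem flagLinks : FlagLinks B.K := by
  intro v D h
  obtain ⟨w, p, q, _, _, e⟩ := h ∅ (Finset.empty_subset _) (by simp)
  obtain rfl : v = B.vx w p q := congrArg Prod.fst e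
  have h1 : ∀ x ∈ D, ∃ l, B.Pres p q l ∧ B.dir w l = x := by
    intro x hx
    obtain ⟨Q, hQ, e⟩ := B.mem_K.1 (h {x} (by simpa using hx) (by simp))
    have : x ∈ Q.image (B.dir w) := by rw [← e]; simp
    obtain ⟨l, hl, rfl⟩ := Finset.mem_image.mp this
    exact ⟨l, hQ.1 l hl, rfl⟩
  refine B.mem_K.2 ⟨D.preimage (B.dir w) (B.dir_inj w).injOn, ⟨fun l hl => ?_, ?_⟩, ?_⟩
  · obtain ⟨l', h2, e⟩ := h1 _ (Finset.mem_preimage.mp hl)
    rwa [← B.dir_inj w e]
  · intro l hl l' hl' hne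
    rw [Finset.mem_preimage] at hl hl'
    obtain ⟨Q, hQ, e⟩ := B.mem_K.1 (h {B.dir w l, B.dir w l'}
      (by intro x hx; simp only [Finset.mem_insert, Finset.mem_singleton] at hx
          rcases hx with rfl | rfl <;> assumption) Finset.card_le_two)
    have a : ∀ k, B.dir w k ∈ Q.image (B.dir w) → k ∈ Q := by
      intro k hk
      obtain ⟨k', h3, e⟩ := Finset.mem_image.mp hk
      rwa [← B.dir_inj w e]
    exact hQ.2 l (a l (by rw [← e]; simp)) l' (a l' (by rw [← e]; simp)) hne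
  · ext x
    rw [Finset.mem_image]
    constructor
    · intro hx
      obtain ⟨l, _, rfl⟩ := h1 x hx
      exact ⟨l, Finset.mem_preimage.mpr hx, rfl⟩
    · rintro ⟨l, hl, rfl⟩
      exact Finset.mem_preimage.mp hl

theorem reach (w : B.R.W) (p : P₁) (q : P₂) :
    ∃ r, Ch B.K (pt (B.vx 1 B.T₁.base B.T₂.base)) (pt (B.vx w p q)) r := by
  have step : ∀ v h, (v, {h}) ∈ B.K → ((∃ r, Ch B.K (pt (B.vx 1 B.T₁.base B.T₂.base)) (pt v) r) ↔
      ∃ r, Ch B.K (pt (B.vx 1 B.T₁.base B.T₂.base)) (pt (flip v h)) r) := by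
    intro v h hv
    have hn : Near B.K (pt v) (pt (flip v h)) :=
      ⟨_, hv, pt_mem fun _ _ => rfl, pt_mem (CC.flip_off v h (by simp))⟩
    exact ⟨fun ⟨r, hr⟩ => ⟨_, Ch.step _ _ _ hr hn⟩, fun ⟨r, hr⟩ => ⟨_, Ch.step _ _ _ hr hn.symm⟩⟩
  have fib : ∀ w p q, (∃ r, Ch B.K (pt (B.vx 1 B.T₁.base B.T₂.base)) (pt (B.vx w p q)) r) ↔
      ∃ r, Ch B.K (pt (B.vx 1 B.T₁.base B.T₂.base)) (pt (B.vx w B.T₁.base B.T₂.base)) r := by
    intro w p q
    induction p using B.T₁.edge_ind with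
    | h0 =>
      induction q using B.T₂.edge_ind with
      | h0 => rfl
      | h1 d => rw [step _ _ (B.single_mem w (l := .b d) (Or.inl rfl)), dir, flip_b]
    | h1 d => rw [step _ _ (B.single_mem w (l := .a d) (Or.inl rfl)), dir, flip_a]
  rw [fib]
  induction w using B.R.ind with
  | h1 => exact ⟨0, Ch.refl⟩
  | h2 w m ih =>
    rw [← fib _ (B.c₁ m) (B.c₂ m)] at ih ⊢
    rwa [step _ _ (B.single_mem w (l := .w m) ⟨B.c₁_mem m, B.c₂_mem m⟩), dir, flip_w] at ih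

/-- Colours of directions. -/
def lcol : Tri M D₁ D₂ → Col ⊕ Bool
  | .w m => .inl (B.col m)
  | .a _ => .inr false
  | .b _ => .inr true

theorem lcol_ne {l l' : Tri M D₁ D₂} (h : B.LA l l') : B.lcol l ≠ B.lcol l' := by
  cases l <;> cases l' <;> simp only [lcol, LA] at h ⊢ <;> simp
  exact B.col_adj _ _ h

/-- The cube complex. -/
noncomputable def cc [Fintype Col] : CC B.H where
  K := B.K
  face := B.faceClosed
  conn := by
    have : ∀ x, Near B.K x x → ∃ r, Ch B.K (pt (B.vx 1 B.T₁.base B.T₂.base)) x r := by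
      rintro x ⟨c, ⟨w, p, q, Q, hQ, rfl⟩, hx, _⟩
      obtain ⟨r, hr⟩ := B.reach w p q
      exact ⟨_, Ch.step _ _ _ hr ⟨_, ⟨w, p, q, Q, hQ, rfl⟩, pt_mem fun _ _ => rfl, hx⟩⟩
    intro x y hx hy
    obtain ⟨r, hr⟩ := this x hx
    obtain ⟨s, hs⟩ := this y hy
    exact ⟨_, hr.symm.trans hs⟩
  dim := Fintype.card (Col ⊕ Bool)
  card_le := by
    rintro c ⟨w, p, q, Q, hQ, rfl⟩
    refine Finset.card_image_le.trans ?_
    rw [← Finset.card_univ]
    apply Finset.card_le_card_of_injOn B.lcol (by simp)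
    intro l hl l' hl' e
    by_contra hne
    exact B.lcol_ne (hQ.2 l hl l' hl' hne) e

theorem combSC [Fintype Col] : B.cc.CombSC := by
  intro A _ φ h1 h2
  have hK : B.cc.K = B.K := rfl
  rw [hK] at h1 h2
  choose f fa fb using fun w : B.R.W => B.T₁.exists_pot₂ B.T₂
    (fun d q => φ (B.vx w (B.T₁.lo d) q) (.a d)) (fun p d => φ (B.vx w p (B.T₂.lo d)) (.b d))
    (fun d e => by
      have := h2 _ _ _ (by simp [dir]) (B.pair_mem w (p := B.T₁.lo d) (q := B.T₂.lo e) (l := .a d)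
        (l' := .b e) (Or.inl rfl) (Or.inl rfl) trivial)
      simpa only [dir, flip_a, flip_b] using this)
  let a' : B.R.W → M → P₁ → P₂ → A := fun w m p q =>
    f w p q * φ (B.vx w p q) (.w (w * B.R.s m * w⁻¹)) * (f (w * B.R.s m) p q)⁻¹
  have a1 : ∀ w m d q, B.T₁.lo d ∈ B.S₁ m → B.T₁.hi d ∈ B.S₁ m → q ∈ B.S₂ m →
      a' w m (B.T₁.hi d) q = a' w m (B.T₁.lo d) q := by
    intro w m d q e1 e2 e3
    have := h2 _ _ _ (by simp [dir]) (B.pair_mem w (p := B.T₁.lo d) (q := q) (l := .w m)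
        (l' := .a d) ⟨e1, e3⟩ (Or.inl rfl) ⟨e1, e2⟩)
    simp only [dir, flip_a, flip_w] at this
    simp only [a', fa]
    rw [mul_assoc (f _ _ _) (φ _ (.a d)), ← this]
    group
  have a2 : ∀ w m p d, B.T₂.lo d ∈ B.S₂ m → B.T₂.hi d ∈ B.S₂ m → p ∈ B.S₁ m →
      a' w m p (B.T₂.hi d) = a' w m p (B.T₂.lo d) := by
    intro w m p d e1 e2 e3
    have := h2 _ _ _ (by simp [dir]) (B.pair_mem w (p := p) (q := B.T₂.lo d) (l := .w m)
        (l' := .b d) ⟨e3, e1⟩ (Or.inl rfl) ⟨e1, e2⟩)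
    simp only [dir, flip_b, flip_w] at this
    simp only [a', fb]
    rw [mul_assoc (f _ _ _) (φ _ (.b d)), ← this]
    group
  have a3 : ∀ w m p q, p ∈ B.S₁ m → q ∈ B.S₂ m → a' w m p q = a' w m (B.c₁ m) (B.c₂ m) := by
    intro w m p q hp hq
    have e1 : a' w m p q = a' w m (B.c₁ m) q := by
      rcases B.star₁ m p hp with e | ⟨d, e, rfl⟩
      · rw [e]
      · rw [a1 w m d q (e ▸ B.c₁_mem m) hp hq, e]
    rw [e1]
    rcases B.star₂ m q hq with e | ⟨d, e, rfl⟩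
    · rw [e]
    · rw [a2 w m _ d (e ▸ B.c₂_mem m) hq (B.c₁_mem m), e]
  obtain ⟨F, hF⟩ := B.R.exists_pot (fun w m => a' w m (B.c₁ m) (B.c₂ m)) (by
      intro w m
      have := h1 _ _ (B.single_mem w (l := .w m) ⟨B.c₁_mem m, B.c₂_mem m⟩)
      simp only [dir, flip_w] at this
      have e : w * B.R.s m * B.R.s m = w := by rw [mul_assoc, B.R.s_s, mul_one]
      simp only [a']
      rw [B.conj_adj w (Or.inl rfl : m = m ∨ B.R.adj m m), e, eq_inv_of_mul_eq_one_right this]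
      group) (by
      intro w m n h
      obtain ⟨p, q, hm, hn⟩ := B.common m n h
      have hne : m ≠ n := by rintro rfl; exact B.R.irrefl _ h
      have := h2 _ _ _ (fun e => hne (by simpa using B.dir_inj w e))
        (B.pair_mem w (p := p) (q := q) (l := .w m) (l' := .w n) hm hn h)
      simp only [dir, flip_w] at this
      rw [← a3 w m p q hm.1 hm.2, ← a3 _ n p q hn.1 hn.2, ← a3 w n p q hn.1 hn.2,
        ← a3 _ m p q hm.1 hm.2]
      simp only [a', B.conj_adj w (Or.inr h), B.conj_adj w (Or.inr (B.R.symm _ _ h))]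
      have e : w * B.R.s m * B.R.s n = w * B.R.s n * B.R.s m := by
        rw [mul_assoc, B.R.s_comm h, mul_assoc]
      rw [e]
      calc _ = f w p q * (φ (B.vx w p q) (.w (w * B.R.s m * w⁻¹)) *
            φ (B.vx (w * B.R.s m) p q) (.w (w * B.R.s n * w⁻¹))) *
            (f (w * B.R.s n * B.R.s m) p q)⁻¹ := by group
        _ = _ := by rw [this]; group)
  have hinj : Function.Injective fun x : B.R.W × P₁ × P₂ => B.vx x.1 x.2.1 x.2.2 := by
    rintro ⟨w, p, q⟩ ⟨w', p', q'⟩ h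
    obtain ⟨rfl, rfl, rfl⟩ := B.vx_inj h
    rfl
  let g := Function.extend (fun x : B.R.W × P₁ × P₂ => B.vx x.1 x.2.1 x.2.2)
    (fun x => F x.1 * f x.1 x.2.1 x.2.2) 1
  have hg : ∀ w p q, g (B.vx w p q) = F w * f w p q := fun w p q => hinj.extend_apply _ _ (w, p, q)
  refine ⟨g, ?_⟩
  rintro v h hv
  obtain ⟨w, p, q, Q, hQ, e⟩ := id hv
  obtain ⟨rfl, e'⟩ := Prod.mk.inj e
  have : h ∈ Q.image (B.dir w) := by rw [← e']; simp
  obtain ⟨l, hl, rfl⟩ := Finset.mem_image.mp this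
  have h3 := h1 _ _ hv
  have hl' := hQ.1 l hl
  cases l with
  | w m =>
    rw [dir, flip_w, hg, hg, hF, ← a3 w m p q hl'.1 hl'.2]
    simp [a', mul_assoc]
  | a d =>
    rcases hl' with rfl | rfl
    · rw [dir, flip_a, hg, hg, fa, mul_assoc]
    · rw [dir, flip_a'] at h3 ⊢
      rw [hg, hg, fa, eq_inv_of_mul_eq_one_left h3]
      group
  | b d =>
    rcases hl' with rfl | rfl
    · rw [dir, flip_b, hg, hg, fb, mul_assoc]
    · rw [dir, flip_b'] at h3 ⊢
      rw [hg, hg, fb, eq_inv_of_mul_eq_one_left h3]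
      group

/-- The links are finite spheres. -/
def LinkOK (p : P₁) (q : P₂) : Prop :=
  ∃ (U : Type) (_ : Fintype U) (adj : U → U → Prop) (χ : U → Tri M D₁ D₂), Function.Injective χ ∧
    (∀ l, B.Pres p q l ↔ ∃ u, χ u = l) ∧ (∀ u u', u ≠ u' → (adj u u' ↔ B.LA (χ u) (χ u'))) ∧
    Nonempty (Cone adj ≃ₜ EuclideanSpace ℝ (Fin 4))

theorem manifold [Fintype Col] (h : ∀ p q, B.LinkOK p q) (x : B.cc.X) :
    ∃ φ : OpenPartialHomeomorph B.cc.X (EuclideanSpace ℝ (Fin 4)), x ∈ φ.source := by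
  obtain ⟨v, ⟨w, p, q, _, _, e⟩, hx⟩ := B.cc.exists_star x
  obtain rfl : v = B.vx w p q := congrArg Prod.fst e
  obtain ⟨U, _, adj, χ, h1, h2, h3, ⟨e⟩⟩ := h p q
  suffices hl : IsLink B.cc.K (B.vx w p q) adj (fun u => B.dir w (χ u)) by
    obtain ⟨φ, hφ⟩ := B.cc.exists_chart adj (B.vx w p q) (fun u => B.dir w (χ u)) hl e
    exact ⟨φ, hφ ▸ hx⟩
  refine ⟨(B.dir_inj w).comp h1, fun D => B.mem_K.trans ⟨?_, ?_⟩⟩
  · rintro ⟨Q, hQ, rfl⟩
    have a : ∀ k, B.dir w k ∈ Q.image (B.dir w) → k ∈ Q := by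
      intro k hk
      obtain ⟨k', h3, e⟩ := Finset.mem_image.mp hk
      rwa [← B.dir_inj w e]
    refine ⟨fun x hx => ?_, fun u u' hu hu' hne => ?_⟩
    · obtain ⟨l, hl, rfl⟩ := Finset.mem_image.mp hx
      obtain ⟨u, rfl⟩ := (h2 l).1 (hQ.1 l hl)
      exact ⟨u, rfl⟩
    · exact (h3 u u' hne).2 (hQ.2 _ (a _ hu) _ (a _ hu') (h1.ne hne))
  · rintro ⟨a, b⟩
    refine ⟨D.preimage (B.dir w) (B.dir_inj w).injOn, ⟨fun l hl => ?_, ?_⟩, ?_⟩
    · obtain ⟨u, e⟩ := a _ (Finset.mem_preimage.mp hl)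
      exact (h2 l).2 ⟨u, B.dir_inj w e⟩
    · intro l hl l' hl' hne
      rw [Finset.mem_preimage] at hl hl'
      obtain ⟨u, e⟩ := a _ hl
      obtain ⟨u', e'⟩ := a _ hl'
      obtain rfl := B.dir_inj w e
      obtain rfl := B.dir_inj w e'
      have hne' : u ≠ u' := fun e => hne (congrArg χ e)
      exact (h3 u u' hne').1 (b u u' hl hl' hne')
    · ext x
      rw [Finset.mem_image]
      constructor
      · intro hx
        obtain ⟨u, rfl⟩ := a x hx
        exact ⟨χ u, Finset.mem_preimage.mpr hx, rfl⟩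
      · rintro ⟨l, hl, rfl⟩
        exact Finset.mem_preimage.mp hl

end BD

end Pool.Agent.Lib.MP_b03b3a_al
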