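import Mathlib
import Pool.Agent.Lib.MP_b03b3a_al.Act

set_option autoImplicit false

namespace Pool.Agent.Lib.MP_b03b3a_al

/-- Minimum of the coordinates in a list. -/
noncomputable def mn : List ℕ → (ℕ → ℝ) → ℝ
  | [], _ => 0
  | [a], x => x a
  | a :: b :: l, x => min (x a) (mn (b :: l) x)

theorem mn_le : ∀ (A : List ℕ) (x : ℕ → ℝ) (a : ℕ), a ∈ A → mn A x ≤ x a
  | [], _, _, h => by simp at h
  | [b], x, a, h => by rw [List.mem_singleton.mp h]; exact le_rfl
  | c :: b :: l, x, a, h => by
    rcases List.mem_cons.mp h with rfl | h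
    · exact min_le_left _ _
    · exact (min_le_right _ _).trans (mn_le (b :: l) x a h)

theorem mn_mem : ∀ (A : List ℕ) (x : ℕ → ℝ), A ≠ [] → ∃ a ∈ A, mn A x = x a
  | [], _, h => absurd rfl h
  | [b], x, _ => ⟨b, by simp, rfl⟩
  | c :: b :: l, x, _ => by
    obtain ⟨a, ha, e⟩ := mn_mem (b :: l) x (by simp)
    rcases min_choice (x c) (mn (b :: l) x) with h | h
    · exact ⟨c, by simp, h⟩
    · exact ⟨a, List.mem_cons_of_mem _ ha, h.trans e⟩

theorem continuous_mn : ∀ A : List ℕ, Continuous (mn A)
  | [] => continuous_const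
  | [a] => continuous_apply a
  | a :: b :: l => (continuous_apply a).min (continuous_mn (b :: l))

theorem mn_eq {A : List ℕ} {x : ℕ → ℝ} {m : ℝ} (h1 : ∀ a ∈ A, m ≤ x a) (h2 : ∃ a ∈ A, x a = m) :
    mn A x = m := by
  obtain ⟨a, ha, e⟩ := h2
  obtain ⟨b, hb, e'⟩ := mn_mem A x (List.ne_nil_of_mem ha)
  exact le_antisymm (e ▸ mn_le A x a ha) (e' ▸ h1 b hb)

/-- The piecewise linear map of a bistellar move. -/
noncomputable def mv (A B : List ℕ) (x : ℕ → ℝ) : ℕ → ℝ :=
  fun i => if i ∈ A then x i - mn A x else if i ∈ B then x i + mn A x else x i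

theorem continuous_mv (A B : List ℕ) : Continuous (mv A B) := by
  apply continuous_pi
  intro i
  unfold mv
  split_ifs
  · exact (continuous_apply i).sub (continuous_mn A)
  · exact (continuous_apply i).add (continuous_mn A)
  · exact continuous_apply i

theorem mv_mv {A B : List ℕ} (hd : ∀ i, i ∈ A → i ∉ B) (hB : B ≠ []) {x : ℕ → ℝ}
    (hx : mn B x = 0) : mv B A (mv A B x) = x := by
  have key : mn B (mv A B x) = mn A x := by
    apply mn_eq
    · intro b hb
      have := mn_le B x b hb
      simp only [mv, if_neg (fun h => hd b h hb), if_pos hb]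
      linarith
    · obtain ⟨b, hb, e⟩ := mn_mem B x hB
      refine ⟨b, hb, ?_⟩
      simp only [mv, if_neg (fun h => hd b h hb), if_pos hb]
      linarith
  funext i
  rw [mv, key]
  by_cases h1 : i ∈ A
  · simp [mv, h1, hd i h1]
  · by_cases h2 : i ∈ B <;> simp [mv, h1, h2]

theorem mv_zero {A B : List ℕ} {x : ℕ → ℝ} (hx : mn A x = 0) : mv A B x = x := by
  funext i
  simp [mv, hx]

/-- Bit mask of a list. -/
def msk (l : List ℕ) : ℕ := l.foldr (fun i m => m ||| 2 ^ i) 0

theorem testBit_msk (l : List ℕ) (i : ℕ) : (msk l).testBit i = true ↔ i ∈ l := by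
  induction l with
  | nil => simp [msk]
  | cons a l ih =>
    have : msk (a :: l) = msk l ||| 2 ^ a := rfl
    rw [this, Nat.testBit_or, Bool.or_eq_true, ih, Nat.testBit_two_pow]
    simp [eq_comm, or_comm]

/-- Inclusion of masks. -/
def sub (a b : ℕ) : Bool := Nat.beq (a &&& b) a

theorem sub_iff (a b : ℕ) : sub a b = true ↔ ∀ i, a.testBit i = true → b.testBit i = true := by
  unfold sub
  rw [Nat.beq_eq]
  constructor
  · intro h i hi
    rw [← h, Nat.testBit_and] at hi
    exact (Bool.and_eq_true _ _ ▸ hi).2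
  · intro h
    apply Nat.eq_of_testBit_eq
    intro i
    rw [Nat.testBit_and]
    have := h i
    revert this
    cases a.testBit i <;> simp

/-- The cone over a complex given by the masks of its facets. -/
def FC (F : List ℕ) : Set (ℕ → ℝ) :=
  {x | (∀ i, 0 ≤ x i) ∧ ∃ f ∈ F, ∀ i, x i ≠ 0 → f.testBit i = true}

/-- The move is legal. -/
def okMove (F A B : List ℕ) : Bool :=
  !A.isEmpty && !B.isEmpty && A.all (fun a => !B.contains a) &&
  F.all (fun f => !sub (msk B) f && (!sub (msk A) f || sub f (msk (A ++ B)))) &&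
  B.all (fun b => F.any fun f => sub (msk (A ++ B.filter (· != b))) f)

/-- The facets after the move. -/
def nxt (F A B : List ℕ) : List ℕ :=
  A.map (fun a => msk (A.filter (· != a) ++ B)) ++ F.filter (fun f => !sub (msk A) f)

theorem mn_zero_of_not_sub {A : List ℕ} {f : ℕ} {x : ℕ → ℝ} (h0 : ∀ i, 0 ≤ x i)
    (hf : ∀ i, x i ≠ 0 → f.testBit i = true) (h : ¬ sub (msk A) f = true) : mn A x = 0 := by
  rw [sub_iff] at h
  push Not at h
  obtain ⟨i, hi, hi'⟩ := h
  refine mn_eq (fun a _ => h0 a) ⟨i, (testBit_msk A i).1 hi, ?_⟩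
  by_contra e
  exact hi' (hf i e)

theorem mv_nonneg {A B : List ℕ} (hA : A ≠ []) {x : ℕ → ℝ} (h0 : ∀ i, 0 ≤ x i) (i : ℕ) :
    0 ≤ mv A B x i := by
  unfold mv
  split_ifs with h1 h2
  · linarith [mn_le A x i h1]
  · obtain ⟨a, _, e⟩ := mn_mem A x hA
    linarith [h0 a, h0 i]
  · exact h0 i

theorem move_homeo {F A B : List ℕ} (h : okMove F A B = true) :
    Nonempty (FC F ≃ₜ FC (nxt F A B)) := by
  simp only [okMove, Bool.and_eq_true, Bool.not_eq_true', List.isEmpty_eq_false_iff,
    List.all_eq_true, List.any_eq_true, Bool.or_eq_true, List.contains_eq_mem,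
    decide_eq_false_iff_not] at h
  obtain ⟨⟨⟨⟨hA, hB⟩, hd⟩, h2⟩, h4⟩ := h
  have f1 : ∀ x ∈ FC F, mv A B x ∈ FC (nxt F A B) ∧ mn B x = 0 := by
    rintro x ⟨h0, f, hf, hs⟩
    refine ⟨⟨mv_nonneg hA h0, ?_⟩, mn_zero_of_not_sub h0 hs (by simp [(h2 f hf).1])⟩
    rcases (h2 f hf).2 with e | e
    · rw [mv_zero (mn_zero_of_not_sub h0 hs (by simp [e]))]
      exact ⟨f, by simp [nxt, hf, e], hs⟩
    · obtain ⟨a, ha, ea⟩ := mn_mem A x hA
      refine ⟨msk (A.filter (· != a) ++ B), List.mem_append_left _ (List.mem_map_of_mem ha), ?_⟩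
      intro i hi
      rw [testBit_msk, List.mem_append, List.mem_filter]
      by_cases h1 : i ∈ A
      · refine Or.inl ⟨h1, ?_⟩
        rw [bne_iff_ne]
        rintro rfl
        simp [mv, h1, ea] at hi
      · by_cases h3 : i ∈ B
        · exact Or.inr h3
        · simp only [mv, if_neg h1, if_neg h3] at hi
          have := (testBit_msk _ i).1 ((sub_iff _ _).1 e i (hs i hi))
          simp [h1, h3] at this
  have f2 : ∀ x ∈ FC (nxt F A B), mv B A x ∈ FC F ∧ mn A x = 0 := by
    rintro x ⟨h0, f, hf, hs⟩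
    rcases List.mem_append.mp hf with hf | hf
    · obtain ⟨a, ha, rfl⟩ := List.mem_map.mp hf
      refine ⟨⟨mv_nonneg hB h0, ?_⟩, mn_eq (fun a _ => h0 a) ⟨a, ha, ?_⟩⟩
      · obtain ⟨b, hb, eb⟩ := mn_mem B x hB
        obtain ⟨g, hg, e⟩ := h4 b hb
        refine ⟨g, hg, fun i hi => (sub_iff _ _).1 e i ?_⟩
        rw [testBit_msk, List.mem_append, List.mem_filter]
        by_cases h1 : i ∈ B
        · refine Or.inr ⟨h1, ?_⟩
          rw [bne_iff_ne]
          rintro rfl
          simp [mv, h1, eb] at hi
        · by_cases h3 : i ∈ A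
          · exact Or.inl h3
          · simp only [mv, if_neg h1, if_neg h3] at hi
            have := (testBit_msk _ i).1 (hs i hi)
            simp [h1, h3] at this
      · by_contra e
        have := (testBit_msk _ a).1 (hs a e)
        simp [hd a ha] at this
    · obtain ⟨hf, e⟩ := List.mem_filter.mp hf
      refine ⟨⟨mv_nonneg hB h0, ?_⟩, mn_zero_of_not_sub h0 hs (by simpa using e)⟩
      rw [mv_zero (mn_zero_of_not_sub h0 hs (by simp [(h2 f hf).1]))]
      exact ⟨f, hf, hs⟩
  exact ⟨{ toFun := fun x => ⟨mv A B x.1, (f1 x.1 x.2).1⟩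
           invFun := fun x => ⟨mv B A x.1, (f2 x.1 x.2).1⟩
           left_inv := fun x => Subtype.ext (mv_mv hd hB (f1 x.1 x.2).2)
           right_inv := fun x => Subtype.ext (mv_mv (fun i h h' => hd i h' h) hA (f2 x.1 x.2).2)
           continuous_toFun := ((continuous_mv A B).comp continuous_subtype_val).subtype_mk _
           continuous_invFun := ((continuous_mv B A).comp continuous_subtype_val).subtype_mk _ }⟩

open Classical in
theorem transfer {U : Type} (enc : U → ℕ) (hi : Function.Injective enc) (S : Set (U → ℝ))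
    (S' : Set (ℕ → ℝ))
    (h : ∀ x, x ∈ S' ↔ (∀ i, (∀ u, enc u ≠ i) → x i = 0) ∧ (fun u => x (enc u)) ∈ S) :
    Nonempty (S ≃ₜ S') := by
  have e1 : ∀ y : U → ℝ, (fun u => Function.extend enc y 0 (enc u)) = y :=
    fun y => funext fun u => hi.extend_apply y 0 u
  have e2 : ∀ (y : U → ℝ) i, (∀ u, enc u ≠ i) → Function.extend enc y 0 i = 0 :=
    fun y i hu => Function.extend_apply' y (0 : ℕ → ℝ) i fun ⟨u, e⟩ => hu u e
  refine ⟨{ toFun := fun y => ⟨Function.extend enc y.1 0, (h _).2 ⟨e2 y.1, by rw [e1]; exact y.2⟩⟩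
            invFun := fun x => ⟨fun u => x.1 (enc u), ((h _).1 x.2).2⟩
            left_inv := fun y => Subtype.ext (e1 y.1)
            right_inv := fun x => Subtype.ext ?_
            continuous_toFun := ?_
            continuous_invFun := ?_ }⟩
  · funext i
    by_cases hu : ∃ u, enc u = i
    · obtain ⟨u, rfl⟩ := hu
      exact hi.extend_apply _ _ u
    · push Not at hu
      exact (e2 _ i hu).trans (((h _).1 x.2).1 i hu).symm
  · apply Continuous.subtype_mk
    apply continuous_pi
    intro i
    by_cases hu : ∃ u, enc u = i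
    · obtain ⟨u, rfl⟩ := hu
      simp only [hi.extend_apply]
      exact (continuous_apply u).comp continuous_subtype_val
    · push Not at hu
      simp only [e2 _ i hu]
      exact continuous_const
  · apply Continuous.subtype_mk
    apply continuous_pi
    intro u
    exact (continuous_apply _).comp continuous_subtype_val

theorem simplex_homeo :
    Nonempty ({x : Fin 5 → ℝ | (∀ k, 0 ≤ x k) ∧ ∃ k, x k = 0} ≃ₜ EuclideanSpace ℝ (Fin 4)) := by
  let μ : (Fin 4 → ℝ) → ℝ := fun y => min 0 (min (y 0) (min (y 1) (min (y 2) (y 3))))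
  have μc : Continuous μ := by fun_prop
  have μ0 : ∀ y, μ y ≤ 0 := fun y => min_le_left _ _
  have μ1 : ∀ y k, μ y ≤ y k := by
    intro y k
    fin_cases k <;> simp [μ]
  have μ2 : ∀ y, μ y = 0 ∨ ∃ k, μ y = y k := by
    intro y
    simp only [μ]
    rcases min_choice 0 (min (y 0) (min (y 1) (min (y 2) (y 3)))) with h | h
    · exact Or.inl h
    · rw [h]; right
      rcases min_choice (y 0) (min (y 1) (min (y 2) (y 3))) with h | h
      · exact ⟨0, h⟩
      · rw [h]
        rcases min_choice (y 1) (min (y 2) (y 3)) with h | h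
        · exact ⟨1, h⟩
        · rw [h]
          rcases min_choice (y 2) (y 3) with h | h
          · exact ⟨2, h⟩
          · exact ⟨3, h⟩
  let e : {x : Fin 5 → ℝ | (∀ k, 0 ≤ x k) ∧ ∃ k, x k = 0} ≃ₜ (Fin 4 → ℝ) :=
    { toFun := fun x k => x.1 k.succ - x.1 0
      invFun := fun y => ⟨Fin.cons (-μ y) fun k => y k - μ y, by
        refine ⟨fun k => ?_, ?_⟩
        · refine Fin.cases ?_ (fun k => ?_) k
          · simpa using μ0 y
          · simpa using μ1 y k
        · rcases μ2 y with h | ⟨k, h⟩
          · exact ⟨0, by simp [h]⟩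
          · exact ⟨k.succ, by simp [h]⟩⟩
      left_inv := by
        rintro ⟨x, h0, k, hk⟩
        have : μ (fun k => x k.succ - x 0) = -x 0 := by
          apply le_antisymm
          · revert hk
            refine Fin.cases ?_ (fun k => ?_) k
            · intro hk; linarith [μ0 (fun k => x k.succ - x 0)]
            · intro hk
              have := μ1 (fun k => x k.succ - x 0) k
              simpa [hk] using this
          · rcases μ2 (fun k => x k.succ - x 0) with h | ⟨k, h⟩ <;> rw [h]
            · linarith [h0 0]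
            · linarith [h0 k.succ]
        apply Subtype.ext
        funext k
        refine Fin.cases ?_ (fun k => ?_) k <;> simp [this]
      right_inv := by
        intro y
        funext k
        simp
      continuous_toFun := by
        apply continuous_pi
        intro k
        exact ((continuous_apply _).comp continuous_subtype_val).sub
          ((continuous_apply _).comp continuous_subtype_val)
      continuous_invFun := by
        apply Continuous.subtype_mk
        apply continuous_pi
        intro k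
        refine Fin.cases ?_ (fun k => ?_) k
        · simp only [Fin.cons_zero]; exact μc.neg
        · simp only [Fin.cons_succ]; exact (continuous_apply k).sub μc }
  exact ⟨e.trans (EuclideanSpace.equiv (Fin 4) ℝ).toHomeomorph.symm⟩

/-- The complex is the boundary of the simplex on the five given vertices. -/
def finOk (vs : Fin 5 → ℕ) (F : List ℕ) : Bool :=
  F.all (fun f => sub f (msk (List.ofFn vs)) && !sub (msk (List.ofFn vs)) f) &&
  (List.ofFn vs).all fun v => F.any fun f => sub (msk ((List.ofFn vs).filter (· != v))) f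

theorem fin_homeo {vs : Fin 5 → ℕ} (hv : Function.Injective vs) {F : List ℕ}
    (h : finOk vs F = true) : Nonempty (FC F ≃ₜ EuclideanSpace ℝ (Fin 4)) := by
  simp only [finOk, Bool.and_eq_true, Bool.not_eq_true', List.all_eq_true, List.any_eq_true] at h
  obtain ⟨h1, h2⟩ := h
  obtain ⟨e⟩ := simplex_homeo
  obtain ⟨e'⟩ := transfer vs hv {x : Fin 5 → ℝ | (∀ k, 0 ≤ x k) ∧ ∃ k, x k = 0} (FC F) (by
    intro x
    constructor
    · rintro ⟨h0, f, hf, hs⟩
      refine ⟨fun i hi => ?_, fun k => h0 _, ?_⟩
      · by_contra e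
        have := (testBit_msk _ i).1 ((sub_iff _ _).1 (h1 f hf).1 i (hs i e))
        obtain ⟨k, hk⟩ := List.mem_ofFn.mp this
        exact hi k hk
      · by_contra e
        push Not at e
        have : sub (msk (List.ofFn vs)) f = true := by
          rw [sub_iff]
          intro i hi
          obtain ⟨k, rfl⟩ := List.mem_ofFn.mp ((testBit_msk _ i).1 hi)
          exact hs _ (e k)
        rw [(h1 f hf).2] at this
        exact absurd this (by simp)
    · rintro ⟨h3, h0, k, hk⟩
      have hx : ∀ i, x i ≠ 0 → ∃ k, vs k = i := by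
        intro i hi
        by_contra e
        push Not at e
        exact hi (h3 i e)
      refine ⟨fun i => ?_, ?_⟩
      · by_cases hi : x i = 0
        · exact hi.ge
        · obtain ⟨k, rfl⟩ := hx i hi
          exact h0 k
      · obtain ⟨f, hf, e⟩ := h2 (vs k) (List.mem_ofFn.mpr ⟨k, rfl⟩)
        refine ⟨f, hf, fun i hi => (sub_iff _ _).1 e i ?_⟩
        rw [testBit_msk, List.mem_filter, bne_iff_ne]
        refine ⟨List.mem_ofFn.mpr (hx i hi), ?_⟩
        rintro rfl
        exact hi hk)
  exact ⟨e'.symm.trans e⟩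

/-- Replay of a list of moves. -/
def run (vs : Fin 5 → ℕ) : List (List ℕ × List ℕ) → List ℕ → Bool
  | [], F => finOk vs F
  | m :: ms, F => okMove F m.1 m.2 && run vs ms (nxt F m.1 m.2)

theorem run_homeo {vs : Fin 5 → ℕ} (hv : Function.Injective vs) :
    ∀ (ms : List (List ℕ × List ℕ)) (F : List ℕ), run vs ms F = true →
      Nonempty (FC F ≃ₜ EuclideanSpace ℝ (Fin 4))
  | [], _, h => fin_homeo hv h
  | m :: ms, F, h => by
    rw [run, Bool.and_eq_true] at h
    obtain ⟨e⟩ := move_homeo h.1
    obtain ⟨e'⟩ := run_homeo hv ms _ h.2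
    exact ⟨e.trans e'⟩

/-- All cliques extending `cur` by elements of the list lie in a facet. -/
def cover (M : ℕ → ℕ) (F : List ℕ) : List ℕ → ℕ → Bool
  | [], cur => F.any fun f => sub cur f
  | v :: l, cur => cover M F l cur && (!sub cur (M v) || cover M F l (cur ||| 2 ^ v))

theorem cover_spec (M : ℕ → ℕ) (F : List ℕ) (Q : ℕ → Prop)
    (hQ : ∀ i j, Q i → Q j → i ≠ j → (M i).testBit j = true) :
    ∀ (l : List ℕ) (cur : ℕ), cover M F l cur = true → (∀ i, cur.testBit i = true → Q i) →
      (∀ i, Q i → cur.testBit i = true ∨ i ∈ l) → ∃ f ∈ F, ∀ i, Q i → f.testBit i = true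
  | [], cur, h, _, h2 => by
    simp only [cover, List.any_eq_true] at h
    obtain ⟨f, hf, e⟩ := h
    exact ⟨f, hf, fun i hi => (sub_iff _ _).1 e i (by simpa using h2 i hi)⟩
  | v :: l, cur, h, h1, h2 => by
    simp only [cover, Bool.and_eq_true, Bool.or_eq_true, Bool.not_eq_true'] at h
    by_cases hv : Q v ∧ ¬ cur.testBit v = true
    · have hs : sub cur (M v) = true := by
        rw [sub_iff]
        intro i hi
        exact hQ v i hv.1 (h1 i hi) (by rintro rfl; exact hv.2 hi)
      refine cover_spec M F Q hQ l _ (h.2.resolve_left (by simp [hs])) ?_ ?_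
      · intro i hi
        rw [Nat.testBit_or, Bool.or_eq_true, Nat.testBit_two_pow] at hi
        rcases hi with hi | hi
        · exact h1 i hi
        · rw [← of_decide_eq_true hi]; exact hv.1
      · intro i hi
        rw [Nat.testBit_or, Bool.or_eq_true, Nat.testBit_two_pow]
        rcases h2 i hi with e | e
        · exact Or.inl (Or.inl e)
        · rcases List.mem_cons.mp e with e | e
          · exact Or.inl (Or.inr (by simp [e]))
          · exact Or.inr e
    · refine cover_spec M F Q hQ l _ h.1 h1 ?_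
      intro i hi
      rcases h2 i hi with e | e
      · exact Or.inl e
      · rcases List.mem_cons.mp e with e | e
        · subst e
          left
          by_contra e'
          exact hv ⟨hi, e'⟩
        · exact Or.inr e

/-- The facets are cliques on the vertices below `N`. -/
def facOk (M : ℕ → ℕ) (N : ℕ) (F : List ℕ) : Bool :=
  F.all fun f => sub f (msk (List.range N)) &&
    (List.range N).all fun i => !f.testBit i || sub f (M i ||| 2 ^ i)

theorem sphere_of_cert {U : Type} (adj : U → U → Prop) (N : ℕ) (enc : U → ℕ)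
    (hi : Function.Injective enc) (hN : ∀ i, i < N ↔ ∃ u, enc u = i) (M : ℕ → ℕ)
    (hM : ∀ u u', adj u u' ↔ (M (enc u)).testBit (enc u') = true) (F : List ℕ)
    (h1 : facOk M N F = true) (h2 : cover M F (List.range N) 0 = true)
    (h3 : Nonempty (FC F ≃ₜ EuclideanSpace ℝ (Fin 4))) :
    Nonempty (Cone adj ≃ₜ EuclideanSpace ℝ (Fin 4)) := by
  obtain ⟨e⟩ := h3
  simp only [facOk, Bool.and_eq_true, List.all_eq_true, Bool.or_eq_true, Bool.not_eq_true',
    List.mem_range] at h1
  obtain ⟨e'⟩ := transfer enc hi (Cone adj) (FC F) (by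
    intro x
    constructor
    · rintro ⟨h0, f, hf, hs⟩
      refine ⟨fun i hi => ?_, fun u => h0 _, fun u u' hu hu' hne => ?_⟩
      · by_contra e
        have := (testBit_msk _ i).1 ((sub_iff _ _).1 (h1 f hf).1 i (hs i e))
        obtain ⟨u, hu⟩ := (hN i).1 (List.mem_range.mp this)
        exact hi u hu
      · rcases (h1 f hf).2 (enc u) ((hN _).2 ⟨u, rfl⟩) with e | e
        · simp [hs _ hu] at e
        · have := (sub_iff _ _).1 e _ (hs _ hu')
          rw [Nat.testBit_or, Bool.or_eq_true, Nat.testBit_two_pow] at this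
          rcases this with e | e
          · exact (hM u u').2 e
          · exact absurd (hi (of_decide_eq_true e)) hne
    · rintro ⟨h3, h0, hc⟩
      have hx : ∀ i, x i ≠ 0 → ∃ u, enc u = i := by
        intro i hi
        by_contra e
        push Not at e
        exact hi (h3 i e)
      refine ⟨fun i => ?_, ?_⟩
      · by_cases hi : x i = 0
        · exact hi.ge
        · obtain ⟨k, rfl⟩ := hx i hi
          exact h0 k
      · refine cover_spec M F (fun i => x i ≠ 0) ?_ _ 0 h2 (by simp) ?_
        · intro i j h4 h5 hne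
          obtain ⟨u, rfl⟩ := hx i h4
          obtain ⟨u', rfl⟩ := hx j h5
          exact (hM u u').1 (hc u u' h4 h5 fun e => hne (congrArg enc e))
        · intro i h4
          exact Or.inr (List.mem_range.mpr ((hN i).2 (hx i h4))))
  exact ⟨e'.trans e⟩

end Pool.Agent.Lib.MP_b03b3a_al
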