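import Mathlib
import Pool.Agent.Lib.MP_b03b3a_al.Flip

set_option autoImplicit false
set_option maxRecDepth 100000
set_option synthInstance.maxSize 4096

namespace Pool.Agent.Lib.MP_b03b3a_al

/-- Link of an original vertex: kind (0, 1: tree edges, 2, 3: mirrors) and label. -/
abbrev UO : Type := Fin 3 ⊕ Fin 3 ⊕ Fin 3 ⊕ Fin 3

/-- Link of the midpoint of an edge. -/
abbrev UH : Type := Bool ⊕ Fin 3 ⊕ (Bool × Bool) ⊕ (Bool × Fin 3) ⊕ (Bool × Fin 3)

/-- Triples of bits. -/
abbrev B3 : Type := Bool × Bool × Bool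

/-- The torus in the link of the centre of a square. -/
abbrev TV : Type := B3 ⊕ B3 ⊕ B3 ⊕ B3

/-- Link of the centre of a square. -/
abbrev UC : Type := Bool ⊕ Bool ⊕ TV ⊕ Fin 8

open Sum

def aO : UO → UO → Bool
  | inl _, inr (inl _) => true
  | inl i, inr (inr (inl k)) => i != k
  | inl _, inr (inr (inr _)) => true
  | inr (inl _), inr (inr (inl _)) => true
  | inr (inl j), inr (inr (inr l)) => j != l
  | inr (inr (inl _)), inr (inr (inr _)) => true
  | _, _ => false

def aH : UH → UH → Bool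
  | inl _, inr (inl _) => true
  | inl a, inr (inr (inl n)) => a == n.1
  | inl a, inr (inr (inr (inl p))) => a == p.1
  | inr (inl _), inr (inr (inl _)) => true
  | inr (inl j), inr (inr (inr (inl p))) => j != p.2
  | inr (inl j), inr (inr (inr (inr c))) => j != c.2
  | inr (inr (inl n)), inr (inr (inl n')) => n.1 != n'.1 && n.2 == n'.2
  | inr (inr (inl n)), inr (inr (inr (inl p))) => n.1 == p.1
  | inr (inr (inr (inl p))), inr (inr (inr (inl p'))) => p.1 != p'.1 && p.2 == p'.2
  | inr (inr (inr (inr c))), inr (inr (inl n)) => c.1 == n.2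
  | inr (inr (inr (inr c))), inr (inr (inr (inl p))) => c.2 == p.2
  | _, _ => false

def aT (t : Bool) : TV → TV → Bool
  | inl n, inr (inl p) => n.1 == p.1 && n.2.1 == p.2.1
  | inl n, inl m => (n.2.1 == m.2.1 && n.1 != m.1 && n.2.2 == xor m.2.2 (n.2.1 && t)) ||
      (n.1 == m.1 && n.2.1 != m.2.1 && n.2.2 == m.2.2)
  | inr (inl n), inr (inl m) => (n.1 == m.1 && n.2.1 != m.2.1 && n.2.2 == xor m.2.2 (n.1 && t)) ||
      (n.2.1 == m.2.1 && n.1 != m.1 && n.2.2 == m.2.2)
  | inr (inr (inl h)), inl n => h.1 == n.2.1 && n.2.2 == xor h.2.1 (n.1 && h.1 && t)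
  | inr (inr (inl h)), inr (inl p) => h.1 == p.2.1 && p.2.2 == h.2.2
  | inr (inr (inr v)), inl n => v.1 == n.1 && n.2.2 == v.2.1
  | inr (inr (inr v)), inr (inl p) => v.1 == p.1 && p.2.2 == xor v.2.2 (p.2.1 && v.1 && t)
  | _, _ => false

def enc3 (x : B3) : ℕ := 4 * x.1.toNat + 2 * x.2.1.toNat + x.2.2.toNat

def encT : TV → ℕ
  | inl x => enc3 x
  | inr (inl x) => 8 + enc3 x
  | inr (inr (inl x)) => 16 + enc3 x
  | inr (inr (inr x)) => 24 + enc3 x

/-- The vertices of the torus joined to the `k`-th filling vertex. -/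
def fillTab (t : Bool) (k : Fin 8) (x : TV) : Bool :=
  ((if t then ![2199557, 312711765, 8522320, 684354138, 4743178, 2220647850, 1312160, 1094030757]
    else ![85, 286348629, 21760, 1145329066, 170, 2290657962, 43520, 572697173] :
      Fin 8 → ℕ) k).testBit (encT x)

def aC (t : Bool) : UC → UC → Bool
  | inl _, inr (inl _) => true
  | inl a, inr (inr (inl (inl n))) => a == n.1
  | inl a, inr (inr (inl (inr (inl p)))) => a == p.1
  | inl a, inr (inr (inl (inr (inr (inr v))))) => a == v.1
  | inr (inl a), inr (inr (inl (inl n))) => a == n.2.1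
  | inr (inl a), inr (inr (inl (inr (inl p)))) => a == p.2.1
  | inr (inl a), inr (inr (inl (inr (inr (inl h))))) => a == h.1
  | inr (inr (inl x)), inr (inr (inl y)) => aT t x y
  | inr (inr (inr k)), inr (inr (inl x)) => fillTab t k x
  | inr (inr (inr k)), inr (inr (inr l)) => l == k + 1
  | _, _ => false

def encO : UO → ℕ
  | inl i => i
  | inr (inl i) => 3 + i
  | inr (inr (inl i)) => 6 + i
  | inr (inr (inr i)) => 9 + i

def encH : UH → ℕ
  | inl a => a.toNat
  | inr (inl j) => 2 + j
  | inr (inr (inl n)) => 5 + 2 * n.1.toNat + n.2.toNat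
  | inr (inr (inr (inl p))) => 9 + 3 * p.1.toNat + p.2
  | inr (inr (inr (inr c))) => 15 + 3 * c.1.toNat + c.2

def encC : UC → ℕ
  | inl a => a.toNat
  | inr (inl a) => 2 + a.toNat
  | inr (inr (inl x)) => 4 + encT x
  | inr (inr (inr k)) => 36 + k

/-- Row of an adjacency matrix packed in a number. -/
def row (big n i : ℕ) : ℕ := (big >>> (n * i)) % 2 ^ n

def matO : ℕ := 2608582191461517125342343366954029533335480

def facO : List ℕ := [1161, 2185, 1289, 2313, 657, 2193, 785, 2321, 673, 1185, 801, 1313, 1098,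
  2122, 1290, 2314, 594, 2130, 786, 2322, 610, 1122, 802, 1314, 1100, 2124, 1164, 2188, 596, 2132,
  660, 2196, 612, 1124, 676, 1188]

def movO : List (List ℕ × List ℕ) := [([1, 6, 11], [3, 4]), ([1, 11], [3, 4, 8]), ([8, 11], [0, 3,
  4]), ([6, 11], [2, 3, 4]), ([0, 11], [3, 4, 7]), ([11], [2, 3, 4, 7]), ([2, 3, 6], [4, 10]),
  ([3, 6], [1, 4, 10]), ([1, 3], [4, 8, 10]), ([3, 8], [0, 4, 10]), ([0, 3], [4, 7, 10]), ([3],
  [2, 4, 7, 10]), ([2, 5, 7], [9, 10]), ([2, 5], [6, 9, 10]), ([5, 6], [1, 9, 10]), ([5, 7], [0,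
  9, 10]), ([0, 5], [8, 9, 10]), ([5], [1, 8, 9, 10]), ([0, 7], [4, 9, 10]), ([0], [4, 8, 9, 10]),
  ([7], [2, 4, 9, 10]), ([8], [1, 4, 9, 10]), ([2], [4, 6, 9, 10])]

def endO : Fin 5 → ℕ := ![1, 4, 6, 9, 10]

def matH : ℕ := 50807018334558366650105618778682469919503531841267000286776369164931907043704867948913240336705251615660376899069050861333191331452

def facH : List ℕ := [1061, 2085, 1093, 2117, 553, 2089, 585, 2121, 561, 1073, 593, 1105, 8326,
  16518, 8454, 16646, 4234, 16522, 4362, 16650, 4242, 8338, 4370, 8466, 65700, 131236, 66596,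
  133156, 524612, 1048900, 525380, 1050692, 73860, 147588, 532740, 1065220, 74756, 533508, 149508,
  1067012, 32936, 131240, 33320, 133160, 262472, 1048904, 262728, 1050696, 37000, 147592, 266504,
  1065224, 37384, 266760, 149512, 1067016, 32944, 65712, 33328, 66608, 262480, 524624, 262736,
  525392, 37008, 73872, 266512, 532752, 37392, 266768, 74768, 533520]

def movH : List (List ℕ × List ℕ) := [([4, 5, 16], [7, 10]), ([5, 16], [2, 7, 10]), ([4, 16], [7,
  10, 13]), ([16], [2, 7, 10, 13]), ([8, 12, 18], [3, 4]), ([12, 18], [3, 4, 9]), ([9, 18], [3, 4,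
  6]), ([18], [3, 4, 6, 8]), ([6, 9], [0, 3, 4]), ([8, 12], [1, 3, 4]), ([9, 12], [3, 4, 15]),
  ([1, 12], [3, 4, 7]), ([12], [3, 4, 7, 15]), ([0, 9], [3, 4, 5]), ([9], [3, 4, 5, 15]), ([15],
  [3, 4, 5, 7]), ([6, 11, 20], [2, 3]), ([11, 20], [2, 3, 14]), ([6, 20], [2, 3, 8]), ([20], [2,
  3, 8, 14]), ([8, 14], [1, 2, 3]), ([11, 14], [2, 3, 17]), ([6, 11], [0, 2, 3]), ([14, 17], [2,
  3, 7]), ([14], [1, 2, 3, 7]), ([11, 17], [2, 3, 5]), ([17], [2, 3, 5, 7]), ([11], [0, 2, 3, 5]),
  ([0, 6, 10], [2, 4]), ([0, 10], [2, 4, 5]), ([0, 6], [2, 3, 4]), ([0], [2, 3, 4, 5]), ([5, 10],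
  [2, 4, 7]), ([5], [2, 3, 4, 7]), ([7, 10], [2, 4, 13]), ([3, 6], [2, 4, 8]), ([6, 8], [2, 4,
  19]), ([6], [2, 4, 10, 19]), ([10], [2, 4, 13, 19]), ([19], [2, 4, 8, 13]), ([7, 13], [1, 2,
  4]), ([7], [1, 2, 3, 4]), ([3], [1, 2, 4, 8])]

def endH : Fin 5 → ℕ := ![1, 2, 4, 8, 13]

def matC0 : ℕ := 1583561734935674033363604049353766355585826880702000663033028870474915836808541270983791712841239333728823838627727151563815599122917311255496639501638291352993491027764869835149555873466613538990796825343420175503460015666215558839308192702893010108619745385865652920153800755494680119269734257707499443709787513255740973534546364601847594283889617280403091947810550815611901875456257963167424249584311565670762528765679300597849735285831970578481712384816205444613889167862094465889336631057311630794018836789161848896147793039348875303094104826954629048727484621062127251775090940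

def facC0 : List ℕ := [4117, 8213, 4133, 8229, 16457, 32841, 16521, 32905, 268435537, 536870993,
  268439569, 536879121, 1073741985, 2147483809, 1073745953, 2147491873, 268451905, 536903745,
  1073758337, 2147516545, 268455937, 1073762305, 536911873, 2147524609, 65798, 131334, 66054,
  131590, 263178, 525322, 264202, 526346, 4294968578, 8589935874, 4295033090, 8590065922,
  17179871746, 34359740930, 17179935234, 34359869954, 4295230466, 8590459906, 17180133378,
  34360264706, 4295294978, 17180196866, 8590589954, 34360393730, 1048852, 2097428, 1052692,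
  2105364, 4194852, 8389156, 4198436, 8396836, 1114372, 2228484, 4260356, 8520196, 1118212,
  4263940, 2236420, 8527876, 16778312, 33555528, 16793672, 33587272, 67111048, 134219912,
  67125384, 134250632, 17040392, 34079752, 67373064, 134744072, 17055752, 67387400, 34111496,
  134774792, 137707389008, 8796629893200, 206158430288, 8864812499024, 137440002320,
  8796095119632, 206158430480, 8864812499216, 137440006160, 137707393040, 8796095127568,
  8796629901328, 550829555872, 2201170739360, 1649267441824, 3298534883488, 549760008736,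
  2199031644704, 1649267442208, 3298534883872, 549760012320, 550829559840, 2199031652384,
  2201170747424, 137455731776, 8796126577728, 206158431296, 8864812500032, 137455747136,
  137707405376, 8796126609472, 8796629925952, 549822924928, 2199157475456, 1649267443840,
  3298534885504, 549822939264, 550829572224, 2199157506176, 2201170772096, 141733922048,
  8804682958080, 206158431488, 8864812500224, 137440067840, 141733986560, 8796095250688,
  8804683088128, 566935685632, 2233382996480, 1649267444224, 3298534885888, 549760074240,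
  566935749120, 2199031775744, 2233383125504, 137455993856, 141734183936, 8796127101952,
  8804683482112, 549823186944, 566935947264, 2199157999616, 2233383520256, 137707409408,
  550829576192, 412316880896, 824633741312, 137440071680, 549760077824, 412316930048,
  824633790464, 8796629934080, 2201170780160, 6597069807616, 13194139574272, 8796095258624,
  2199031783424, 6597069905920, 13194139672576, 137456009216, 549823201280, 412317138944,
  824633999360, 8796127133696, 2199158030336, 6597070323712, 13194140090368, 141734248448,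
  566936010752, 412317188096, 824634048512, 8804683612160, 2233383649280, 6597070422016,
  13194140188672]

def movC0 : List (List ℕ × List ℕ) := [([5, 9, 40], [39, 41]), ([5, 40], [7, 39, 41]), ([7, 40],
  [11, 39, 41]), ([40], [9, 11, 39, 41]), ([8, 16, 20], [2, 37]), ([8, 20], [2, 4, 37]), ([4, 20],
  [2, 12, 37]), ([20], [2, 12, 16, 37]), ([10, 32, 37], [8, 18]), ([32, 37], [8, 16, 18]), ([10,
  32], [1, 8, 18]), ([32], [1, 8, 16, 18]), ([11, 26, 39], [7, 18]), ([26, 39], [7, 14, 18]),
  ([14, 26], [3, 7, 18]), ([26], [3, 7, 11, 18]), ([9, 34, 39], [11, 16]), ([34, 39], [11, 16,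
  18]), ([18, 34], [1, 11, 16]), ([34], [1, 9, 11, 16]), ([15, 19, 27], [3, 41]), ([19, 27], [3,
  11, 41]), ([11, 27], [3, 7, 41]), ([27], [3, 7, 15, 41]), ([2, 8, 21], [4, 17]), ([8, 21], [4,
  17, 43]), ([2, 21], [4, 13, 17]), ([21], [4, 13, 17, 43]), ([5, 12, 30], [0, 39]), ([5, 30], [0,
  7, 39]), ([12, 30], [0, 14, 39]), ([30], [0, 7, 14, 39]), ([0, 13, 29], [4, 15]), ([13, 29], [4,
  15, 43]), ([29, 43], [4, 6, 15]), ([29], [0, 4, 6, 15]), ([4, 36, 43], [6, 8]), ([4, 36], [6, 8,
  37]), ([36, 37], [6, 8, 10]), ([36], [6, 8, 10, 43]), ([3, 6, 25], [10, 15]), ([3, 25], [10, 15,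
  19]), ([19, 25], [10, 15, 43]), ([25], [6, 10, 15, 43]), ([14, 37, 38], [12, 18]), ([14, 38],
  [12, 18, 39]), ([38, 39], [12, 16, 18]), ([38], [12, 16, 18, 37]), ([14, 28, 37], [6, 12]),
  ([14, 28], [0, 6, 12]), ([0, 28], [4, 6, 12]), ([28], [4, 6, 12, 37]), ([15, 31, 41], [7, 13]),
  ([31, 41], [5, 7, 13]), ([5, 31], [0, 7, 13]), ([31], [0, 7, 13, 15]), ([3, 6, 24], [10, 14]),
  ([3, 24], [10, 14, 18]), ([6, 24], [10, 14, 37]), ([24], [10, 14, 18, 37]), ([13, 41, 42], [15,
  17]), ([13, 42], [15, 17, 43]), ([41, 42], [15, 17, 19]), ([42], [15, 17, 19, 43]), ([13, 43],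
  [4, 15, 17]), ([11, 35, 41], [9, 19]), ([35, 41], [9, 17, 19]), ([17, 35], [1, 9, 19]), ([35],
  [1, 9, 11, 19]), ([1, 10, 33], [8, 19]), ([10, 33], [8, 19, 43]), ([33, 43], [8, 17, 19]),
  ([33], [1, 8, 17, 19]), ([17, 23, 41], [9, 13]), ([17, 23], [2, 9, 13]), ([2, 23], [5, 9, 13]),
  ([23], [5, 9, 13, 41]), ([12, 16, 22], [2, 39]), ([16, 22], [2, 9, 39]), ([9, 22], [2, 5, 39]),
  ([22], [2, 5, 12, 39]), ([5, 12], [0, 2, 39]), ([10, 19, 43], [8, 15]), ([19, 43], [8, 15, 17]),
  ([17, 43], [4, 8, 15]), ([10, 43], [6, 8, 15]), ([43], [4, 6, 8, 15]), ([0, 5, 39], [2, 7]),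
  ([0, 5], [2, 7, 13]), ([5, 7, 13], [2, 41]), ([5, 13], [2, 9, 41]), ([5, 9], [2, 39, 41]), ([5],
  [2, 7, 39, 41]), ([9, 13], [2, 17, 41]), ([2, 13, 41], [7, 17]), ([13, 41], [7, 15, 17]), ([4,
  13, 17], [2, 15]), ([4, 13], [0, 2, 15]), ([13, 17], [2, 7, 15]), ([13], [0, 2, 7, 15]), ([7,
  17], [2, 15, 41]), ([4, 17], [2, 8, 15]), ([4, 6, 12], [0, 37]), ([6, 12], [0, 14, 37]), ([4,
  12], [0, 2, 37]), ([2, 12, 39], [0, 16]), ([2, 12], [0, 16, 37]), ([4, 6, 8], [15, 37]), ([4,
  8], [2, 15, 37]), ([6, 8], [10, 15, 37]), ([4, 6], [0, 15, 37]), ([4], [0, 2, 15, 37]), ([3, 6,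
  14], [0, 10]), ([3, 6], [0, 10, 15]), ([6, 14], [0, 10, 37]), ([6], [0, 10, 15, 37]), ([12, 16,
  39], [0, 18]), ([12, 39], [0, 14, 18]), ([14, 39], [0, 7, 18]), ([12, 14], [0, 18, 37]), ([12],
  [0, 16, 18, 37]), ([14, 37], [0, 10, 18]), ([10, 14], [0, 3, 18]), ([14], [0, 3, 7, 18]), ([8,
  15, 37], [2, 10]), ([15, 37], [0, 2, 10]), ([9, 17, 41], [2, 19]), ([17, 41], [2, 15, 19]), ([9,
  17], [1, 2, 19]), ([1, 17], [2, 8, 19]), ([17], [2, 8, 15, 19]), ([8, 15], [2, 10, 19]), ([8,
  19], [1, 2, 10]), ([8, 10, 37], [2, 18]), ([10, 37], [0, 2, 18]), ([0, 37], [2, 16, 18]), ([37],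
  [2, 8, 16, 18]), ([0, 16], [2, 18, 39]), ([8, 10], [1, 2, 18]), ([8], [1, 2, 16, 18]), ([0, 39],
  [2, 7, 18]), ([1, 16, 18], [2, 11]), ([16, 18], [2, 11, 39]), ([16, 39], [2, 9, 11]), ([16], [1,
  2, 9, 11]), ([1, 9], [2, 11, 19]), ([18, 39], [2, 7, 11]), ([7, 39], [2, 11, 41]), ([39], [2, 9,
  11, 41]), ([9], [2, 11, 19, 41]), ([1, 10, 19], [2, 3]), ([10, 19], [2, 3, 15]), ([1, 10], [2,
  3, 18]), ([15, 19], [2, 3, 41]), ([1, 19], [2, 3, 11]), ([1], [2, 3, 11, 18]), ([19], [2, 3, 11,
  41]), ([15, 41], [2, 3, 7]), ([41], [2, 3, 7, 11]), ([11], [2, 3, 7, 18]), ([10, 15], [0, 2,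
  3]), ([10], [0, 2, 3, 18]), ([15], [0, 2, 3, 7])]

def endC0 : Fin 5 → ℕ := ![0, 2, 3, 7, 18]

def matC1 : ℕ := 1586512859096779495550294015400219446234203916883520073409547177110648281042214423228561141582686060612588921747523253535025187516061146753237191468010153427900771130810795209900171791597440601330594431368289036693211897549913594598515341985569514860122550417062178459677296185815943793060890943823668738368258621688839043584326313682310755090537044379886668543685338225751265103052639620716983076835425419534381075798868666843574462152529640383571830489531749614129320841583296878132580975744715471721779404943465266446772388885993782088565420321567893874092826236733539479420203260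

def facC1 : List ℕ := [4117, 8213, 4133, 8229, 16457, 32841, 16521, 32905, 268435537, 536870993,
  268439569, 536879121, 1073741985, 2147483809, 1073745953, 2147491873, 268451905, 536903745,
  1073758337, 2147516545, 268455937, 1073762305, 536911873, 2147524609, 65798, 131334, 66054,
  131590, 263178, 525322, 264202, 526346, 4294968578, 8589935874, 4295033090, 8590065922,
  17179871746, 34359740930, 17179935234, 34359869954, 8590197762, 4295492610, 34360002562,
  17180395522, 4295557122, 17180459010, 8590327810, 34360131586, 1048852, 2097428, 1052692,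
  2105364, 4194852, 8389156, 4198436, 8396836, 1114372, 2228484, 4260356, 8520196, 1118212,
  4263940, 2236420, 8527876, 16779336, 33556552, 16793672, 33587272, 67110024, 134218888,
  67125384, 134250632, 67372040, 134743048, 17041416, 34080776, 17055752, 67387400, 34111496,
  134774792, 8796361457744, 137975824464, 206158430288, 8864812499024, 137440002320, 137441050896,
  8796094074896, 8796361461776, 137441058832, 137975832592, 206159478800, 8864813547536,
  2200096997536, 551903297696, 1649267441824, 3298534883488, 2199027450400, 2199031644704,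
  2199027453984, 2200097001504, 549764210720, 551903305760, 1649275830304, 3298543271968,
  8796109801536, 8796126578752, 8796109815872, 8796361474112, 137472540736, 137975857216,
  206191984704, 8864846053440, 549822923904, 549890032768, 2199090380928, 2200097013888,
  549890064512, 551903330432, 1649334550656, 3298601992320, 141733922048, 558345749760,
  412316861696, 824633722112, 137440067840, 141733986560, 549758042368, 558345879808,
  412318957824, 824635818240, 8813272893952, 2233382996480, 6597069769216, 13194139535872,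
  8796097282560, 8813272957440, 2199031775744, 2233383125504, 6597073961472, 13194143728128,
  549823185920, 558346011648, 137573696512, 141734446080, 412451079168, 824767939584,
  2199040296960, 2233383258112, 8796127102976, 8813273417728, 6597086545920, 13194156312576,
  8796361478144, 2200097017856, 6597069787136, 13194139553792, 8796094140416, 8796097286144,
  6597073965056, 13194143731712, 137975865344, 551903338496, 412316901376, 824633761792,
  549758050304, 549764341760, 412318965760, 824635826176, 2199040311296, 2199090642944,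
  6597086560256, 13194156326912, 137473064960, 137573728256, 412451110912, 824767971328,
  141734510592, 8813273481216, 206159020032, 8864813088768, 206159544320, 8864813613056,
  558346141696, 2233383387136, 1649267834880, 3298535276544, 1649275961344, 3298543403008,
  1649334812672, 3298602254336, 206192508928, 8864846577664]

def movC1 : List (List ℕ × List ℕ) := [([1, 16, 32], [8, 19]), ([1, 32], [8, 10, 19]), ([16, 32],
  [8, 19, 37]), ([32], [8, 10, 19, 37]), ([8, 17, 33], [1, 39]), ([17, 33], [1, 18, 39]), ([18,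
  33], [1, 10, 39]), ([33], [1, 8, 10, 39]), ([7, 30, 41], [5, 14]), ([7, 30], [0, 5, 14]), ([30,
  41], [5, 12, 14]), ([30], [0, 5, 12, 14]), ([16, 19, 34], [1, 43]), ([19, 34], [1, 11, 43]),
  ([16, 34], [1, 9, 43]), ([34], [1, 9, 11, 43]), ([9, 17, 35], [1, 41]), ([17, 35], [1, 18, 41]),
  ([18, 35], [1, 11, 41]), ([35], [1, 9, 11, 41]), ([4, 6, 29], [0, 37]), ([4, 29], [0, 13, 37]),
  ([13, 29], [0, 15, 37]), ([29], [0, 6, 15, 37]), ([6, 14, 28], [0, 43]), ([6, 28], [0, 4, 43]),
  ([4, 28], [0, 12, 43]), ([28], [0, 12, 14, 43]), ([0, 7, 31], [5, 15]), ([0, 31], [5, 13, 15]),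
  ([13, 31], [5, 15, 39]), ([31], [5, 7, 15, 39]), ([2, 16, 22], [9, 12]), ([16, 22], [9, 12,
  43]), ([2, 22], [5, 9, 12]), ([22, 43], [9, 12, 42]), ([22, 42], [9, 12, 41]), ([22], [5, 9, 12,
  41]), ([9, 12, 42], [41, 43]), ([12, 42], [14, 41, 43]), ([9, 42], [11, 41, 43]), ([14, 42],
  [24, 41, 43]), ([42], [11, 24, 41, 43]), ([9, 11], [1, 41, 43]), ([3, 6, 24], [11, 14]), ([3,
  24], [11, 14, 18]), ([18, 24], [11, 14, 41]), ([6, 24], [11, 14, 43]), ([24], [11, 14, 41, 43]),
  ([8, 10, 38], [37, 39]), ([10, 38], [27, 37, 39]), ([27, 38], [15, 37, 39]), ([15, 38], [13, 37,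
  39]), ([13, 38], [21, 37, 39]), ([38], [8, 21, 37, 39]), ([15, 27, 37], [19, 39]), ([27, 37],
  [10, 19, 39]), ([10, 37], [8, 19, 39]), ([8, 10], [1, 19, 39]), ([15, 19, 27], [3, 39]), ([19,
  27], [3, 10, 39]), ([10, 27], [3, 7, 39]), ([27], [3, 7, 15, 39]), ([7, 10], [3, 26, 39]), ([10,
  26], [3, 18, 39]), ([10, 19], [1, 3, 39]), ([10], [1, 3, 18, 39]), ([18, 26, 40], [39, 41]),
  ([26, 40], [7, 39, 41]), ([18, 40], [17, 39, 41]), ([7, 40], [5, 39, 41]), ([5, 40], [23, 39,
  41]), ([40], [17, 23, 39, 41]), ([17, 18], [1, 39, 41]), ([7, 26, 41], [14, 39]), ([7, 41], [5,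
  14, 39]), ([7, 26], [3, 14, 39]), ([26, 41], [14, 18, 39]), ([26], [3, 14, 18, 39]), ([1, 18,
  39], [3, 41]), ([1, 18], [3, 11, 41]), ([18, 39], [3, 14, 41]), ([18], [3, 11, 14, 41]), ([3, 7,
  14], [0, 39]), ([7, 14], [0, 5, 39]), ([3, 7], [0, 15, 39]), ([7], [0, 5, 15, 39]), ([5, 15],
  [0, 13, 39]), ([13, 15], [0, 37, 39]), ([13, 17, 21], [2, 39]), ([17, 21], [2, 8, 39]), ([8,
  17], [1, 2, 39]), ([13, 17], [2, 23, 39]), ([13, 23], [2, 5, 39]), ([5, 13], [0, 2, 39]), ([2,
  5, 23], [9, 39]), ([5, 23], [9, 39, 41]), ([23, 41], [9, 17, 39]), ([23], [2, 9, 17, 39]), ([2,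
  17], [1, 9, 39]), ([17], [1, 9, 39, 41]), ([8, 21, 39], [2, 37]), ([8, 21], [2, 4, 37]), ([4,
  21], [2, 13, 37]), ([21], [2, 13, 37, 39]), ([4, 13], [0, 2, 37]), ([13], [0, 2, 37, 39]), ([4,
  8], [2, 20, 37]), ([8, 20], [2, 16, 37]), ([8, 16, 19], [1, 37]), ([8, 16], [1, 2, 37]), ([8,
  19], [1, 37, 39]), ([8], [1, 2, 37, 39]), ([2, 16, 20], [12, 37]), ([2, 20], [4, 12, 37]), ([2,
  4], [0, 12, 37]), ([4, 12, 20], [37, 43]), ([4, 12], [0, 37, 43]), ([12, 20], [16, 37, 43]),
  ([4, 20], [36, 37, 43]), ([20], [16, 36, 37, 43]), ([4, 36], [6, 37, 43]), ([4], [0, 6, 37,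
  43]), ([6, 36], [25, 37, 43]), ([16, 36], [19, 37, 43]), ([36], [19, 25, 37, 43]), ([16, 19],
  [1, 37, 43]), ([1, 2, 16], [9, 37]), ([1, 2], [9, 37, 39]), ([2, 16], [9, 12, 37]), ([1, 16],
  [9, 37, 43]), ([16], [9, 12, 37, 43]), ([0, 2, 12], [5, 37]), ([2, 12], [5, 9, 37]), ([0, 2],
  [5, 37, 39]), ([2], [5, 9, 37, 39]), ([25, 37, 43], [6, 19]), ([25, 37], [6, 15, 19]), ([15,
  25], [3, 6, 19]), ([25, 43], [6, 11, 19]), ([25], [3, 6, 11, 19]), ([15, 19, 37], [6, 39]),
  ([15, 19], [3, 6, 39]), ([3, 15], [0, 6, 39]), ([15], [0, 6, 37, 39]), ([0, 3], [6, 14, 39]),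
  ([11, 14, 43], [6, 41]), ([11, 14], [3, 6, 41]), ([3, 14], [6, 39, 41]), ([3, 6, 41], [11, 39]),
  ([3, 6], [11, 19, 39]), ([3, 41], [1, 11, 39]), ([3], [1, 11, 19, 39]), ([11, 19, 43], [1, 6]),
  ([11, 19], [1, 6, 39]), ([19, 39], [1, 6, 37]), ([19], [1, 6, 37, 43]), ([11, 39], [1, 6, 41]),
  ([11], [1, 6, 41, 43]), ([1, 6, 43], [37, 41]), ([1, 43], [9, 37, 41]), ([1, 6], [37, 39, 41]),
  ([1], [9, 37, 39, 41]), ([9, 39], [5, 37, 41]), ([5, 9], [12, 37, 41]), ([9], [12, 37, 41, 43]),
  ([6, 39, 41], [14, 37]), ([39, 41], [5, 14, 37]), ([5, 39], [0, 14, 37]), ([39], [0, 6, 14,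
  37]), ([0, 6], [14, 37, 43]), ([6], [14, 37, 41, 43]), ([5, 41], [12, 14, 37]), ([5], [0, 12,
  14, 37]), ([0], [12, 14, 37, 43])]

def endC1 : Fin 5 → ℕ := ![12, 14, 37, 41, 43]


theorem encO_inj : Function.Injective encO := by
  have : ∀ u u' : UO, encO u = encO u' → u = u' := by decide +kernel
  exact this

theorem encO_range (i : ℕ) : i < 12 ↔ ∃ u, encO u = i := by
  have h1 : ∀ i < 12, ∃ u, encO u = i := by decide +kernel
  have h2 : ∀ u, encO u < 12 := by decide +kernel
  exact ⟨h1 i, fun ⟨u, h⟩ => h ▸ h2 u⟩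

theorem encH_inj : Function.Injective encH := by
  have : ∀ u u' : UH, encH u = encH u' → u = u' := by decide +kernel
  exact this

theorem encH_range (i : ℕ) : i < 21 ↔ ∃ u, encH u = i := by
  have h1 : ∀ i < 21, ∃ u, encH u = i := by decide +kernel
  have h2 : ∀ u, encH u < 21 := by decide +kernel
  exact ⟨h1 i, fun ⟨u, h⟩ => h ▸ h2 u⟩

theorem encC_inj : Function.Injective encC := by
  have : ∀ u u' : UC, encC u = encC u' → u = u' := by decide +kernel
  exact this

theorem encC_range (i : ℕ) : i < 44 ↔ ∃ u, encC u = i := by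
  have h1 : ∀ i < 44, ∃ u, encC u = i := by decide +kernel
  have h2 : ∀ u, encC u < 44 := by decide +kernel
  exact ⟨h1 i, fun ⟨u, h⟩ => h ▸ h2 u⟩

theorem runO : run endO movO facO = true := by decide +kernel

theorem facO_ok : facOk (row matO 12) 12 facO = true := by decide +kernel

theorem covO : cover (row matO 12) facO (List.range 12) 0 = true := by decide +kernel

theorem adjO : ∀ u u' : UO,
    (aO u u' || aO u' u) = (row matO 12 (encO u)).testBit (encO u') := by
  decide +kernel

theorem sphereO : Nonempty (Cone (fun u u' : UO => (aO u u' || aO u' u) = true) ≃ₜ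
    EuclideanSpace ℝ (Fin 4)) :=
  sphere_of_cert _ 12 encO encO_inj encO_range (row matO 12)
    (fun u u' => by rw [adjO]) facO facO_ok covO
    (run_homeo (by decide) _ _ runO)

theorem runH : run endH movH facH = true := by decide +kernel

theorem facH_ok : facOk (row matH 21) 21 facH = true := by decide +kernel

theorem covH : cover (row matH 21) facH (List.range 21) 0 = true := by decide +kernel

theorem adjH : ∀ u u' : UH,
    (aH u u' || aH u' u) = (row matH 21 (encH u)).testBit (encH u') := by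
  decide +kernel

theorem sphereH : Nonempty (Cone (fun u u' : UH => (aH u u' || aH u' u) = true) ≃ₜ
    EuclideanSpace ℝ (Fin 4)) :=
  sphere_of_cert _ 21 encH encH_inj encH_range (row matH 21)
    (fun u u' => by rw [adjH]) facH facH_ok covH
    (run_homeo (by decide) _ _ runH)

theorem runC0 : run endC0 movC0 facC0 = true := by decide +kernel

theorem facC0_ok : facOk (row matC0 44) 44 facC0 = true := by decide +kernel

theorem covC0 : cover (row matC0 44) facC0 (List.range 44) 0 = true := by decide +kernel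

theorem adjC0 : ∀ u u' : UC,
    (aC false u u' || aC false u' u) = (row matC0 44 (encC u)).testBit (encC u') := by
  decide +kernel

theorem sphereC0 : Nonempty (Cone (fun u u' : UC => (aC false u u' || aC false u' u) = true) ≃ₜ
    EuclideanSpace ℝ (Fin 4)) :=
  sphere_of_cert _ 44 encC encC_inj encC_range (row matC0 44)
    (fun u u' => by rw [adjC0]) facC0 facC0_ok covC0
    (run_homeo (by decide) _ _ runC0)

theorem runC1 : run endC1 movC1 facC1 = true := by decide +kernel

theorem facC1_ok : facOk (row matC1 44) 44 facC1 = true := by decide +kernel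

theorem covC1 : cover (row matC1 44) facC1 (List.range 44) 0 = true := by decide +kernel

theorem adjC1 : ∀ u u' : UC,
    (aC true u u' || aC true u' u) = (row matC1 44 (encC u)).testBit (encC u') := by
  decide +kernel

theorem sphereC1 : Nonempty (Cone (fun u u' : UC => (aC true u u' || aC true u' u) = true) ≃ₜ
    EuclideanSpace ℝ (Fin 4)) :=
  sphere_of_cert _ 44 encC encC_inj encC_range (row matC1 44)
    (fun u u' => by rw [adjC1]) facC1 facC1_ok covC1
    (run_homeo (by decide) _ _ runC1)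

theorem sphereC (t : Bool) : Nonempty (Cone (fun u u' : UC => (aC t u u' || aC t u' u) = true) ≃ₜ
    EuclideanSpace ℝ (Fin 4)) := by
  cases t
  · exact sphereC0
  · exact sphereC1

end Pool.Agent.Lib.MP_b03b3a_al
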