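import Mathlib
import Pool.Agent.Lib.MP_b03b3a_al.Build
import Pool.Agent.Lib.MP_b03b3a_al.Models

set_option autoImplicit false

namespace Pool.Agent.Lib.MP_b03b3a_al

/-- Half edges. -/
@[ext] structure Dt (E : Type) where
  e : E
  s : Bool

/-- A bipartite three-regular tree with its subdivision. -/
structure T3 (V E : Type) where
  en : E → Bool → V
  ty : V → Bool
  ty_en : ∀ e s, ty (en e s) = s
  simple : ∀ e e', en e false = en e' false → en e true = en e' true → e = e'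
  three : ∀ v, ∃ f : Fin 3 → E, Function.Injective f ∧ ∀ e, en e (ty v) = v ↔ ∃ i, f i = e
  ht : HT (V ⊕ E) (Dt E)
  lo_eq : ∀ d, ht.lo d = .inl (en d.e d.s)
  hi_eq : ∀ d, ht.hi d = .inr d.e

namespace T3

variable {V E : Type} (T : T3 V E)

theorem en_inj (e : E) (s t : Bool) : T.en e s = T.en e t ↔ s = t :=
  ⟨fun h => by rw [← T.ty_en e s, h, T.ty_en], fun h => by rw [h]⟩

theorem en_ty {e e' : E} {s t : Bool} (h : T.en e s = T.en e' t) : s = t := by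
  rw [← T.ty_en e s, h, T.ty_en]

/-- The star of a vertex. -/
def star (v : V) : Set (V ⊕ E) := fun p => match p with
  | .inl u => u = v
  | .inr e => T.en e (T.ty v) = v

/-- The star of a vertex without one edge. -/
def starm (d : Dt E) : Set (V ⊕ E) := fun p => match p with
  | .inl u => u = T.en d.e d.s
  | .inr e => T.en e d.s = T.en d.e d.s ∧ e ≠ d.e

@[simp] theorem inl_star (u v : V) : .inl u ∈ T.star v ↔ u = v := Iff.rfl
@[simp] theorem inr_star (e : E) (v : V) : .inr e ∈ T.star v ↔ T.en e (T.ty v) = v := Iff.rfl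
@[simp] theorem inl_starm (u : V) (d : Dt E) : .inl u ∈ T.starm d ↔ u = T.en d.e d.s := Iff.rfl
@[simp] theorem inr_starm (e : E) (d : Dt E) :
    .inr e ∈ T.starm d ↔ T.en e d.s = T.en d.e d.s ∧ e ≠ d.e := Iff.rfl

theorem star_shape (v : V) : ∀ p ∈ T.star v, p = .inl v ∨ ∃ d, T.ht.lo d = .inl v ∧ T.ht.hi d = p := by
  rintro (u | e) h
  · exact Or.inl (congrArg _ h)
  · exact Or.inr ⟨⟨e, T.ty v⟩, by rw [T.lo_eq]; exact congrArg _ h, T.hi_eq _⟩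

theorem starm_shape (d : Dt E) : ∀ p ∈ T.starm d,
    p = .inl (T.en d.e d.s) ∨ ∃ d', T.ht.lo d' = .inl (T.en d.e d.s) ∧ T.ht.hi d' = p := by
  rintro (u | e) h
  · exact Or.inl (congrArg _ h)
  · exact Or.inr ⟨⟨e, d.s⟩, by rw [T.lo_eq]; exact congrArg _ h.1, T.hi_eq _⟩

theorem ends_iff (e : E) (s t : Bool) :
    (∃ e', T.en e s = T.en e' false ∧ T.en e t = T.en e' true) ↔ s = false ∧ t = true :=
  ⟨fun ⟨_, h1, h2⟩ => ⟨T.en_ty h1, T.en_ty h2⟩, fun ⟨h1, h2⟩ => ⟨e, by rw [h1], by rw [h2]⟩⟩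

theorem not_ends (v : V) : ¬ ∃ e', v = T.en e' false ∧ v = T.en e' true := by
  rintro ⟨e, h1, h2⟩
  exact absurd (T.en_ty (h1.symm.trans h2)) (by simp)

end T3

/-- Matchings of the two sides of the edges. -/
structure Side {V E : Type} (T : T3 V E) (U : Type) where
  sd : E → U → Bool → Bool → E
  en_sd : ∀ e u s t, T.en (sd e u s t) t = T.en e t
  ne : ∀ e u s t, sd e u s t ≠ e
  inj : ∀ e u s s' t, sd e u s t = sd e u s' t → s = s'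
  surj : ∀ e u t e', T.en e' t = T.en e t → e' ≠ e → ∃ s, sd e u s t = e'

namespace Side

variable {V E U : Type} {T : T3 V E} (S : Side T U)

theorem inj_iff (e : E) (u : U) (s s' t : Bool) : S.sd e u s t = S.sd e u s' t ↔ s = s' :=
  ⟨S.inj e u s s' t, fun h => by rw [h]⟩

theorem ne' (e : E) (u : U) (s t : Bool) : e ≠ S.sd e u s t := (S.ne e u s t).symm

theorem dart_iff (e : E) (u : U) (s s' t t' : Bool) :
    (⟨S.sd e u s t, t⟩ : Dt E) = ⟨S.sd e u s' t', t'⟩ ↔ t = t' ∧ s = s' := by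
  constructor
  · intro h
    obtain ⟨h1, rfl⟩ := Dt.mk.inj h
    exact ⟨rfl, S.inj _ _ _ _ _ h1⟩
  · rintro ⟨rfl, rfl⟩; rfl

theorem pair_iff (e : E) (u : U) (s s' t t' : Bool) :
    (∃ e₀ s₀, (⟨S.sd e u s t, t⟩ : Dt E) = ⟨S.sd e₀ u s₀ false, false⟩ ∧
      (⟨S.sd e u s' t', t'⟩ : Dt E) = ⟨S.sd e₀ u s₀ true, true⟩) ↔
      t = false ∧ t' = true ∧ s = s' := by
  constructor
  · rintro ⟨e₀, s₀, h1, h2⟩
    obtain ⟨h1, rfl⟩ := Dt.mk.inj h1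
    obtain ⟨h2, rfl⟩ := Dt.mk.inj h2
    have a := congrArg (T.en · false) h1
    have b := congrArg (T.en · true) h2
    simp only [S.en_sd] at a b
    obtain rfl := T.simple _ _ a b
    exact ⟨rfl, rfl, (S.inj _ _ _ _ _ h1).trans (S.inj _ _ _ _ _ h2).symm⟩
  · rintro ⟨rfl, rfl, rfl⟩
    exact ⟨e, s, rfl, rfl⟩

theorem not_pair (a b : E) (t : Bool) (u : U) :
    ¬ ∃ e₀ s₀, (⟨a, t⟩ : Dt E) = ⟨S.sd e₀ u s₀ false, false⟩ ∧
      (⟨b, t⟩ : Dt E) = ⟨S.sd e₀ u s₀ true, true⟩ := by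
  rintro ⟨e₀, s₀, h1, h2⟩
  exact absurd ((Dt.mk.inj h1).2.symm.trans (Dt.mk.inj h2).2) (by simp)

end Side

/-- The mirrors. -/
inductive Mir (V₁ E₁ V₂ E₂ : Type) : Type
  | n : Dt E₁ → V₂ → Mir V₁ E₁ V₂ E₂
  | p : V₁ → Dt E₂ → Mir V₁ E₁ V₂ E₂
  | ch : E₁ → Bool → Dt E₂ → Mir V₁ E₁ V₂ E₂
  | cv : Dt E₁ → E₂ → Bool → Mir V₁ E₁ V₂ E₂
  | fl : E₁ → E₂ → Fin 8 → Mir V₁ E₁ V₂ E₂

/-- Two trees with matchings whose holonomies agree. -/
structure TD (V₁ E₁ V₂ E₂ : Type) where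
  T₁ : T3 V₁ E₁
  T₂ : T3 V₂ E₂
  sH : Side T₁ V₂
  sV : Side T₂ V₁
  xb : E₁ → E₂ → Bool → Bool
  yb : E₁ → E₂ → Bool → Bool
  hx : ∀ e e' s t, sH.sd e (T₂.en e' true) (xor s (xb e e' t)) t = sH.sd e (T₂.en e' false) s t
  hy : ∀ e e' s t, sV.sd e' (T₁.en e true) (xor s (yb e e' t)) t = sV.sd e' (T₁.en e false) s t
  hol : ∀ e e', xor (xb e e' false) (xb e e' true) = xor (yb e e' false) (yb e e' true)

/-- The colours. -/
abbrev Colr : Type := (Bool × Bool) ⊕ (Bool × Bool) ⊕ Unit ⊕ Fin 8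

namespace TD

variable {V₁ E₁ V₂ E₂ : Type} (Z : TD V₁ E₁ V₂ E₂)

open Sum

/-- The torus around the centre of a square. -/
def tor (e : E₁) (e' : E₂) : TV → Mir V₁ E₁ V₂ E₂
  | inl x => .n ⟨Z.sH.sd e (Z.T₂.en e' false) x.2.2 x.1, x.1⟩ (Z.T₂.en e' x.2.1)
  | inr (inl x) => .p (Z.T₁.en e x.1) ⟨Z.sV.sd e' (Z.T₁.en e false) x.2.2 x.2.1, x.2.1⟩
  | inr (inr (inl x)) => .ch e (xor x.2.1 (x.1 && Z.xb e e' false))
      ⟨Z.sV.sd e' (Z.T₁.en e false) x.2.2 x.1, x.1⟩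
  | inr (inr (inr x)) => .cv ⟨Z.sH.sd e (Z.T₂.en e' false) x.2.1 x.1, x.1⟩ e'
      (xor x.2.2 (x.1 && Z.yb e e' false))

/-- The twist of a square. -/
def tw (e : E₁) (e' : E₂) : Bool := xor (Z.xb e e' false) (Z.xb e e' true)

/-- Oriented adjacency of mirrors. -/
def A1 : Mir V₁ E₁ V₂ E₂ → Mir V₁ E₁ V₂ E₂ → Prop
  | .n d v, .p u d' => u = Z.T₁.en d.e d.s ∧ v = Z.T₂.en d'.e d'.s
  | .n d v, .n d' v' => (v = v' ∧ ∃ e s, d = ⟨Z.sH.sd e v s false, false⟩ ∧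
      d' = ⟨Z.sH.sd e v s true, true⟩) ∨
      (d = d' ∧ ∃ e', v = Z.T₂.en e' false ∧ v' = Z.T₂.en e' true)
  | .p u d, .p u' d' => (u = u' ∧ ∃ e s, d = ⟨Z.sV.sd e u s false, false⟩ ∧
      d' = ⟨Z.sV.sd e u s true, true⟩) ∨
      (d = d' ∧ ∃ e', u = Z.T₁.en e' false ∧ u' = Z.T₁.en e' true)
  | .ch e s d, .n d' v => v = Z.T₂.en d.e d.s ∧ d'.e = Z.sH.sd e v s d'.s
  | .ch e _ d, .p u d' => d' = d ∧ Z.T₁.en e (Z.T₁.ty u) = u
  | .cv d e s, .p u d' => u = Z.T₁.en d.e d.s ∧ d'.e = Z.sV.sd e u s d'.s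
  | .cv d e _, .n d' v => d' = d ∧ Z.T₂.en e (Z.T₂.ty v) = v
  | .fl e e' k, m => (∃ x, m = Z.tor e e' x ∧ fillTab (Z.tw e e') k x = true) ∨ m = .fl e e' (k + 1)
  | _, _ => False

/-- The colouring. -/
def col : Mir V₁ E₁ V₂ E₂ → Colr
  | .n d v => inl (d.s, Z.T₂.ty v)
  | .p u d => inr (inl (Z.T₁.ty u, d.s))
  | .ch _ _ _ => inr (inr (inl ()))
  | .cv _ _ _ => inr (inr (inl ()))
  | .fl _ _ k => inr (inr (inr k))

theorem col_A1 {m m' : Mir V₁ E₁ V₂ E₂} (h : Z.A1 m m') : Z.col m ≠ Z.col m' := by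
  cases m with
  | fl e e' k =>
    rcases h with ⟨x, rfl, _⟩ | rfl
    · rcases x with x | x | x | x <;> simp [col, tor]
    · simp [col]
  | n d v =>
    cases m' <;> simp only [A1, col] at h ⊢ <;> simp
    rcases h with ⟨_, _, _, rfl, rfl⟩ | ⟨_, _, rfl, rfl⟩ <;> simp [T3.ty_en]
  | p d v =>
    cases m' <;> simp only [A1, col] at h ⊢ <;> simp
    rcases h with ⟨_, _, _, rfl, rfl⟩ | ⟨_, _, rfl, rfl⟩ <;> simp [T3.ty_en]
  | ch e s d => cases m' <;> simp only [A1, col] at h ⊢ <;> simp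
  | cv e s d => cases m' <;> simp only [A1, col] at h ⊢ <;> simp

/-- The graph of mirrors. -/
def rg : RG (Mir V₁ E₁ V₂ E₂) where
  adj m m' := Z.A1 m m' ∨ Z.A1 m' m
  symm _ _ h := h.symm
  irrefl _ h := h.elim (fun h => Z.col_A1 h rfl) fun h => Z.col_A1 h rfl

/-- Supports in the first tree. -/
def S₁ : Mir V₁ E₁ V₂ E₂ → Set (V₁ ⊕ E₁)
  | .n d _ => Z.T₁.starm d
  | .p u _ => Z.T₁.star u
  | .ch e _ _ => {inr e}
  | .cv d _ _ => Z.T₁.starm d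
  | .fl e _ _ => {inr e}

/-- Supports in the second tree. -/
def S₂ : Mir V₁ E₁ V₂ E₂ → Set (V₂ ⊕ E₂)
  | .n _ v => Z.T₂.star v
  | .p _ d => Z.T₂.starm d
  | .ch _ _ d => Z.T₂.starm d
  | .cv _ e _ => {inr e}
  | .fl _ e _ => {inr e}

/-- Centres in the first tree. -/
def c₁ : Mir V₁ E₁ V₂ E₂ → V₁ ⊕ E₁
  | .n d _ => inl (Z.T₁.en d.e d.s)
  | .p u _ => inl u
  | .ch e _ _ => inr e
  | .cv d _ _ => inl (Z.T₁.en d.e d.s)
  | .fl e _ _ => inr e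

/-- Centres in the second tree. -/
def c₂ : Mir V₁ E₁ V₂ E₂ → V₂ ⊕ E₂
  | .n _ v => inl v
  | .p _ d => inl (Z.T₂.en d.e d.s)
  | .ch _ _ d => inl (Z.T₂.en d.e d.s)
  | .cv _ e _ => inr e
  | .fl _ e _ => inr e

theorem tor_mem (e : E₁) (e' : E₂) (x : TV) :
    inr e ∈ Z.S₁ (Z.tor e e' x) ∧ inr e' ∈ Z.S₂ (Z.tor e e' x) := by
  rcases x with x | x | x | x <;> simp [tor, S₁, S₂, T3.ty_en, Side.en_sd, Side.ne']

theorem common_A1 {m m' : Mir V₁ E₁ V₂ E₂} (h : Z.A1 m m') :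
    ∃ p q, (p ∈ Z.S₁ m ∧ q ∈ Z.S₂ m) ∧ p ∈ Z.S₁ m' ∧ q ∈ Z.S₂ m' := by
  cases m with
  | fl e e' k =>
    refine ⟨inr e, inr e', ⟨rfl, rfl⟩, ?_⟩
    rcases h with ⟨x, rfl, _⟩ | rfl
    · exact Z.tor_mem e e' x
    · exact ⟨rfl, rfl⟩
  | n d v =>
    cases m' with
    | n d' v' =>
      rcases h with ⟨rfl, e, s, rfl, rfl⟩ | ⟨rfl, e, rfl, rfl⟩
      · exact ⟨inr e, inl v, by simp [S₁, S₂, Side.en_sd, Side.ne']⟩
      · exact ⟨inl (Z.T₁.en d.e d.s), inr e, by simp [S₁, S₂, T3.ty_en]⟩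
    | p u d' => exact ⟨inl u, inl v, by simpa [S₁, S₂, A1] using h⟩
    | _ => exact h.elim
  | p u d =>
    cases m' with
    | p u' d' =>
      rcases h with ⟨rfl, e, s, rfl, rfl⟩ | ⟨rfl, e, rfl, rfl⟩
      · exact ⟨inl u, inr e, by simp [S₁, S₂, Side.en_sd, Side.ne']⟩
      · exact ⟨inr e, inl (Z.T₂.en d.e d.s), by simp [S₁, S₂, T3.ty_en]⟩
    | _ => exact h.elim
  | ch e s d =>
    cases m' with
    | n d' v =>
      obtain ⟨rfl, h⟩ := h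
      exact ⟨inr e, inl (Z.T₂.en d.e d.s), by simp [S₁, S₂, h, Side.en_sd, Side.ne']⟩
    | p u d' =>
      obtain ⟨rfl, h⟩ := h
      exact ⟨inr e, inl (Z.T₂.en d'.e d'.s), by simp [S₁, S₂, h]⟩
    | _ => exact h.elim
  | cv d e s =>
    cases m' with
    | p u d' =>
      obtain ⟨rfl, h⟩ := h
      exact ⟨inl (Z.T₁.en d.e d.s), inr e, by simp [S₁, S₂, h, Side.en_sd, Side.ne']⟩
    | n d' v =>
      obtain ⟨rfl, h⟩ := h
      exact ⟨inl (Z.T₁.en d'.e d'.s), inr e, by simp [S₁, S₂, h]⟩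
    | _ => exact h.elim

/-- The data of the construction. -/
def bd : BD (V₁ ⊕ E₁) (Dt E₁) (V₂ ⊕ E₂) (Dt E₂) (Mir V₁ E₁ V₂ E₂) Colr where
  T₁ := Z.T₁.ht
  T₂ := Z.T₂.ht
  R := Z.rg
  S₁ := Z.S₁
  S₂ := Z.S₂
  c₁ := Z.c₁
  c₂ := Z.c₂
  c₁_mem m := by cases m <;> simp [c₁, S₁]
  c₂_mem m := by cases m <;> simp [c₂, S₂]
  star₁ m := by
    cases m
    · exact Z.T₁.starm_shape _
    · exact Z.T₁.star_shape _
    · exact fun p h => Or.inl h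
    · exact Z.T₁.starm_shape _
    · exact fun p h => Or.inl h
  star₂ m := by
    cases m
    · exact Z.T₂.star_shape _
    · exact Z.T₂.starm_shape _
    · exact Z.T₂.starm_shape _
    · exact fun p h => Or.inl h
    · exact fun p h => Or.inl h
  common m n h := by
    rcases h with h | h
    · exact Z.common_A1 h
    · obtain ⟨p, q, h1, h2⟩ := Z.common_A1 h
      exact ⟨p, q, h2, h1⟩
  col := Z.col
  col_adj m n h := h.elim Z.col_A1 fun h => (Z.col_A1 h).symm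

end TD

end Pool.Agent.Lib.MP_b03b3a_al
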