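import Mathlib
import Pool.Agent.Lib.MP_b03b3a_al.Mirror

set_option autoImplicit false
set_option synthInstance.maxSize 4096

namespace Pool.Agent.Lib.MP_b03b3a_al

namespace TD

variable {V₁ E₁ V₂ E₂ : Type} (Z : TD V₁ E₁ V₂ E₂)

open Sum

theorem bd_lo₁ (d : Dt E₁) : Z.bd.T₁.lo d = inl (Z.T₁.en d.e d.s) := Z.T₁.lo_eq d
theorem bd_hi₁ (d : Dt E₁) : Z.bd.T₁.hi d = inr d.e := Z.T₁.hi_eq d
theorem bd_lo₂ (d : Dt E₂) : Z.bd.T₂.lo d = inl (Z.T₂.en d.e d.s) := Z.T₂.lo_eq d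
theorem bd_hi₂ (d : Dt E₂) : Z.bd.T₂.hi d = inr d.e := Z.T₂.hi_eq d
theorem bd_S₁ : Z.bd.S₁ = Z.S₁ := rfl
theorem bd_S₂ : Z.bd.S₂ = Z.S₂ := rfl
theorem bd_adj (m m' : Mir V₁ E₁ V₂ E₂) : Z.bd.R.adj m m' ↔ Z.A1 m m' ∨ Z.A1 m' m := Iff.rfl

theorem dart_at {V E : Type} (T : T3 V E) {v : V} {f : Fin 3 → E}
    (hf : ∀ e, T.en e (T.ty v) = v ↔ ∃ i, f i = e) (d : Dt E) :
    v = T.en d.e d.s ↔ ∃ i, (⟨f i, T.ty v⟩ : Dt E) = d := by
  constructor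
  · rintro rfl
    rw [T.ty_en] at hf ⊢
    obtain ⟨i, h⟩ := (hf d.e).1 rfl
    exact ⟨i, by rw [h]⟩
  · rintro ⟨i, rfl⟩
    exact ((hf _).2 ⟨i, rfl⟩).symm

theorem dart_side {V E U : Type} {T : T3 V E} (S : Side T U) (e : E) (u : U) (d : Dt E) :
    (T.en e d.s = T.en d.e d.s ∧ e ≠ d.e) ↔ ∃ t s, (⟨S.sd e u s t, t⟩ : Dt E) = d := by
  constructor
  · rintro ⟨h1, h2⟩
    obtain ⟨s, h⟩ := S.surj e u d.s d.e h1.symm h2.symm
    exact ⟨d.s, s, by rw [h]⟩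
  · rintro ⟨t, s, rfl⟩
    exact ⟨(S.en_sd _ _ _ _).symm, S.ne' _ _ _ _⟩

theorem vert_end {V E : Type} (T : T3 V E) (e : E) (v : V) :
    T.en e (T.ty v) = v ↔ ∃ t, T.en e t = v := by
  constructor
  · intro h; exact ⟨_, h⟩
  · rintro ⟨t, rfl⟩; rw [T.ty_en]

theorem dart_mid {E : Type} (e : E) (d : Dt E) : e = d.e ↔ ∃ t, (⟨e, t⟩ : Dt E) = d := by
  constructor
  · rintro rfl; exact ⟨d.s, rfl⟩
  · rintro ⟨t, rfl⟩; rfl

theorem linkO (u : V₁) (v : V₂) : Z.bd.LinkOK (inl u) (inl v) := by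
  obtain ⟨f, hf, hf'⟩ := Z.T₁.three u
  obtain ⟨g, hg, hg'⟩ := Z.T₂.three v
  have f1 : ∀ i, Z.T₁.en (f i) (Z.T₁.ty u) = u := fun i => (hf' _).2 ⟨i, rfl⟩
  have g1 : ∀ i, Z.T₂.en (g i) (Z.T₂.ty v) = v := fun i => (hg' _).2 ⟨i, rfl⟩
  let χ : UO → Tri (Mir V₁ E₁ V₂ E₂) (Dt E₁) (Dt E₂) := fun x => match x with
    | inl i => .a ⟨f i, Z.T₁.ty u⟩
    | inr (inl j) => .b ⟨g j, Z.T₂.ty v⟩
    | inr (inr (inl k)) => .w (.n ⟨f k, Z.T₁.ty u⟩ v)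
    | inr (inr (inr l)) => .w (.p u ⟨g l, Z.T₂.ty v⟩)
  refine ⟨UO, inferInstance, _, χ, ?_, ?_, ?_, sphereO⟩
  · rintro (x | x | x | x) (y | y | y | y) <;> simp [χ, hf.eq_iff, hg.eq_iff]
  · rintro (m | d | d)
    · cases m with
      | n d w =>
        simp only [BD.Pres, bd_S₁, bd_S₂, S₁, S₂, T3.inl_star, T3.inl_starm, dart_at _ hf']
        simp [χ]
      | p w d =>
        simp only [BD.Pres, bd_S₁, bd_S₂, S₁, S₂, T3.inl_star, T3.inl_starm, dart_at _ hg']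
        simp [χ]
      | _ => simp [BD.Pres, bd_S₁, bd_S₂, S₁, S₂, χ]
    · simp [BD.Pres, bd_lo₁, bd_hi₁, dart_at _ hf', χ]
    · simp [BD.Pres, bd_lo₂, bd_hi₂, dart_at _ hg', χ]
  · rintro (x | x | x | x) (y | y | y | y) _ <;>
      simp only [χ, aO, BD.LA, bd_lo₁, bd_hi₁, bd_lo₂, bd_hi₂, bd_S₁, bd_S₂, S₁, S₂, bd_adj, A1,
        Side.not_pair, T3.not_ends] <;>
      simp [f1, g1, hf.eq_iff, hg.eq_iff]

theorem linkH (e : E₁) (v : V₂) : Z.bd.LinkOK (inr e) (inl v) := by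
  obtain ⟨g, hg, hg'⟩ := Z.T₂.three v
  have g1 : ∀ i, Z.T₂.en (g i) (Z.T₂.ty v) = v := fun i => (hg' _).2 ⟨i, rfl⟩
  let χ : UH → Tri (Mir V₁ E₁ V₂ E₂) (Dt E₁) (Dt E₂) := fun x => match x with
    | inl s => .a ⟨e, s⟩
    | inr (inl j) => .b ⟨g j, Z.T₂.ty v⟩
    | inr (inr (inl x)) => .w (.n ⟨Z.sH.sd e v x.2 x.1, x.1⟩ v)
    | inr (inr (inr (inl x))) => .w (.p (Z.T₁.en e x.1) ⟨g x.2, Z.T₂.ty v⟩)
    | inr (inr (inr (inr x))) => .w (.ch e x.1 ⟨g x.2, Z.T₂.ty v⟩)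
  refine ⟨UH, inferInstance, _, χ, ?_, ?_, ?_, sphereH⟩
  · rintro (x | x | ⟨x, x'⟩ | ⟨x, x'⟩ | ⟨x, x'⟩) (y | y | ⟨y, y'⟩ | ⟨y, y'⟩ | ⟨y, y'⟩) <;>
      simp only [χ, Tri.w.injEq, Mir.n.injEq, Side.dart_iff] <;> simp [hg.eq_iff, T3.en_inj]
  · rintro (m | d | d)
    · cases m with
      | n d w =>
        simp only [BD.Pres, bd_S₁, bd_S₂, S₁, S₂, T3.inl_star, T3.inr_starm, dart_side Z.sH e v]
        simp only [χ, Sum.exists, Prod.exists, Tri.w.injEq, Mir.n.injEq, reduceCtorEq,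
          exists_false, or_false, false_or, exists_and_right]
      | p w d =>
        simp only [BD.Pres, bd_S₁, bd_S₂, S₁, S₂, T3.inr_star, T3.inl_starm, dart_at _ hg', vert_end]
        simp only [χ, Sum.exists, Prod.exists, Tri.w.injEq, Mir.p.injEq, reduceCtorEq,
          exists_false, or_false, false_or, exists_and_right, exists_and_left]
      | ch w s d =>
        simp only [BD.Pres, bd_S₁, bd_S₂, S₁, S₂, T3.inl_starm, dart_at _ hg']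
        simp [χ]
      | _ => simp [BD.Pres, bd_S₁, bd_S₂, S₁, S₂, χ]
    · simp only [BD.Pres, bd_lo₁, bd_hi₁, reduceCtorEq, false_or, inr.injEq, dart_mid]
      simp only [χ, Sum.exists, Tri.a.injEq, reduceCtorEq, exists_false, or_false]
    · simp [BD.Pres, bd_lo₂, bd_hi₂, dart_at _ hg', χ]
  · rintro (x | x | ⟨x, x'⟩ | ⟨x, x'⟩ | ⟨x, x'⟩) (y | y | ⟨y, y'⟩ | ⟨y, y'⟩ | ⟨y, y'⟩) _ <;>
      simp only [χ, aH, BD.LA, bd_lo₁, bd_hi₁, bd_lo₂, bd_hi₂, bd_S₁, bd_S₂, S₁, S₂, bd_adj, A1,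
        Side.not_pair, T3.not_ends, Side.pair_iff, T3.ends_iff, Side.inj_iff] <;>
      simp [g1, hg.eq_iff, T3.en_inj, T3.ty_en, Side.en_sd, Side.ne'] <;>
      first | exact eq_comm | (cases x <;> cases y <;> simp [eq_comm])

theorem linkV (v : V₁) (e : E₂) : Z.bd.LinkOK (inl v) (inr e) := by
  obtain ⟨g, hg, hg'⟩ := Z.T₁.three v
  have g1 : ∀ i, Z.T₁.en (g i) (Z.T₁.ty v) = v := fun i => (hg' _).2 ⟨i, rfl⟩
  let χ : UH → Tri (Mir V₁ E₁ V₂ E₂) (Dt E₁) (Dt E₂) := fun x => match x with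
    | inl s => .b ⟨e, s⟩
    | inr (inl j) => .a ⟨g j, Z.T₁.ty v⟩
    | inr (inr (inl x)) => .w (.p v ⟨Z.sV.sd e v x.2 x.1, x.1⟩)
    | inr (inr (inr (inl x))) => .w (.n ⟨g x.2, Z.T₁.ty v⟩ (Z.T₂.en e x.1))
    | inr (inr (inr (inr x))) => .w (.cv ⟨g x.2, Z.T₁.ty v⟩ e x.1)
  refine ⟨UH, inferInstance, _, χ, ?_, ?_, ?_, sphereH⟩
  · rintro (x | x | ⟨x, x'⟩ | ⟨x, x'⟩ | ⟨x, x'⟩) (y | y | ⟨y, y'⟩ | ⟨y, y'⟩ | ⟨y, y'⟩) <;>
      simp only [χ, Tri.w.injEq, Mir.p.injEq, Side.dart_iff] <;> simp [hg.eq_iff, T3.en_inj, and_comm]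
  · rintro (m | d | d)
    · cases m with
      | p w d =>
        simp only [BD.Pres, bd_S₁, bd_S₂, S₁, S₂, T3.inl_star, T3.inr_starm, dart_side Z.sV e v]
        simp only [χ, Sum.exists, Prod.exists, Tri.w.injEq, Mir.p.injEq, reduceCtorEq,
          exists_false, or_false, false_or, exists_and_left]
      | n d w =>
        simp only [BD.Pres, bd_S₁, bd_S₂, S₁, S₂, T3.inr_star, T3.inl_starm, dart_at _ hg', vert_end]
        simp only [χ, Sum.exists, Prod.exists, Tri.w.injEq, Mir.n.injEq, reduceCtorEq,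
          exists_false, or_false, false_or, exists_and_right, exists_and_left]
      | cv d w s =>
        simp only [BD.Pres, bd_S₁, bd_S₂, S₁, S₂, T3.inl_starm, dart_at _ hg']
        simp [χ]
      | _ => simp [BD.Pres, bd_S₁, bd_S₂, S₁, S₂, χ]
    · simp [BD.Pres, bd_lo₁, bd_hi₁, dart_at _ hg', χ]
    · simp only [BD.Pres, bd_lo₂, bd_hi₂, reduceCtorEq, false_or, inr.injEq, dart_mid]
      simp only [χ, Sum.exists, Tri.b.injEq, reduceCtorEq, exists_false, or_false]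
  · rintro (x | x | ⟨x, x'⟩ | ⟨x, x'⟩ | ⟨x, x'⟩) (y | y | ⟨y, y'⟩ | ⟨y, y'⟩ | ⟨y, y'⟩) _ <;>
      simp only [χ, aH, BD.LA, bd_lo₁, bd_hi₁, bd_lo₂, bd_hi₂, bd_S₁, bd_S₂, S₁, S₂, bd_adj, A1,
        Side.not_pair, T3.not_ends, Side.pair_iff, T3.ends_iff, Side.inj_iff] <;>
      simp [g1, hg.eq_iff, T3.en_inj, T3.ty_en, Side.en_sd, Side.ne'] <;>
      first | exact eq_comm | (cases x <;> cases y <;> simp [eq_comm])

theorem hx' (e : E₁) (e' : E₂) (s t r : Bool) : Z.sH.sd e (Z.T₂.en e' false) s t =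
    Z.sH.sd e (Z.T₂.en e' r) (xor s (r && Z.xb e e' t)) t := by
  cases r
  · simp
  · simp [Z.hx]

theorem hy' (e : E₁) (e' : E₂) (s t r : Bool) : Z.sV.sd e' (Z.T₁.en e false) s t =
    Z.sV.sd e' (Z.T₁.en e r) (xor s (r && Z.yb e e' t)) t := by
  cases r
  · simp
  · simp [Z.hy]

/-- Oriented adjacency on the torus in terms of the four bits. -/
def bT (x₀ x₁ y₀ y₁ : Bool) : TV → TV → Bool
  | inl n, inr (inl p) => p.1 == n.1 && n.2.1 == p.2.1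
  | inl n, inl m => (n.2.1 == m.2.1 && !n.1 && m.1 &&
      xor n.2.2 (n.2.1 && x₀) == xor m.2.2 (n.2.1 && x₁)) ||
      (n.1 == m.1 && n.2.2 == m.2.2 && !n.2.1 && m.2.1)
  | inr (inl n), inr (inl m) => (n.1 == m.1 && !n.2.1 && m.2.1 &&
      xor n.2.2 (n.1 && y₀) == xor m.2.2 (n.1 && y₁)) ||
      (n.2.1 == m.2.1 && n.2.2 == m.2.2 && !n.1 && m.1)
  | inr (inr (inl h)), inl n => n.2.1 == h.1 &&
      xor n.2.2 (n.2.1 && (if n.1 then x₁ else x₀)) == xor h.2.1 (h.1 && x₀)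
  | inr (inr (inl h)), inr (inl p) => p.2.1 == h.1 && p.2.2 == h.2.2
  | inr (inr (inr v)), inl n => n.1 == v.1 && n.2.2 == v.2.1
  | inr (inr (inr v)), inr (inl p) => p.1 == v.1 &&
      xor p.2.2 (p.1 && (if p.2.1 then y₁ else y₀)) == xor v.2.2 (v.1 && y₀)
  | _, _ => false

theorem bT_aT : ∀ x₀ x₁ y₀ y₁ : Bool, xor x₀ x₁ = xor y₀ y₁ → ∀ x y : TV,
    (bT x₀ x₁ y₀ y₁ x y || bT x₀ x₁ y₀ y₁ y x) = (aT (xor x₀ x₁) x y || aT (xor x₀ x₁) y x) := by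
  decide +kernel

theorem A1_tor (e : E₁) (e' : E₂) (x y : TV) : Z.A1 (Z.tor e e' x) (Z.tor e e' y) ↔
    bT (Z.xb e e' false) (Z.xb e e' true) (Z.yb e e' false) (Z.yb e e' true) x y = true := by
  rcases x with ⟨a, b, c⟩ | ⟨a, b, c⟩ | ⟨a, b, c⟩ | ⟨a, b, c⟩ <;>
    rcases y with ⟨a', b', c'⟩ | ⟨a', b', c'⟩ | ⟨a', b', c'⟩ | ⟨a', b', c'⟩ <;>
    simp only [tor, A1, bT, Side.en_sd, T3.en_inj, T3.ends_iff, Side.dart_iff, T3.ty_en,
      Bool.false_eq_true]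
  · rw [Z.hx' e e' c a b, Z.hx' e e' c' a' b, Side.pair_iff]
    cases a <;> cases a' <;> simp [and_assoc]
  · simp
  · rw [Z.hy' e e' c b a, Z.hy' e e' c' b' a, Side.pair_iff]
    cases b <;> cases b' <;> simp [and_assoc]
  · rw [Z.hx' e e' c' a' b', Side.inj_iff]
    cases a' <;> simp
  · simp
  · simp
  · rw [Z.hy' e e' c' b' a', Side.inj_iff]
    cases b' <;> simp

theorem tor_inj (e : E₁) (e' : E₂) (x y : TV) : Z.tor e e' x = Z.tor e e' y ↔ x = y := by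
  rcases x with ⟨a, b, c⟩ | ⟨a, b, c⟩ | ⟨a, b, c⟩ | ⟨a, b, c⟩ <;>
    rcases y with ⟨a', b', c'⟩ | ⟨a', b', c'⟩ | ⟨a', b', c'⟩ | ⟨a', b', c'⟩ <;>
    simp only [tor, Mir.n.injEq, Mir.p.injEq, Mir.ch.injEq, Mir.cv.injEq, T3.en_inj,
      Side.dart_iff, reduceCtorEq] <;> simp
  · tauto
  · constructor
    · rintro ⟨h, rfl, rfl⟩; simpa using h
    · rintro ⟨rfl, rfl, rfl⟩; simp
  · constructor
    · rintro ⟨⟨rfl, rfl⟩, h⟩; simpa using h
    · rintro ⟨rfl, rfl, rfl⟩; simp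

theorem tor_ne_fl (e f : E₁) (e' f' : E₂) (x : TV) (k : Fin 8) : Z.tor e e' x ≠ .fl f f' k := by
  rcases x with x | x | x | x <;> simp [tor]

theorem fl_ne_tor (e f : E₁) (e' f' : E₂) (x : TV) (k : Fin 8) : .fl f f' k ≠ Z.tor e e' x :=
  (Z.tor_ne_fl e f e' f' x k).symm

theorem A1_fl_tor (e : E₁) (e' : E₂) (x : TV) (k : Fin 8) :
    Z.A1 (.fl e e' k) (Z.tor e e' x) ↔ fillTab (Z.tw e e') k x = true := by
  simp only [A1, tor_inj, tor_ne_fl, or_false, exists_eq_left']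

theorem A1_tor_fl (e f : E₁) (e' f' : E₂) (x : TV) (k : Fin 8) :
    ¬ Z.A1 (Z.tor e e' x) (.fl f f' k) := by
  rcases x with x | x | x | x <;> simp [tor, A1]

theorem linkC (e : E₁) (e' : E₂) : Z.bd.LinkOK (inr e) (inr e') := by
  let χ : UC → Tri (Mir V₁ E₁ V₂ E₂) (Dt E₁) (Dt E₂) := fun x => match x with
    | inl s => .a ⟨e, s⟩
    | inr (inl s) => .b ⟨e', s⟩
    | inr (inr (inl x)) => .w (Z.tor e e' x)
    | inr (inr (inr k)) => .w (.fl e e' k)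
  refine ⟨UC, inferInstance, _, χ, ?_, ?_, ?_, sphereC (Z.tw e e')⟩
  · rintro (x | x | x | x) (y | y | y | y) <;> simp [χ, tor_inj, tor_ne_fl, fl_ne_tor]
  · rintro (m | d | d)
    · simp only [χ, Sum.exists, Tri.w.injEq, reduceCtorEq, exists_false, false_or, tor, Prod.exists]
      cases m with
      | n d w =>
        simp only [BD.Pres, bd_S₁, bd_S₂, S₁, S₂, T3.inr_star, T3.inr_starm,
          dart_side Z.sH e (Z.T₂.en e' false), vert_end]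
        simp only [Mir.n.injEq, reduceCtorEq, exists_false, or_false, exists_and_right,
          exists_and_left]
      | p w d =>
        simp only [BD.Pres, bd_S₁, bd_S₂, S₁, S₂, T3.inr_star, T3.inr_starm,
          dart_side Z.sV e' (Z.T₁.en e false), vert_end]
        simp only [Mir.p.injEq, reduceCtorEq, exists_false, or_false, false_or, exists_and_right,
          exists_and_left]
      | ch w s d =>
        simp only [BD.Pres, bd_S₁, bd_S₂, S₁, S₂, T3.inr_starm,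
          dart_side Z.sV e' (Z.T₁.en e false), Set.mem_singleton_iff, inr.injEq]
        simp only [Mir.ch.injEq, reduceCtorEq, exists_false, or_false, false_or, exists_and_left]
        refine and_congr_right fun _ => exists_congr fun t => ⟨fun h => ⟨xor s (t && Z.xb e e' false),
          by simp, h⟩, fun ⟨_, _, h⟩ => h⟩
      | cv d w s =>
        simp only [BD.Pres, bd_S₁, bd_S₂, S₁, S₂, T3.inr_starm,
          dart_side Z.sH e (Z.T₂.en e' false), Set.mem_singleton_iff, inr.injEq]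
        simp only [Mir.cv.injEq, reduceCtorEq, exists_false, or_false, false_or, exists_and_left]
        exact ⟨fun ⟨⟨t, r, h⟩, h'⟩ => ⟨t, r, h, h', xor s (t && Z.yb e e' false), by simp⟩,
          fun ⟨t, r, h, h', _⟩ => ⟨⟨t, r, h⟩, h'⟩⟩
      | fl w w' k => simp [BD.Pres, bd_S₁, bd_S₂, S₁, S₂]
    · simp only [BD.Pres, bd_lo₁, bd_hi₁, reduceCtorEq, false_or, inr.injEq, dart_mid]
      simp only [χ, Sum.exists, Tri.a.injEq, reduceCtorEq, exists_false, or_false]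
    · simp only [BD.Pres, bd_lo₂, bd_hi₂, reduceCtorEq, false_or, inr.injEq, dart_mid]
      simp only [χ, Sum.exists, Tri.b.injEq, reduceCtorEq, exists_false, or_false, false_or]
  · rintro (x | x | x | x) (y | y | y | y) _
    · simp [χ, aC, BD.LA]
    · simp [χ, aC, BD.LA]
    · rcases y with y | y | y | y <;>
        simp [χ, aC, BD.LA, bd_lo₁, bd_hi₁, bd_S₁, S₁, tor, T3.en_inj, T3.ty_en, Side.en_sd, Side.ne']
    · simp [χ, aC, BD.LA, bd_lo₁, bd_hi₁, bd_S₁, S₁]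
    · simp [χ, aC, BD.LA]
    · simp [χ, aC, BD.LA]
    · rcases y with y | y | y | y <;>
        simp [χ, aC, BD.LA, bd_lo₂, bd_hi₂, bd_S₂, S₂, tor, T3.en_inj, T3.ty_en, Side.en_sd, Side.ne']
    · simp [χ, aC, BD.LA, bd_lo₂, bd_hi₂, bd_S₂, S₂]
    · rcases x with x | x | x | x <;>
        simp [χ, aC, BD.LA, bd_lo₁, bd_hi₁, bd_S₁, S₁, tor, T3.en_inj, T3.ty_en, Side.en_sd, Side.ne']
    · rcases x with x | x | x | x <;>
        simp [χ, aC, BD.LA, bd_lo₂, bd_hi₂, bd_S₂, S₂, tor, T3.en_inj, T3.ty_en, Side.en_sd, Side.ne']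
    · simp only [χ, aC, BD.LA, bd_adj, A1_tor, tw]
      rw [← bT_aT _ _ _ _ (Z.hol e e'), Bool.or_eq_true]
    · simp [χ, aC, BD.LA, bd_adj, A1_tor_fl, A1_fl_tor]
    · simp [χ, aC, BD.LA, bd_lo₁, bd_hi₁, bd_S₁, S₁]
    · simp [χ, aC, BD.LA, bd_lo₂, bd_hi₂, bd_S₂, S₂]
    · simp [χ, aC, BD.LA, bd_adj, A1_tor_fl, A1_fl_tor]
    · simp [χ, aC, BD.LA, bd_adj, A1, fl_ne_tor]

theorem linkOK : ∀ p q, Z.bd.LinkOK p q
  | inl u, inl v => Z.linkO u v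
  | inr e, inl v => Z.linkH e v
  | inl u, inr e => Z.linkV u e
  | inr e, inr e' => Z.linkC e e'

end TD

end Pool.Agent.Lib.MP_b03b3a_al
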