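import Mathlib
import Pool.Agent.Lib.MP_b03b3a_al.Build

set_option autoImplicit false

namespace Pool.Agent.Lib.MP_b03b3a_al

open Classical

namespace BD

variable {P₁ D₁ P₂ D₂ M Col : Type} (B : BD P₁ D₁ P₂ D₂ M Col)

theorem eq_of_chi (A : Finset M) : ∀ w w' : B.R.W, (∀ m ∈ A, ∀ n ∈ A, m ≠ n → B.R.adj m n) →
    (∀ r, (∀ m ∈ A, r ≠ w * B.R.s m * w⁻¹) → B.R.N w' r = B.R.N w r) →
    (∀ m ∈ A, B.R.chi (fun i => B.col i = B.col m) w' = B.R.chi (fun i => B.col i = B.col m) w) →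
    w' = w := by
  induction A using Finset.induction_on with
  | empty => intro w w' _ h _; exact B.R.N_inj fun r => h r (by simp)
  | insert m A hm ih =>
    intro w w' h1 h2 h3
    have h1' : ∀ a ∈ A, ∀ b ∈ A, a ≠ b → B.R.adj a b := fun a ha b hb =>
      h1 a (Finset.mem_insert_of_mem ha) b (Finset.mem_insert_of_mem hb)
    have hA : ∀ a ∈ A, B.R.adj m a := fun a ha =>
      h1 m (Finset.mem_insert_self _ _) a (Finset.mem_insert_of_mem ha) (by rintro rfl; exact hm ha)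
    by_cases e : B.R.N w' (w * B.R.s m * w⁻¹) = B.R.N w (w * B.R.s m * w⁻¹)
    · refine ih w w' h1' (fun r hr => ?_) fun a ha => h3 a (Finset.mem_insert_of_mem ha)
      by_cases e' : r = w * B.R.s m * w⁻¹
      · rw [e', e]
      · refine h2 r fun a ha => ?_
        rcases Finset.mem_insert.mp ha with rfl | ha
        · exact e'
        · exact hr a ha
    · exfalso
      have := ih (w * B.R.s m) w' h1' (fun r hr => ?_) fun a ha => ?_
      · have h4 := h3 m (Finset.mem_insert_self _ _)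
        rw [this, map_mul, B.R.chi_s, if_pos rfl, mul_eq_left] at h4
        exact absurd h4 (by decide)
      · rw [B.R.N_mul_s]
        by_cases e' : r = w * B.R.s m * w⁻¹
        · rw [e']
          revert e
          cases B.R.N w' (w * B.R.s m * w⁻¹) <;> cases B.R.N w (w * B.R.s m * w⁻¹) <;> simp
        · rw [h2 r fun a ha => ?_]
          · simp [e']
          · rcases Finset.mem_insert.mp ha with rfl | ha
            · exact e'
            · rw [← B.conj_adj w (Or.inr (hA a ha))]; exact hr a ha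
      · rw [map_mul, B.R.chi_s, if_neg (B.col_adj _ _ (hA a ha)), mul_one]
        exact h3 a (Finset.mem_insert_of_mem ha)

variable (Γ : Type) [Group Γ] [MulAction Γ P₁] [MulAction Γ D₁] [MulAction Γ P₂] [MulAction Γ D₂]
  [MulAction Γ M]

/-- The group `Γ` preserves the data and acts freely and cocompactly. -/
structure Eqv : Prop where
  lo₁ : ∀ (γ : Γ) d, B.T₁.lo (γ • d) = γ • B.T₁.lo d
  hi₁ : ∀ (γ : Γ) d, B.T₁.hi (γ • d) = γ • B.T₁.hi d
  lo₂ : ∀ (γ : Γ) d, B.T₂.lo (γ • d) = γ • B.T₂.lo d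
  hi₂ : ∀ (γ : Γ) d, B.T₂.hi (γ • d) = γ • B.T₂.hi d
  adj : ∀ (γ : Γ) a b, B.R.adj a b → B.R.adj (γ • a) (γ • b)
  S₁ : ∀ (γ : Γ) m p, p ∈ B.S₁ m → γ • p ∈ B.S₁ (γ • m)
  S₂ : ∀ (γ : Γ) m q, q ∈ B.S₂ m → γ • q ∈ B.S₂ (γ • m)
  c₁ : ∀ (γ : Γ) m, B.c₁ (γ • m) = γ • B.c₁ m
  col : ∀ (γ : Γ) m, B.col (γ • m) = B.col m
  free : ∀ (γ : Γ) (p : P₁) (q : P₂), γ • p = p → γ • q = q → γ = 1
  cofin : ∃ Y : Set (P₁ × P₂), Y.Finite ∧ ∀ p q, ∃ γ : Γ, (γ • p, γ • q) ∈ Y

namespace Eqv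

variable {B Γ} (E : B.Eqv Γ)

/-- The action of `Γ` on the Coxeter group. -/
noncomputable abbrev au : Γ →* MulAut B.R.W := B.R.aut E.adj

/-- Colour parities. -/
noncomputable def par : (B.R.W ⋊[E.au] Γ) →* (Col → ℤˣ) where
  toFun g c := B.R.chi (fun i => B.col i = c) g.left
  map_one' := by funext c; simp
  map_mul' g g' := by
    funext c
    simp only [SemidirectProduct.mul_left, map_mul, Pi.mul_apply]
    rw [B.R.chi_aut E.adj _ _ fun i => by rw [E.col]]

/-- The fundamental group of the manifold. -/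
def G : Type := ↥E.par.ker

noncomputable instance instGroupG : Group E.G := Subgroup.toGroup E.par.ker

/-- The Coxeter part. -/
def u (g : E.G) : B.R.W := g.1.left

/-- The lattice part. -/
def γ (g : E.G) : Γ := g.1.right

theorem u_mul (g g' : E.G) : E.u (g * g') = E.u g * E.au (E.γ g) (E.u g') := rfl
theorem γ_mul (g g' : E.G) : E.γ (g * g') = E.γ g * E.γ g' := rfl
theorem u_one : E.u 1 = 1 := rfl
theorem γ_one : E.γ 1 = 1 := rfl
theorem γ_inv (g : E.G) : E.γ g⁻¹ = (E.γ g)⁻¹ := rfl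
theorem u_inv (g : E.G) : E.u g⁻¹ = E.au (E.γ g)⁻¹ (E.u g)⁻¹ := rfl

theorem ext_G {g g' : E.G} (h1 : E.u g = E.u g') (h2 : E.γ g = E.γ g') : g = g' :=
  Subtype.ext (SemidirectProduct.ext h1 h2)

theorem chi_u (g : E.G) (c : Col) : B.R.chi (fun i => B.col i = c) (E.u g) = 1 :=
  congrFun (MonoidHom.mem_ker.mp g.2) c

/-- The lattice as a subgroup. -/
noncomputable def inc : Γ →* E.G :=
  (SemidirectProduct.inr : Γ →* B.R.W ⋊[E.au] Γ).codRestrict E.par.ker fun x => by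
    rw [MonoidHom.mem_ker]; funext c; simp [par]

theorem u_inc (x : Γ) : E.u (E.inc x) = 1 := rfl
theorem γ_inc (x : Γ) : E.γ (E.inc x) = x := rfl

/-- The action on coordinates. -/
noncomputable def smulH (g : E.G) : B.H → B.H
  | .w r => .w (E.u g * E.au (E.γ g) r * (E.u g)⁻¹)
  | .a d => .a (E.γ g • d)
  | .b d => .b (E.γ g • d)

noncomputable instance instActH : MulAction E.G B.H where
  smul := E.smulH
  one_smul h := by
    show E.smulH 1 h = h
    cases h <;> simp [smulH, u_one, γ_one]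
  mul_smul g g' h := by
    show E.smulH (g * g') h = E.smulH g (E.smulH g' h)
    cases h <;> simp [smulH, u_mul, γ_mul, mul_smul, mul_assoc]

theorem smul_w (g : E.G) (r : B.R.W) :
    g • (Tri.w r : B.H) = .w (E.u g * E.au (E.γ g) r * (E.u g)⁻¹) := rfl
theorem smul_a (g : E.G) (d : D₁) : g • (Tri.a d : B.H) = .a (E.γ g • d) := rfl
theorem smul_b (g : E.G) (d : D₂) : g • (Tri.b d : B.H) = .b (E.γ g • d) := rfl

/-- The flipped coordinates. -/
noncomputable def fl (g : E.G) : B.H → Bool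
  | .w r => B.R.N (E.u g) r
  | _ => false

theorem N_inv_smul (g : E.G) (w r : B.R.W) :
    B.R.N w (E.u g⁻¹ * E.au (E.γ g⁻¹) r * (E.u g⁻¹)⁻¹) =
      B.R.N (E.au (E.γ g) w) ((E.u g)⁻¹ * r * E.u g) := by
  rw [← B.R.N_aut E.adj (E.γ g)]
  simp [u_inv, γ_inv]

theorem vx_smul (g : E.G) (w : B.R.W) (p : P₁) (q : P₂) :
    (fun h => xor (E.fl g h) (B.vx w p q (g⁻¹ • h))) =
      B.vx (E.u g * E.au (E.γ g) w) (E.γ g • p) (E.γ g • q) := by
  funext h
  cases h with
  | w r => simp only [smul_w, fl, vx, N_inv_smul, RG.N_mul]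
  | a d =>
    simp only [smul_a, fl, vx, Bool.false_xor, γ_inv]
    rw [← B.T₁.co_smul (E.γ g) (E.lo₁ _) (E.hi₁ _), smul_inv_smul]
  | b d =>
    simp only [smul_b, fl, vx, Bool.false_xor, γ_inv]
    rw [← B.T₂.co_smul (E.γ g) (E.lo₂ _) (E.hi₂ _), smul_inv_smul]

/-- The action on directions. -/
def lsm (x : Γ) : Tri M D₁ D₂ → Tri M D₁ D₂
  | .w m => .w (x • m)
  | .a d => .a (x • d)
  | .b d => .b (x • d)

theorem dir_smul (g : E.G) (w : B.R.W) (l : Tri M D₁ D₂) :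
    g • B.dir w l = B.dir (E.u g * E.au (E.γ g) w) (lsm (E.γ g) l) := by
  cases l with
  | w m => simp [dir, smul_w, lsm, RG.aut_s, mul_assoc]
  | a d => rfl
  | b d => rfl

include E in
theorem clq_smul (x : Γ) {p : P₁} {q : P₂} {Q : Finset (Tri M D₁ D₂)} (h : B.Clq p q Q) :
    B.Clq (x • p) (x • q) (Q.image (lsm x)) := by
  refine ⟨fun k hk => ?_, fun k hk k' hk' hne => ?_⟩
  · obtain ⟨l, hl, rfl⟩ := Finset.mem_image.mp hk
    have := h.1 l hl
    cases l with
    | w m => exact ⟨E.S₁ x _ _ this.1, E.S₂ x _ _ this.2⟩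
    | a d => simpa [lsm, Pres, E.lo₁, E.hi₁] using this
    | b d => simpa [lsm, Pres, E.lo₂, E.hi₂] using this
  · obtain ⟨l, hl, rfl⟩ := Finset.mem_image.mp hk
    obtain ⟨l', hl', rfl⟩ := Finset.mem_image.mp hk'
    have := h.2 l hl l' hl' fun e => hne (congrArg _ e)
    cases l <;> cases l' <;> simp only [lsm, LA, E.lo₁, E.hi₁, E.lo₂, E.hi₂] at this ⊢
    · exact E.adj x _ _ this
    · exact ⟨E.S₁ x _ _ this.1, E.S₁ x _ _ this.2⟩
    · exact ⟨E.S₂ x _ _ this.1, E.S₂ x _ _ this.2⟩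
    · exact ⟨E.S₁ x _ _ this.1, E.S₁ x _ _ this.2⟩
    · exact ⟨E.S₂ x _ _ this.1, E.S₂ x _ _ this.2⟩

variable [Fintype Col]

/-- The cubical action. -/
noncomputable def cact : CAct B.cc E.G where
  fl := E.fl
  fl_one h := by cases h <;> simp [fl, u_one, RG.N_one]
  fl_mul g g' h := by
    cases h with
    | w r => simp only [smul_w, fl, N_inv_smul, u_mul, RG.N_mul]
    | a d => rfl
    | b d => rfl
  inv := by
    rintro g v D ⟨w, p, q, Q, hQ, e⟩
    obtain ⟨rfl, rfl⟩ := Prod.mk.inj e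
    refine ⟨E.u g * E.au (E.γ g) w, _, _, _, E.clq_smul (E.γ g) hQ, ?_⟩
    rw [vx_smul, Finset.image_image, Finset.image_image]
    congr 2
    funext l
    exact E.dir_smul g w l

noncomputable instance instActX : MulAction E.G B.cc.X := E.cact.mulAction

theorem smul_val (g : E.G) (x : B.cc.X) : (g • x).1 = E.cact.actP g x.1 := rfl

theorem actC_vx (g : E.G) (w : B.R.W) (p : P₁) (q : P₂) (D : Finset B.H) :
    (E.cact.actC g (B.vx w p q, D)).1 = B.vx (E.u g * E.au (E.γ g) w) (E.γ g • p) (E.γ g • q) :=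
  E.vx_smul g w p q

theorem act_free (g : E.G) (x : B.cc.X) (hx : g • x = x) : g = 1 := by
  obtain ⟨c, ⟨w, p, q, Q, hQ, rfl⟩, h2, h3⟩ := B.cc.exists_carrier x
  have hxc := CC.mem_carrier h2 h3 x.1 (B.cc.bounds x) fun _ _ => rfl
  have hx' : E.cact.actP g x.1 = x.1 := congrArg Subtype.val hx
  have hxc' := (E.cact.actP_mem_iff g _ x.1).2 hxc
  rw [hx'] at hxc'
  have hD : ∀ h, h ∈ Q.image (B.dir w) ↔ g⁻¹ • h ∈ Q.image (B.dir w) := by
    intro h
    rw [h2 h, h2 (g⁻¹ • h), ← congrFun hx' h, CAct.actP]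
    split_ifs
    · constructor <;> rintro ⟨a, b⟩ <;> constructor <;> intro e <;>
        first | exact a (by linarith) | exact b (by linarith)
    · rfl
  have hv : ∀ h, h ∉ Q.image (B.dir w) →
      B.vx (E.u g * E.au (E.γ g) w) (E.γ g • p) (E.γ g • q) h = B.vx w p q h := by
    intro h hh
    have a := (hxc h).2 hh
    have b := (hxc' h).2 (by
      show h ∉ (Q.image (B.dir w)).image _
      rw [CAct.mem_image_smul, ← hD]; exact hh)
    rw [actC_vx, a] at b
    rcases Bool.eq_false_or_eq_true (B.vx w p q h) with e1 | e1 <;>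
      rcases Bool.eq_false_or_eq_true
        (B.vx (E.u g * E.au (E.γ g) w) (E.γ g • p) (E.γ g • q) h) with e2 | e2 <;>
      simp [e1, e2] at b ⊢
  have hQm : ∀ k, B.dir w k ∈ Q.image (B.dir w) → k ∈ Q := by
    intro k hk
    obtain ⟨k', h3, e⟩ := Finset.mem_image.mp hk
    rwa [← B.dir_inj w e]
  have hp : ∃ p₀ : P₁, E.γ g • p₀ = p₀ := by
    by_cases h : ∃ d, Tri.a d ∈ Q
    · obtain ⟨d, hd⟩ := h
      have h4 : Tri.a (E.γ g • d) ∈ Q := by
        apply hQm
        rw [hD, show B.dir w (Tri.a (E.γ g • d)) = g • B.dir w (Tri.a d) from rfl, inv_smul_smul]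
        exact Finset.mem_image_of_mem _ hd
      have h5 : E.γ g • d = d := by
        by_contra e
        exact hQ.2 _ h4 _ hd (by simpa using e)
      exact ⟨B.T₁.lo d, by rw [← E.lo₁, h5]⟩
    · exact ⟨p, B.T₁.co_inj (funext fun d => hv (.a d) fun h' => h ⟨d, hQm (.a d) h'⟩)⟩
  have hq : ∃ q₀ : P₂, E.γ g • q₀ = q₀ := by
    by_cases h : ∃ d, Tri.b d ∈ Q
    · obtain ⟨d, hd⟩ := h
      have h4 : Tri.b (E.γ g • d) ∈ Q := by
        apply hQm
        rw [hD, show B.dir w (Tri.b (E.γ g • d)) = g • B.dir w (Tri.b d) from rfl, inv_smul_smul]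
        exact Finset.mem_image_of_mem _ hd
      have h5 : E.γ g • d = d := by
        by_contra e
        exact hQ.2 _ h4 _ hd (by simpa using e)
      exact ⟨B.T₂.lo d, by rw [← E.lo₂, h5]⟩
    · exact ⟨q, B.T₂.co_inj (funext fun d => hv (.b d) fun h' => h ⟨d, hQm (.b d) h'⟩)⟩
  obtain ⟨p₀, hp⟩ := hp
  obtain ⟨q₀, hq⟩ := hq
  have hγ := E.free _ _ _ hp hq
  refine E.ext_G ?_ hγ
  have := B.eq_of_chi (Q.preimage Tri.w fun _ _ _ _ h => Tri.w.inj h) w (E.u g * w)
    (fun m hm n hn hne => hQ.2 _ (Finset.mem_preimage.mp hm) _ (Finset.mem_preimage.mp hn)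
      (by simpa using hne)) (fun r hr => ?_) fun m _ => by rw [map_mul, chi_u, one_mul]
  · simpa [u_one] using this
  · have := hv (.w r) fun h => ?_
    · simpa [hγ, vx] using this
    · obtain ⟨l, hl, e⟩ := Finset.mem_image.mp h
      cases l with
      | w m => exact hr m (Finset.mem_preimage.mpr hl) (Tri.w.inj e).symm
      | a d => simp [dir] at e
      | b d => simp [dir] at e

theorem freeCocompact (hl : ∀ p q, B.LinkOK p q) :
    FreeCocompactCubical (X := B.cc.X) B.cc.K (fun x => x.1) E.G := by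
  refine ⟨E.cact.dist_act, fun g c hc => ⟨_, E.cact.actC_mem g hc, E.cact.image_cube g c⟩,
    fun x => (E.cact.discrete x).imp fun _ h => ⟨h.1, fun g hg => E.act_free g x (h.2 g hg)⟩, ?_⟩
  obtain ⟨Y, hY, hY'⟩ := E.cofin
  let pa : B.R.W → Col → ℤˣ := fun w c => B.R.chi (fun i => B.col i = c) w
  let rep : (Col → ℤˣ) → B.R.W := fun f => if h : ∃ w, pa w = f then h.choose else 1
  have hrep : ∀ w, pa (rep (pa w)) = pa w := by
    intro w
    have h : ∃ w', pa w' = pa w := ⟨w, rfl⟩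
    simp only [rep, dif_pos h]
    exact h.choose_spec
  refine ⟨⋃ f, ⋃ y ∈ Y, {c ∈ B.K | c.1 = B.vx (rep f) y.1 y.2}, ?_, ?_, fun x => ?_⟩
  · intro c hc
    simp only [Set.mem_iUnion] at hc
    obtain ⟨_, _, _, hc, _⟩ := hc
    exact hc
  · refine Set.finite_iUnion fun f => hY.biUnion fun y _ => ?_
    obtain ⟨U, _, adj, χ, _, h2, _, _⟩ := hl y.1 y.2
    refine (((Finset.univ.image χ).powerset.image fun Q =>
      (B.vx (rep f) y.1 y.2, Q.image (B.dir (rep f)))).finite_toSet).subset ?_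
    rintro ⟨v, D⟩ ⟨hc, e⟩
    obtain rfl : v = _ := e
    obtain ⟨Q, hQ, rfl⟩ := B.mem_K.1 hc
    refine Finset.mem_coe.mpr (Finset.mem_image.mpr ⟨Q, Finset.mem_powerset.mpr fun l hl => ?_, rfl⟩)
    obtain ⟨u, rfl⟩ := (h2 l).1 (hQ.1 l hl)
    exact Finset.mem_image_of_mem _ (Finset.mem_univ _)
  · obtain ⟨c, hc, hx, _⟩ := x.2
    obtain ⟨w, p, q, Q, hQ, rfl⟩ := id hc
    obtain ⟨γ, hγ⟩ := hY' p q
    let g : E.G := ⟨⟨rep (pa (E.au γ w)) * (E.au γ w)⁻¹, γ⟩, by
      rw [MonoidHom.mem_ker]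
      funext c
      have := congrFun (hrep (E.au γ w)) c
      simp only [pa] at this
      simp only [par, MonoidHom.coe_mk, OneHom.coe_mk, map_mul, map_inv, Pi.one_apply, pa]
      rw [this, mul_inv_cancel]⟩
    refine ⟨g, _, ?_, (E.cact.actP_mem_iff g _ x.1).2 hx⟩
    simp only [Set.mem_iUnion]
    refine ⟨pa (E.au γ w), _, hγ, E.cact.actC_mem g hc, ?_⟩
    rw [actC_vx]
    simp [g, u, Eqv.γ]

omit [Fintype Col] in
theorem no_refl {g : Γ} (hg : ∀ n, 1 ≤ n → ∀ p : P₁, g ^ n • p ≠ p) (T : Set B.R.W)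
    (hT : T.Finite) (h1 : ∀ r ∈ T, ∃ u i, r = u * B.R.s i * u⁻¹) (h2 : ∀ r ∈ T, E.au g r ∈ T)
    (r : B.R.W) : r ∉ T := by
  intro hr
  have h3 : ∀ n : ℕ, E.au (g ^ n) r ∈ T := by
    intro n
    induction n with
    | zero => simpa using hr
    | succ n ih => rw [pow_succ', map_mul]; exact h2 _ ih
  obtain ⟨a, b, hab, e⟩ := Set.Finite.exists_lt_map_eq_of_forall_mem h3 hT
  obtain ⟨n, rfl⟩ := Nat.exists_eq_add_of_lt hab
  rw [add_assoc, pow_add, map_mul, MulAut.mul_apply, EmbeddingLike.apply_eq_iff_eq] at e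
  obtain ⟨u, i, rfl⟩ := h1 r hr
  rw [map_mul, map_mul, map_inv, RG.aut_s] at e
  have := B.R.conj_inj e
  exact hg (n + 1) (by omega) (B.c₁ i) (by rw [← E.c₁, ← this])

omit [Fintype Col] in
theorem sc_cyclic {g : Γ} (hg : ∀ n, 1 ≤ n → ∀ p : P₁, g ^ n • p ≠ p)
    (h : IsInfiniteCyclic (stableCentraliser g)) :
    IsInfiniteCyclic (stableCentraliser (E.inc g)) := by
  obtain ⟨k, hk, h⟩ := h
  have hinj : Function.Injective E.inc := fun x y e => congrArg E.γ e
  refine ⟨E.inc k, fun e => hk (hinj.isOfFinOrder_iff.mp e), ?_⟩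
  ext x
  constructor
  · rintro ⟨n, hn, e⟩
    rw [mul_inv_eq_iff_eq_mul, ← map_pow] at e
    have e1 := congrArg E.u e
    have e2 := congrArg E.γ e
    simp only [u_mul, γ_mul, u_inc, γ_inc, map_one, mul_one, one_mul] at e1 e2
    have hu : E.u x = 1 := by
      apply B.R.eq_one_of_N
      intro r
      obtain ⟨S, h1, h2⟩ := B.R.N_supp (E.u x)
      have hS : ∀ r, B.R.N (E.u x) r = true → r ∈ S := by
        intro r hr
        by_contra e
        rw [h2 r e] at hr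
        exact absurd hr (by simp)
      have := E.no_refl (g := g ^ n) (fun m hm p => by
          rw [← pow_mul]; exact hg _ (Nat.mul_pos hn hm) p) {r | B.R.N (E.u x) r = true}
        (S.finite_toSet.subset hS) (fun r hr => h1 r (hS r hr)) (fun r hr => by
          show B.R.N (E.u x) _ = true
          rw [e1, B.R.N_aut]; exact hr) r
      simpa using this
    have hγ : E.γ x ∈ stableCentraliser g := ⟨n, hn, by rw [e2]; group⟩
    rw [h] at hγ
    obtain ⟨z, hz⟩ := hγ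
    exact ⟨z, E.ext_G (by simp only [← map_zpow, u_inc, hu]) (by simp only [← map_zpow, γ_inc]; exact hz)⟩
  · rintro ⟨z, rfl⟩
    have : k ^ z ∈ stableCentraliser g := by rw [h]; exact ⟨z, rfl⟩
    obtain ⟨n, hn, e⟩ := this
    exact ⟨n, hn, by simpa only [map_mul, map_inv, map_pow, map_zpow] using congrArg E.inc e⟩

end Eqv

end BD

end Pool.Agent.Lib.MP_b03b3a_al
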