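import Mathlib
import Pool.Agent.Lib.MP_b03b3a_al.Group

set_option autoImplicit false

namespace Pool.Agent.Lib.MP_b03b3a_al

open Classical

theorem mink {a a' b b' c e : ℝ} (hc : 0 ≤ c) (he : 0 ≤ e) (h1 : c ≤ a + a') (h2 : e ≤ b + b') :
    Real.sqrt (c ^ 2 + e ^ 2) ≤ Real.sqrt (a ^ 2 + b ^ 2) + Real.sqrt (a' ^ 2 + b' ^ 2) := by
  have := norm_add_le (⟨a, b⟩ : ℂ) ⟨a', b'⟩
  simp only [Complex.norm_eq_sqrt_sq_add_sq, Complex.add_re, Complex.add_im] at this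
  refine le_trans (Real.sqrt_le_sqrt ?_) this
  nlinarith

theorem two_le_eucl {H : Type} (x y : H → ℝ) (hS : ∃ S : Finset H, ∀ h, h ∉ S → x h = y h)
    {h h' : H} (hne : h ≠ h') :
    Real.sqrt (|x h - y h| ^ 2 + |x h' - y h'| ^ 2) ≤ eucl x y := by
  obtain ⟨S, hS⟩ := hS
  rw [eucl_eq_sum x y (S ∪ {h, h'}) fun k hk => hS k fun e => hk (Finset.mem_union_left _ e)]
  apply Real.sqrt_le_sqrt
  rw [sq_abs, sq_abs, ← Finset.sum_pair (f := fun k => (x k - y k) ^ 2) hne]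
  exact Finset.sum_le_sum_of_subset_of_nonneg Finset.subset_union_right fun _ _ _ => sq_nonneg _

theorem le_of_mul_le {a b C : ℝ} (h : ∀ n : ℕ, n * a ≤ C + n * b) : a ≤ b := by
  by_contra hab
  push Not at hab
  obtain ⟨n, hn⟩ := exists_nat_gt (C / (a - b))
  rw [div_lt_iff₀ (sub_pos.mpr hab)] at hn
  have := h n
  nlinarith

theorem sum_sq_le_rho {D : Type} (x y : D → ℝ) (S : Finset D) (hS : ∀ d, d ∉ S → x d = y d) :
    ∑ d ∈ S, (x d - y d) ^ 2 ≤ rho x y ^ 2 := by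
  rw [rho_eq_sum x y S hS]
  simpa only [sq_abs] using Finset.sum_sq_le_sq_sum_of_nonneg (s := S) (f := fun d => |x d - y d|)
    fun _ _ => abs_nonneg _

theorem eucl_le_rho {A D₁ D₂ : Type} (x y : Tri A D₁ D₂ → ℝ) (h0 : ∀ r, x (.w r) = y (.w r))
    (h1 : ∃ S : Finset D₁, ∀ d, d ∉ S → x (.a d) = y (.a d))
    (h2 : ∃ S : Finset D₂, ∀ d, d ∉ S → x (.b d) = y (.b d)) :
    eucl x y ≤ Real.sqrt (rho (fun d => x (.a d)) (fun d => y (.a d)) ^ 2 +
      rho (fun d => x (.b d)) (fun d => y (.b d)) ^ 2) := by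
  obtain ⟨S, hS⟩ := h1
  obtain ⟨T, hT⟩ := h2
  rw [eucl_eq_sum x y (S.image Tri.a ∪ T.image Tri.b)]
  · apply Real.sqrt_le_sqrt
    rw [Finset.sum_union, Finset.sum_image fun _ _ _ _ h => Tri.a.inj h,
      Finset.sum_image fun _ _ _ _ h => Tri.b.inj h]
    · exact add_le_add (sum_sq_le_rho (fun d => x (.a d)) (fun d => y (.a d)) S hS)
        (sum_sq_le_rho (fun d => x (.b d)) (fun d => y (.b d)) T hT)
    · rw [Finset.disjoint_left]
      intro h ha hb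
      obtain ⟨_, _, rfl⟩ := Finset.mem_image.mp ha
      simp at hb
  · intro h hh
    cases h with
    | w r => exact h0 r
    | a d => exact hS d (by simpa using hh)
    | b d => exact hT d (by simpa using hh)

namespace BD

variable {P₁ D₁ P₂ D₂ M Col : Type} [Fintype Col] (B : BD P₁ D₁ P₂ D₂ M Col)

/-- Distance of the projections to the first tree. -/
noncomputable def r₁ (x y : B.cc.X) : ℝ := rho (fun d => x.1 (.a d)) (fun d => y.1 (.a d))

/-- Distance of the projections to the second tree. -/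
noncomputable def r₂ (x y : B.cc.X) : ℝ := rho (fun d => x.1 (.b d)) (fun d => y.1 (.b d))

theorem fin₁ (x y : B.cc.X) : ∃ S : Finset D₁, ∀ d, d ∉ S → x.1 (.a d) = y.1 (.a d) := by
  obtain ⟨S, hS⟩ := B.cc.finite_diff x y
  exact ⟨S.preimage Tri.a fun _ _ _ _ h => Tri.a.inj h, fun d hd => hS _ (by simpa using hd)⟩

theorem fin₂ (x y : B.cc.X) : ∃ S : Finset D₂, ∀ d, d ∉ S → x.1 (.b d) = y.1 (.b d) := by
  obtain ⟨S, hS⟩ := B.cc.finite_diff x y
  exact ⟨S.preimage Tri.b fun _ _ _ _ h => Tri.b.inj h, fun d hd => hS _ (by simpa using hd)⟩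

theorem r₁_tri (x y z : B.cc.X) : B.r₁ x z ≤ B.r₁ x y + B.r₁ y z :=
  rho_tri _ _ _ (B.fin₁ x y) (B.fin₁ y z)

theorem r₂_tri (x y z : B.cc.X) : B.r₂ x z ≤ B.r₂ x y + B.r₂ y z :=
  rho_tri _ _ _ (B.fin₂ x y) (B.fin₂ y z)

omit [Fintype Col] in
theorem mem_dir {w : B.R.W} {Q : Finset (Tri M D₁ D₂)} {k : Tri M D₁ D₂}
    (hk : B.dir w k ∈ Q.image (B.dir w)) : k ∈ Q := by
  obtain ⟨k', h3, e⟩ := Finset.mem_image.mp hk
  rwa [← B.dir_inj w e]

omit [Fintype Col] in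
theorem onE₁ {c : Cb B.H} (hc : c ∈ B.K) :
    ∃ d, ∀ x ∈ cube c, B.T₁.OnE d fun d => x (.a d) := by
  obtain ⟨w, p, q, Q, hQ, rfl⟩ := hc
  by_cases h : ∃ d, Tri.a d ∈ Q
  · obtain ⟨d, hd⟩ := h
    refine ⟨d, fun x hx => ⟨fun d' hd' => ?_, cube_bounds hx _⟩⟩
    show x (.a d') = _
    rw [(hx (.a d')).2 fun e => hQ.2 _ (B.mem_dir (k := .a d') e) _ hd (by simpa using hd')]
    rcases hQ.1 _ hd with rfl | rfl
    · rfl
    · simp only [vx, pt, B.T₁.co_other hd']; rfl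
  · obtain ⟨d, rfl⟩ := B.T₁.child p
    refine ⟨d, fun x hx => ⟨fun d' hd' => ?_, cube_bounds hx _⟩⟩
    show x (.a d') = _
    rw [(hx (.a d')).2 fun e => h ⟨d', B.mem_dir (k := .a d') e⟩]
    simp only [vx, pt, B.T₁.co_bot hd']

omit [Fintype Col] in
theorem onE₂ {c : Cb B.H} (hc : c ∈ B.K) :
    ∃ d, ∀ x ∈ cube c, B.T₂.OnE d fun d => x (.b d) := by
  obtain ⟨w, p, q, Q, hQ, rfl⟩ := hc
  by_cases h : ∃ d, Tri.b d ∈ Q
  · obtain ⟨d, hd⟩ := h
    refine ⟨d, fun x hx => ⟨fun d' hd' => ?_, cube_bounds hx _⟩⟩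
    show x (.b d') = _
    rw [(hx (.b d')).2 fun e => hQ.2 _ (B.mem_dir (k := .b d') e) _ hd (by simpa using hd')]
    rcases hQ.1 _ hd with rfl | rfl
    · rfl
    · simp only [vx, pt, B.T₂.co_other hd']; rfl
  · obtain ⟨d, rfl⟩ := B.T₂.child q
    refine ⟨d, fun x hx => ⟨fun d' hd' => ?_, cube_bounds hx _⟩⟩
    show x (.b d') = _
    rw [(hx (.b d')).2 fun e => h ⟨d', B.mem_dir (k := .b d') e⟩]
    simp only [vx, pt, B.T₂.co_bot hd']

theorem lower₁ (x y : B.cc.X) (h : B.H) (hh : ∀ d, h ≠ .a d) :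
    Real.sqrt (B.r₁ x y ^ 2 + |x.1 h - y.1 h| ^ 2) ≤ dist x y := by
  apply B.cc.phi_le_dist fun x y => Real.sqrt (B.r₁ x y ^ 2 + |x.1 h - y.1 h| ^ 2)
  · intro x; simp [r₁, rho_self]
  · intro x y z
    exact mink (rho_nonneg _ _) (abs_nonneg _) (B.r₁_tri x y z) (abs_sub_le _ _ _)
  · rintro x y ⟨c, hc, hx, hy⟩
    obtain ⟨d, hd⟩ := B.onE₁ hc
    rw [r₁, B.T₁.rho_onE (hd _ hx) (hd _ hy)]
    exact two_le_eucl _ _ (B.cc.finite_diff x y) (hh d).symm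

theorem lower₂ (x y : B.cc.X) : Real.sqrt (B.r₁ x y ^ 2 + B.r₂ x y ^ 2) ≤ dist x y := by
  apply B.cc.phi_le_dist fun x y => Real.sqrt (B.r₁ x y ^ 2 + B.r₂ x y ^ 2)
  · intro x; simp [r₁, r₂, rho_self]
  · intro x y z
    exact mink (rho_nonneg _ _) (rho_nonneg _ _) (B.r₁_tri x y z) (B.r₂_tri x y z)
  · rintro x y ⟨c, hc, hx, hy⟩
    obtain ⟨d, hd⟩ := B.onE₁ hc
    obtain ⟨e, he⟩ := B.onE₂ hc
    rw [r₁, B.T₁.rho_onE (hd _ hx) (hd _ hy), r₂, B.T₂.rho_onE (he _ hx) (he _ hy)]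
    exact two_le_eucl _ _ (B.cc.finite_diff x y) (by simp)

theorem r₁_le (x y : B.cc.X) : B.r₁ x y ≤ dist x y :=
  le_trans (Real.le_sqrt_of_sq_le (le_add_of_nonneg_right (sq_nonneg _))) (B.lower₂ x y)

/-- The point of a vertex. -/
noncomputable def vp (p : P₁) (q : P₂) : B.cc.X :=
  ⟨pt (B.vx 1 p q), (B.vx 1 p q, ∅), B.mem_K.2 ⟨∅, ⟨by simp, by simp⟩, by simp⟩,
    pt_mem fun _ _ => rfl, pt_mem fun _ _ => rfl⟩

theorem dist_vp (p : P₁) (q : P₂) : dist (B.vp B.T₁.base q) (B.vp p q) ≤ B.T₁.dp p := by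
  have h1 : ∀ d, dist (B.vp (B.T₁.lo d) q) (B.vp (B.T₁.hi d) q) ≤ 1 := by
    intro d
    have hm : pt (B.vx 1 (B.T₁.hi d) q) ∈ cube (B.vx 1 (B.T₁.lo d) q, {Tri.a d}) := by
      rw [← B.flip_a]; exact pt_mem (CC.flip_off _ _ (by simp))
    have h0 : pt (B.vx 1 (B.T₁.lo d) q) ∈ cube (B.vx 1 (B.T₁.lo d) q, {Tri.a d}) :=
      pt_mem fun _ _ => rfl
    refine (B.cc.dist_le_eucl ⟨_, B.single_mem 1 (l := .a d) (Or.inl rfl), h0, hm⟩).trans ?_
    show eucl (pt (B.vx 1 (B.T₁.lo d) q)) (pt (B.vx 1 (B.T₁.hi d) q)) ≤ 1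
    rw [eucl_eq_sum _ _ _ (eq_off_cube h0 hm)]
    simp [pt, vx, HT.co_lo, HT.co_hi]
  induction p using B.T₁.ind with
  | h0 => simp
  | h1 d ih =>
    rw [B.T₁.dp_top]
    push_cast
    refine (dist_triangle _ (B.vp (B.T₁.bot d) q) _).trans (add_le_add ih ?_)
    rcases B.T₁.ends d with e | e <;> rw [e.1, e.2]
    · exact h1 d
    · rw [dist_comm]; exact h1 d

/-- A point of the product of the trees. -/
noncomputable def prodFun (x : D₁ → ℝ) (y : D₂ → ℝ) : B.H → ℝ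
  | .w _ => 0
  | .a d => x d
  | .b d => y d

omit [Fintype Col] in
theorem prodFun_mem {x : D₁ → ℝ} {y : D₂ → ℝ} (hx : ∃ d, B.T₁.OnE d x) (hy : ∃ d, B.T₂.OnE d y) :
    Near B.K (B.prodFun x y) (B.prodFun x y) := by
  obtain ⟨d, hd⟩ := hx
  obtain ⟨e, he⟩ := hy
  have : B.prodFun x y ∈ cube (B.vx 1 (B.T₁.lo d) (B.T₂.lo e), {B.dir 1 (.a d), B.dir 1 (.b e)}) := by
    intro h
    cases h with
    | w r => simp [prodFun, dir, vx, RG.N_one]
    | a d' =>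
      simp only [prodFun, dir, vx, Finset.mem_insert, Finset.mem_singleton, Tri.a.injEq,
        reduceCtorEq, or_false]
      exact ⟨fun h => h ▸ hd.2, hd.1 d'⟩
    | b d' =>
      simp only [prodFun, dir, vx, Finset.mem_insert, Finset.mem_singleton, Tri.b.injEq,
        reduceCtorEq, false_or]
      exact ⟨fun h => h ▸ he.2, he.1 d'⟩
  exact ⟨_, B.pair_mem 1 (l := .a d) (l' := .b e) (Or.inl rfl) (Or.inl rfl) trivial, this, this⟩

theorem halfPlane (c : ℝ → B.cc.X) (h0 : ∀ t r, (c t).1 (.w r) = 0)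
    (h1 : ∀ s t, B.r₁ (c s) (c t) = |s - t|) (h2 : ∀ t d, (c t).1 (.b d) = (c 0).1 (.b d)) :
    BoundsHalfPlane c := by
  obtain ⟨d₀, hd₀⟩ : ∃ d, B.T₂.OnE d fun d => (c 0).1 (.b d) := by
    obtain ⟨k, hk, hx, _⟩ := (c 0).2
    obtain ⟨d, hd⟩ := B.onE₂ hk
    exact ⟨d, hd _ hx⟩
  obtain ⟨L, L0, L1, L2, L3⟩ := B.T₂.exists_ray hd₀
  have hc : ∀ t, ∃ d, B.T₁.OnE d fun d => (c t).1 (.a d) := by
    intro t
    obtain ⟨k, hk, hx, _⟩ := (c t).2
    obtain ⟨d, hd⟩ := B.onE₁ hk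
    exact ⟨d, hd _ hx⟩
  let F : ℂ → B.cc.X := fun z => ⟨B.prodFun (fun d => (c z.re).1 (.a d)) (L (max z.im 0)),
    B.prodFun_mem (hc _) (L1 _ (le_max_right _ _))⟩
  have F1 : ∀ z w, B.r₁ (F z) (F w) = |z.re - w.re| := fun z w => h1 _ _
  have F2 : ∀ z w, B.r₂ (F z) (F w) = |max z.im 0 - max w.im 0| :=
    fun z w => L3 _ _ (le_max_right _ _) (le_max_right _ _)
  have Fe : ∀ z w, eucl (F z).1 (F w).1 ≤ dist z w := by
    intro z w
    refine (eucl_le_rho (F z).1 (F w).1 (fun _ => rfl) (B.fin₁ _ _) (B.fin₂ _ _)).trans ?_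
    have a := F1 z w
    have b := F2 z w
    unfold r₁ at a
    unfold r₂ at b
    rw [a, b, Complex.dist_eq_re_im]
    apply Real.sqrt_le_sqrt
    have := abs_max_sub_max_le_abs z.im w.im 0
    rw [sq_abs, ← sq_abs (z.im - w.im)]
    have := pow_le_pow_left₀ (abs_nonneg _) this 2
    linarith
  refine ⟨F, fun z w hz hw => le_antisymm ?_ ?_, fun t => ?_⟩
  · have := B.cc.dist_le_of_eucl (fun s : ℝ => F (z + s * (w - z))) (dist z w) (fun s t => by
      refine (Fe _ _).trans (le_of_eq ?_)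
      rw [dist_add_left, dist_eq_norm, ← sub_mul, norm_mul, ← Complex.ofReal_sub,
        Complex.norm_real, dist_comm, dist_eq_norm, mul_comm, Real.norm_eq_abs]) 0 1 zero_le_one
    simpa using this
  · refine le_trans (le_of_eq ?_) (B.lower₂ _ _)
    rw [F1, F2, max_eq_left hz, max_eq_left hw, Complex.dist_eq_re_im, sq_abs, sq_abs]
  · apply Subtype.ext
    funext h
    cases h with
    | w r => exact (h0 t r).symm
    | a d => rfl
    | b d =>
      show L (max (t : ℂ).im 0) d = _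
      rw [Complex.ofReal_im, max_self, L0, h2]

namespace Eqv

variable {B} {Γ : Type} [Group Γ] [MulAction Γ P₁] [MulAction Γ D₁] [MulAction Γ P₂]
  [MulAction Γ D₂] [MulAction Γ M] (E : B.Eqv Γ)

theorem inc_a (g : Γ) (x : B.cc.X) (d : D₁) : (E.inc g • x).1 (.a d) = x.1 (.a (g⁻¹ • d)) := rfl

theorem inc_w (g : Γ) (x : B.cc.X) (r : B.R.W) :
    (E.inc g • x).1 (.w r) = x.1 (.w (E.au g⁻¹ r)) := by
  rw [smul_val, CAct.actP, ← map_inv, smul_w, u_inc, γ_inc]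
  simp [cact, fl, u_inc, RG.N_one]

theorem inc_vp (g : Γ) (p : P₁) (q : P₂) : E.inc g • B.vp p q = B.vp (g • p) (g • q) := by
  apply Subtype.ext
  have h1 : (B.vp p q).1 ∈ cube (B.vx 1 p q, ∅) := pt_mem fun _ _ => rfl
  have h2 := (E.cact.actP_mem_iff (E.inc g) _ _).2 h1
  funext h
  rw [smul_val, (h2 h).2 (by simp [CAct.actC]), actC_vx]
  simp [u_inc, γ_inc, vp, pt]

theorem r₁_inc (g : Γ) (x y : B.cc.X) : B.r₁ (E.inc g • x) (E.inc g • y) = B.r₁ x y :=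
  rho_smul g⁻¹ (fun d => x.1 (.a d)) (fun d => y.1 (.a d))

theorem transl {g : Γ} {l : ℕ} (hg : ∀ n : ℕ, B.T₁.dp (g ^ n • B.T₁.base) = n * l) (x : B.cc.X) :
    (l : ℝ) ≤ B.r₁ x (E.inc g • x) := by
  have h1 : ∀ n : ℕ, B.r₁ x (E.inc (g ^ n) • x) ≤ n * B.r₁ x (E.inc g • x) := by
    intro n
    induction n with
    | zero => simp [r₁, rho_self]
    | succ n ih =>
      refine (B.r₁_tri x (E.inc (g ^ n) • x) _).trans ?_
      rw [pow_succ, map_mul, mul_smul, r₁_inc]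
      push_cast
      linarith
  let x₀ := B.vp B.T₁.base B.T₂.base
  refine le_of_mul_le (C := 2 * B.r₁ x₀ x) fun n => ?_
  have h2 : B.r₁ x₀ (E.inc (g ^ n) • x₀) = n * l := by
    rw [inc_vp]
    have := B.T₁.rho_base (g ^ n • B.T₁.base)
    rw [hg] at this
    push_cast at this
    exact this
  have h3 := B.r₁_tri x₀ x (E.inc (g ^ n) • x₀)
  have h4 := B.r₁_tri x (E.inc (g ^ n) • x) (E.inc (g ^ n) • x₀)
  have h5 : B.r₁ x x₀ = B.r₁ x₀ x := rho_comm _ _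
  rw [r₁_inc] at h4
  linarith [h1 n]

theorem transl_pow {g : Γ} {l : ℕ} (hg : ∀ n : ℕ, B.T₁.dp (g ^ n • B.T₁.base) = n * l) (k : ℕ)
    (x : B.cc.X) : (k * l : ℝ) ≤ B.r₁ x (E.inc (g ^ k) • x) := by
  have := E.transl (g := g ^ k) (l := k * l) (fun n => by rw [← pow_mul, hg]; ring) x
  push_cast at this
  exact this

include E in
theorem no_fix {g : Γ} {l : ℕ} (hl : 0 < l) (hg : ∀ n : ℕ, B.T₁.dp (g ^ n • B.T₁.base) = n * l)
    (n : ℕ) (hn : 1 ≤ n) (p : P₁) : g ^ n • p ≠ p := by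
  intro e
  have := E.transl_pow hg n (B.vp p B.T₂.base)
  rw [inc_vp, e] at this
  have h2 : B.r₁ (B.vp p B.T₂.base) (B.vp p (g ^ n • B.T₂.base)) = 0 := rho_self _
  have h3 : (0 : ℝ) < n * l := by positivity
  linarith

theorem axis_halfPlane {g : Γ} {l : ℕ} (hl : 0 < l)
    (hg : ∀ n : ℕ, B.T₁.dp (g ^ n • B.T₁.base) = n * l) (hq : g • B.T₂.base = B.T₂.base)
    (c : ℝ → B.cc.X) (hc : IsAxis (E.inc g) c) : BoundsHalfPlane c := by
  obtain ⟨hi, m, hm, hc⟩ := hc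
  have hd : ∀ s t, dist (c s) (c t) = |s - t| := fun s t => hi.dist_eq s t
  have hn : ∀ (n : ℕ) t, E.inc (g ^ n) • c t = c (t + n * m) := by
    intro n
    induction n with
    | zero => intro t; simp
    | succ n ih => intro t; rw [pow_succ', map_mul, mul_smul, ih, hc]; push_cast; ring_nf
  have hqn : ∀ n : ℕ, g ^ n • B.T₂.base = B.T₂.base := by
    intro n
    induction n with
    | zero => simp
    | succ n ih => rw [pow_succ', mul_smul, ih, hq]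
  have hml : m ≤ l := by
    let x₀ := B.vp B.T₁.base B.T₂.base
    refine le_of_mul_le (C := 2 * dist (c 0) x₀) fun n => ?_
    have h1 := B.dist_vp (g ^ n • B.T₁.base) B.T₂.base
    have h2 : E.inc (g ^ n) • x₀ = B.vp (g ^ n • B.T₁.base) B.T₂.base := by rw [inc_vp, hqn]
    rw [← h2, hg] at h1
    push_cast at h1
    have h3 := dist_triangle4 (c 0) x₀ (E.inc (g ^ n) • x₀) (E.inc (g ^ n) • c 0)
    have h4 : dist (E.inc (g ^ n) • x₀) (E.inc (g ^ n) • c 0) = dist x₀ (c 0) :=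
      E.cact.dist_act _ _ _
    rw [h4, hn, hd, dist_comm x₀ (c 0), abs_of_nonpos (by simp; positivity)] at h3
    simp only [zero_add, zero_sub, neg_neg] at h3
    linarith
  have h1 : ∀ s t, s ≤ t → B.r₁ (c s) (c t) = t - s := by
    intro s t hst
    obtain ⟨n, hn'⟩ := exists_nat_ge ((t - s) / m)
    rw [div_le_iff₀ hm] at hn'
    have a := E.transl_pow hg n (c s)
    rw [hn] at a
    have b := B.r₁_tri (c s) (c t) (c (s + n * m))
    have e1 := B.r₁_le (c s) (c t)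
    have e2 := B.r₁_le (c t) (c (s + n * m))
    rw [hd, abs_of_nonpos (by linarith)] at e1 e2
    have : (n : ℝ) * m ≤ n * l := mul_le_mul_of_nonneg_left hml (Nat.cast_nonneg _)
    linarith
  have h1' : ∀ s t, B.r₁ (c s) (c t) = |s - t| := by
    intro s t
    rcases le_total s t with h | h
    · rw [h1 s t h, abs_of_nonpos (by linarith)]; ring
    · rw [show B.r₁ (c s) (c t) = B.r₁ (c t) (c s) from rho_comm _ _, h1 t s h,
        abs_of_nonneg (by linarith)]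
  have h2 : ∀ t h, (∀ d, h ≠ .a d) → (c t).1 h = (c 0).1 h := by
    intro t h hh
    have := B.lower₁ (c t) (c 0) h hh
    rw [hd, h1', Real.sqrt_le_left (abs_nonneg _)] at this
    have h3 : |(c t).1 h - (c 0).1 h| ^ 2 = 0 := le_antisymm (by linarith) (sq_nonneg _)
    simpa [sub_eq_zero] using h3
  refine B.halfPlane c (fun t r => ?_) h1' fun t d => h2 t _ (by simp)
  rw [h2 t _ (by simp)]
  obtain ⟨k, ⟨w, p, q, Q, hQ, rfl⟩, hx, _⟩ := (c 0).2
  obtain ⟨S, hS1, hS2⟩ := B.R.N_supp w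
  have hT : ∀ r, (c 0).1 (.w r) ≠ 0 → r ∈ S ∨ Tri.w r ∈ Q.image (B.dir w) := by
    intro r hr
    by_contra e
    rw [not_or] at e
    apply hr
    rw [(hx (.w r)).2 e.2]
    simp [vx, hS2 r e.1]
  have := E.no_refl (E.no_fix hl hg) {r | (c 0).1 (.w r) ≠ 0} ?_ ?_ ?_ r
  · simpa using this
  · refine (S ∪ (Q.image (B.dir w)).preimage Tri.w
      fun _ _ _ _ h => Tri.w.inj h).finite_toSet.subset fun r hr => ?_
    simpa using hT r hr
  · intro r hr
    rcases hT r hr with e | e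
    · exact hS1 r e
    · obtain ⟨k, _, e⟩ := Finset.mem_image.mp e
      cases k with
      | w i => exact ⟨w, i, (Tri.w.inj e).symm⟩
      | a d => simp [dir] at e
      | b d => simp [dir] at e
  · intro r hr
    show (c 0).1 (.w (E.au g r)) ≠ 0
    rw [← h2 (0 + m) _ (by simp), ← hc, inc_w]
    simpa using hr

end Eqv

end BD

end Pool.Agent.Lib.MP_b03b3a_al
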