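import Mathlib
import Pool.Agent.Lib.MP_b03b3a_al.Links
import Pool.Agent.Lib.MP_b03b3a_al.Rank

set_option autoImplicit false

namespace Pool.Agent.Lib.MP_b03b3a_al

open Sum

instance instActDt (Γ E : Type) [Group Γ] [MulAction Γ E] : MulAction Γ (Dt E) where
  smul g d := ⟨g • d.e, d.s⟩
  one_smul d := by ext <;> [exact one_smul Γ d.e; rfl]
  mul_smul g h d := by ext <;> [exact mul_smul g h d.e; rfl]

section

variable {Γ : Type} [Group Γ]

@[simp] theorem Dt.smul_e {E : Type} [MulAction Γ E] (g : Γ) (d : Dt E) : (g • d).e = g • d.e := rfl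
@[simp] theorem Dt.smul_s {E : Type} [MulAction Γ E] (g : Γ) (d : Dt E) : (g • d).s = d.s := rfl
theorem Dt.smul_mk {E : Type} [MulAction Γ E] (g : Γ) (e : E) (s : Bool) :
    g • (⟨e, s⟩ : Dt E) = ⟨g • e, s⟩ := rfl

variable {V₁ E₁ V₂ E₂ : Type} [MulAction Γ V₁] [MulAction Γ E₁] [MulAction Γ V₂] [MulAction Γ E₂]

/-- The action on mirrors. -/
def Mir.sm (g : Γ) : Mir V₁ E₁ V₂ E₂ → Mir V₁ E₁ V₂ E₂
  | .n d v => .n (g • d) (g • v)
  | .p u d => .p (g • u) (g • d)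
  | .ch e s d => .ch (g • e) s (g • d)
  | .cv d e s => .cv (g • d) (g • e) s
  | .fl e e' k => .fl (g • e) (g • e') k

instance instActMir : MulAction Γ (Mir V₁ E₁ V₂ E₂) where
  smul := Mir.sm
  one_smul m := by
    show Mir.sm 1 m = m
    cases m <;> simp [Mir.sm]
  mul_smul g h m := by
    show Mir.sm (g * h) m = Mir.sm g (Mir.sm h m)
    cases m <;> simp [Mir.sm, mul_smul]

theorem Mir.smul_def (g : Γ) (m : Mir V₁ E₁ V₂ E₂) : g • m = Mir.sm g m := rfl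

theorem T3.ty_smul {V E : Type} [MulAction Γ V] [MulAction Γ E] (T : T3 V E)
    (h : ∀ (g : Γ) e s, T.en (g • e) s = g • T.en e s) (g : Γ) (v : V) : T.ty (g • v) = T.ty v := by
  obtain ⟨f, _, hf⟩ := T.three v
  have := (hf _).2 ⟨0, rfl⟩
  conv_lhs => rw [← this, ← h, T.ty_en]

theorem T3.star_smul {V E : Type} [MulAction Γ V] [MulAction Γ E] (T : T3 V E)
    (h : ∀ (g : Γ) e s, T.en (g • e) s = g • T.en e s) (g : Γ) (v : V) (p : V ⊕ E)
    (hp : p ∈ T.star v) : g • p ∈ T.star (g • v) := by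
  rcases p with u | e
  · exact congrArg (g • ·) hp
  · show T.en (g • e) (T.ty (g • v)) = g • v
    rw [T.ty_smul h, h, hp]

theorem T3.starm_smul {V E : Type} [MulAction Γ V] [MulAction Γ E] (T : T3 V E)
    (h : ∀ (g : Γ) e s, T.en (g • e) s = g • T.en e s) (g : Γ) (d : Dt E) (p : V ⊕ E)
    (hp : p ∈ T.starm d) : g • p ∈ T.starm (g • d) := by
  rcases p with u | e
  · show g • u = T.en (g • d.e) d.s
    rw [h, hp]
  · show T.en (g • e) d.s = T.en (g • d.e) d.s ∧ g • e ≠ g • d.e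
    rw [h, h, hp.1]
    exact ⟨rfl, by simpa using hp.2⟩

theorem T3.star_finite {V E : Type} (T : T3 V E) (v : V) : (T.star v).Finite := by
  obtain ⟨f, _, hf⟩ := T.three v
  refine ((Set.finite_range fun i => (inr (f i) : V ⊕ E)).insert (inl v)).subset ?_
  rintro (u | e) h
  · exact Or.inl (congrArg _ h)
  · obtain ⟨i, rfl⟩ := (hf e).1 h
    exact Or.inr ⟨i, rfl⟩

theorem T3.exists_star {V E : Type} (T : T3 V E) (p : V ⊕ E) : ∃ v, p ∈ T.star v := by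
  rcases p with u | e
  · exact ⟨u, rfl⟩
  · exact ⟨T.en e false, by simp [T.ty_en]⟩

namespace TD

variable (Z : TD V₁ E₁ V₂ E₂) (Γ)

/-- The group preserves the trees and the matchings and acts freely and cocompactly. -/
structure TEq : Prop where
  en₁ : ∀ (g : Γ) e s, Z.T₁.en (g • e) s = g • Z.T₁.en e s
  en₂ : ∀ (g : Γ) e s, Z.T₂.en (g • e) s = g • Z.T₂.en e s
  sH : ∀ (g : Γ) e v s t, Z.sH.sd (g • e) (g • v) s t = g • Z.sH.sd e v s t
  sV : ∀ (g : Γ) e v s t, Z.sV.sd (g • e) (g • v) s t = g • Z.sV.sd e v s t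
  free : ∀ (g : Γ) (u : V₁) (v : V₂), g • u = u → g • v = v → g = 1
  cofin : ∃ Y : Set (V₁ × V₂), Y.Finite ∧ ∀ u v, ∃ g : Γ, (g • u, g • v) ∈ Y

variable {Z Γ} (h : Z.TEq Γ)
include h

theorem TEq.xb (g : Γ) (e : E₁) (e' : E₂) (t : Bool) : Z.xb (g • e) (g • e') t = Z.xb e e' t := by
  have a := Z.hx (g • e) (g • e') false t
  rw [h.en₂, h.en₂, h.sH, h.sH, ← Z.hx e e' false t, smul_left_cancel_iff] at a
  simpa using Z.sH.inj _ _ _ _ _ a

theorem TEq.yb (g : Γ) (e : E₁) (e' : E₂) (t : Bool) : Z.yb (g • e) (g • e') t = Z.yb e e' t := by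
  have a := Z.hy (g • e) (g • e') false t
  rw [h.en₁, h.en₁, h.sV, h.sV, ← Z.hy e e' false t, smul_left_cancel_iff] at a
  simpa using Z.sV.inj _ _ _ _ _ a

theorem TEq.tor (g : Γ) (e : E₁) (e' : E₂) (x : TV) :
    Z.tor (g • e) (g • e') x = Mir.sm g (Z.tor e e' x) := by
  rcases x with x | x | x | x <;>
    simp only [TD.tor, Mir.sm, h.en₁, h.en₂, h.sH, h.sV, h.xb, h.yb, Dt.smul_mk]

theorem TEq.A1 (g : Γ) {m m' : Mir V₁ E₁ V₂ E₂} (a : Z.A1 m m') :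
    Z.A1 (Mir.sm g m) (Mir.sm g m') := by
  cases m with
  | fl e e' k =>
    rcases a with ⟨x, rfl, a⟩ | rfl
    · exact Or.inl ⟨x, (h.tor g e e' x).symm, by simpa only [tw, h.xb] using a⟩
    · exact Or.inr rfl
  | n d v =>
    cases m' with
    | n d' v' =>
      rcases a with ⟨rfl, e, s, rfl, rfl⟩ | ⟨rfl, e, rfl, rfl⟩
      · exact Or.inl ⟨rfl, g • e, s, by simp only [h.sH, Dt.smul_mk, and_self]⟩
      · exact Or.inr ⟨rfl, g • e, by simp only [h.en₂, and_self]⟩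
    | p u d' => obtain ⟨rfl, rfl⟩ := a; exact ⟨(h.en₁ ..).symm, (h.en₂ ..).symm⟩
    | _ => exact a.elim
  | p u d =>
    cases m' with
    | p u' d' =>
      rcases a with ⟨rfl, e, s, rfl, rfl⟩ | ⟨rfl, e, rfl, rfl⟩
      · exact Or.inl ⟨rfl, g • e, s, by simp only [h.sV, Dt.smul_mk, and_self]⟩
      · exact Or.inr ⟨rfl, g • e, by simp only [h.en₁, and_self]⟩
    | _ => exact a.elim
  | ch e s d =>
    cases m' with
    | n d' v =>
      obtain ⟨rfl, a⟩ := a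
      exact ⟨(h.en₂ ..).symm, by rw [h.sH, Dt.smul_e, Dt.smul_s, ← a]⟩
    | p u d' =>
      obtain ⟨rfl, a⟩ := a
      exact ⟨rfl, by rw [Z.T₁.ty_smul h.en₁, h.en₁, a]⟩
    | _ => exact a.elim
  | cv d e s =>
    cases m' with
    | p u d' =>
      obtain ⟨rfl, a⟩ := a
      exact ⟨(h.en₁ ..).symm, by rw [h.sV, Dt.smul_e, Dt.smul_s, ← a]⟩
    | n d' v =>
      obtain ⟨rfl, a⟩ := a
      exact ⟨rfl, by rw [Z.T₂.ty_smul h.en₂, h.en₂, a]⟩
    | _ => exact a.elim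

theorem TEq.eqv : Z.bd.Eqv Γ where
  lo₁ g d := by rw [bd_lo₁, bd_lo₁, Dt.smul_e, Dt.smul_s, h.en₁]; rfl
  hi₁ g d := by rw [bd_hi₁, bd_hi₁]; rfl
  lo₂ g d := by rw [bd_lo₂, bd_lo₂, Dt.smul_e, Dt.smul_s, h.en₂]; rfl
  hi₂ g d := by rw [bd_hi₂, bd_hi₂]; rfl
  adj g a b e := e.imp (h.A1 g) (h.A1 g)
  S₁ g m p hp := by
    cases m
    · exact Z.T₁.starm_smul h.en₁ g _ p hp
    · exact Z.T₁.star_smul h.en₁ g _ p hp
    · exact congrArg (g • ·) hp
    · exact Z.T₁.starm_smul h.en₁ g _ p hp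
    · exact congrArg (g • ·) hp
  S₂ g m p hp := by
    cases m
    · exact Z.T₂.star_smul h.en₂ g _ p hp
    · exact Z.T₂.starm_smul h.en₂ g _ p hp
    · exact Z.T₂.starm_smul h.en₂ g _ p hp
    · exact congrArg (g • ·) hp
    · exact congrArg (g • ·) hp
  c₁ g m := by
    cases m
    · exact congrArg inl (h.en₁ ..)
    · rfl
    · rfl
    · exact congrArg inl (h.en₁ ..)
    · rfl
  col g m := by
    show Z.col (Mir.sm g m) = Z.col m
    cases m <;> simp [Mir.sm, TD.col, Z.T₁.ty_smul h.en₁, Z.T₂.ty_smul h.en₂]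
  free g p q hp hq := by
    have a : ∃ u : V₁, g • u = u := by
      rcases p with u | e
      · exact ⟨u, inl.inj hp⟩
      · exact ⟨Z.T₁.en e false, by rw [← h.en₁, show g • e = e from inr.inj hp]⟩
    have b : ∃ u : V₂, g • u = u := by
      rcases q with u | e
      · exact ⟨u, inl.inj hq⟩
      · exact ⟨Z.T₂.en e false, by rw [← h.en₂, show g • e = e from inr.inj hq]⟩
    obtain ⟨u, a⟩ := a
    obtain ⟨v, b⟩ := b
    exact h.free g u v a b
  cofin := by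
    obtain ⟨Y, hY, hY'⟩ := h.cofin
    refine ⟨⋃ y ∈ Y, Z.T₁.star y.1 ×ˢ Z.T₂.star y.2,
      hY.biUnion fun y _ => (Z.T₁.star_finite _).prod (Z.T₂.star_finite _), fun p q => ?_⟩
    obtain ⟨u, hu⟩ := Z.T₁.exists_star p
    obtain ⟨v, hv⟩ := Z.T₂.exists_star q
    obtain ⟨g, hg⟩ := hY' u v
    exact ⟨g, Set.mem_biUnion hg ⟨Z.T₁.star_smul h.en₁ g _ p hu, Z.T₂.star_smul h.en₂ g _ q hv⟩⟩

theorem TEq.main {g : Γ} {l : ℕ} (hl : 0 < l)
    (hg : ∀ n : ℕ, Z.T₁.ht.dp (g ^ n • Z.T₁.ht.base) = n * l) (hq : g • Z.T₂.ht.base = Z.T₂.ht.base)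
    (hc : IsInfiniteCyclic (stableCentraliser g)) :
    ∃ (H X G : Type) (_ : MetricSpace X) (_ : Group G) (_ : MulAction G X)
      (K : Set ((H → Bool) × Finset H)) (ι : X → H → ℝ) (g : G),
      FaceClosed K ∧ FlagLinks K ∧ Realizes K ι ∧ SimplyConnectedSpace X ∧
      Nonempty (ChartedSpace (EuclideanSpace ℝ (Fin 4)) X) ∧ FreeCocompactCubical K ι G ∧
      g ≠ 1 ∧ IsInfiniteCyclic (stableCentraliser g) ∧ ¬ RankOne X g := by
  have : Nonempty Z.bd.cc.X := ⟨Z.bd.vp Z.T₁.ht.base Z.T₂.ht.base⟩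
  choose φ hφ using Z.bd.manifold Z.linkOK
  refine ⟨Z.bd.H, Z.bd.cc.X, h.eqv.G, inferInstance, inferInstance, inferInstance, Z.bd.K,
    fun x => x.1, h.eqv.inc g, Z.bd.faceClosed, Z.bd.flagLinks, Z.bd.cc.realizes,
    Z.bd.cc.simplyConnected Z.bd.combSC,
    ⟨⟨Set.range φ, φ, hφ, fun x => ⟨x, rfl⟩⟩⟩, h.eqv.freeCocompact Z.linkOK, fun e => ?_,
    h.eqv.sc_cyclic (h.eqv.no_fix hl hg) hc, fun ⟨c, h1, h2⟩ => h2 (h.eqv.axis_halfPlane hl hg hq c h1)⟩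
  have e' : g = 1 := congrArg h.eqv.γ e
  exact h.eqv.no_fix hl hg 1 le_rfl Z.T₁.ht.base (by simp [e'])

end TD

end

end Pool.Agent.Lib.MP_b03b3a_al
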