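import Mathlib
import Pool.Agent.Lib.MP_b03b3a_al.Equiv

set_option autoImplicit false

namespace Pool.Agent.Lib.MP_b03b3a_al

open Classical Sum

/-- A length function on `G` that describes a three-regular tree `G / B`. -/
structure Half (G : Type) [Group G] (Γ : Subgroup G) where
  a : Fin 3 → G
  B : Subgroup G
  len : G → ℕ
  len_B : ∀ g, ∀ b ∈ B, len (g * b) = len g
  len_zero : ∀ g, len g = 0 → g ∈ B
  len_one : len 1 = 0
  step : ∀ g i, len (g * a i) = len g + 1 ∨ len (g * a i) + 1 = len g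
  down : ∀ g, len g ≠ 0 → ∃ i, len (g * a i) + 1 = len g
  uniq : ∀ g i j, len (g * a i) + 1 = len g → len (g * a j) + 1 = len g → i = j
  inv : ∀ i, ∃ j, (a i)⁻¹ = a j
  comm : ∀ b ∈ B, ∀ i, ∃ j, ∃ b' ∈ B, b * a i = a j * b'
  par : ∀ g ∈ Γ, ∀ x, len (g * x) % 2 = len x % 2

namespace Half

variable {G : Type} [Group G] {Γ : Subgroup G} (h : Half G Γ)

/-- The vertices. -/
def V : Type := G ⧸ h.B

/-- The vertex of a group element. -/
def vt (g : G) : h.V := (g : G ⧸ h.B)

theorem mk_eq {g g' : G} : h.vt g = h.vt g' ↔ g⁻¹ * g' ∈ h.B := QuotientGroup.eq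

theorem mk_surj (v : h.V) : ∃ g, h.vt g = v := QuotientGroup.mk_surjective v

/-- Depth of a vertex. -/
def dv (v : h.V) : ℕ := Quotient.liftOn' v h.len fun g g' e => by
  rw [← h.len_B g _ (QuotientGroup.leftRel_apply.mp e), mul_inv_cancel_left]

theorem dv_mk (g : G) : h.dv (h.vt g) = h.len g := rfl

/-- Type of a vertex. -/
def ty (v : h.V) : Bool := decide (h.dv v % 2 = 1)

theorem ty_step (g : G) (i : Fin 3) : h.ty (h.vt (g * h.a i)) = !h.ty (h.vt g) := by
  simp only [ty, dv_mk]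
  rcases h.step g i with e | e <;> rcases Nat.mod_two_eq_zero_or_one (h.len g) with e' | e' <;>
    simp [e'] <;> omega

/-- Adjacent vertices. -/
def Adj (v w : h.V) : Prop := ∃ g i, v = h.vt g ∧ w = h.vt (g * h.a i)

theorem adj_iff (g : G) (w : h.V) : h.Adj (h.vt g) w ↔ ∃ i, w = h.vt (g * h.a i) := by
  constructor
  · rintro ⟨g', i, e, rfl⟩
    obtain ⟨j, b, hb, e'⟩ := h.comm _ (h.mk_eq.1 e) i
    refine ⟨j, (h.mk_eq.2 ?_).symm⟩
    rw [mul_inv_rev, mul_assoc, ← mul_assoc g⁻¹, e']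
    simpa using hb
  · rintro ⟨i, rfl⟩
    exact ⟨g, i, rfl, rfl⟩

theorem Adj.symm {v w : h.V} (e : h.Adj v w) : h.Adj w v := by
  obtain ⟨g, i, rfl, rfl⟩ := e
  obtain ⟨j, hj⟩ := h.inv i
  exact ⟨g * h.a i, j, rfl, by rw [← hj, mul_inv_cancel_right]⟩

theorem nb_inj {g : G} {i j : Fin 3} (e : h.vt (g * h.a i) = h.vt (g * h.a j)) : i = j := by
  have h1 := h.mk_eq.1 e
  rw [mul_inv_rev, mul_assoc, inv_mul_cancel_left] at h1
  have h2 := h.len_B 1 _ h1
  rw [one_mul, h.len_one] at h2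
  obtain ⟨k, hk⟩ := h.inv i
  have h3 : h.len (h.a i)⁻¹ = 1 := by
    have := h.step 1 k
    rw [one_mul, h.len_one, ← hk] at this
    omega
  exact h.uniq (h.a i)⁻¹ i j (by rw [inv_mul_cancel, h.len_one, h3]) (by rw [h2, h3])

/-- The edges. -/
def E : Type := {x : h.V × h.V // h.Adj x.1 x.2 ∧ h.ty x.1 = false}

/-- Ends of an edge. -/
def en (e : h.E) (s : Bool) : h.V := if s = true then e.1.2 else e.1.1

theorem ty_en (e : h.E) (s : Bool) : h.ty (h.en e s) = s := by
  obtain ⟨⟨v, w⟩, ⟨g, i, h1, h2⟩, h3⟩ := e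
  cases s
  · exact h3
  · simp only at h1 h2 h3
    show h.ty w = true
    rw [h2, ty_step, ← h1, h3]; rfl

theorem adj_en (e : h.E) (s : Bool) : h.Adj (h.en e s) (h.en e (!s)) := by
  cases s
  · exact e.2.1
  · exact e.2.1.symm

theorem simple (e e' : h.E) (s : Bool) (h1 : h.en e s = h.en e' s) (h2 : h.en e (!s) = h.en e' (!s)) :
    e = e' := by
  cases s
  · exact Subtype.ext (Prod.ext h1 h2)
  · exact Subtype.ext (Prod.ext h2 h1)

/-- The `i`-th edge at the vertex of `g`. -/
noncomputable def edge (g : G) (i : Fin 3) : h.E :=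
  if e : h.ty (h.vt g) = false then ⟨(h.vt g, h.vt (g * h.a i)), ⟨g, i, rfl, rfl⟩, e⟩
  else ⟨(h.vt (g * h.a i), h.vt g), Adj.symm h ⟨g, i, rfl, rfl⟩, by
    rw [ty_step]; simpa using e⟩

theorem en_edge (g : G) (i : Fin 3) : h.en (h.edge g i) (h.ty (h.vt g)) = h.vt g := by
  unfold edge
  split_ifs with e
  · simp [en, e]
  · simp [en, e]

theorem en_edge' (g : G) (i : Fin 3) : h.en (h.edge g i) (!h.ty (h.vt g)) = h.vt (g * h.a i) := by
  unfold edge
  split_ifs with e
  · simp [en, e]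
  · simp [en, e]

theorem edge_inj (g : G) : Function.Injective (h.edge g) := by
  intro i j e
  apply h.nb_inj (g := g)
  rw [← en_edge', ← en_edge', e]

theorem edge_iff (g : G) (e : h.E) : h.en e (h.ty (h.vt g)) = h.vt g ↔ ∃ i, h.edge g i = e := by
  constructor
  · intro he
    have := h.adj_en e (h.ty (h.vt g))
    rw [he, adj_iff] at this
    obtain ⟨i, hi⟩ := this
    exact ⟨i, h.simple _ _ (h.ty (h.vt g)) (by rw [en_edge, he]) (by rw [en_edge', hi])⟩
  · rintro ⟨i, rfl⟩
    exact h.en_edge g i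

theorem dv_en (e : h.E) (s : Bool) :
    h.dv (h.en e (!s)) = h.dv (h.en e s) + 1 ∨ h.dv (h.en e (!s)) + 1 = h.dv (h.en e s) := by
  obtain ⟨g, i, h1, h2⟩ := h.adj_en e s
  rw [h1, h2]
  exact h.step g i

theorem dv_sum (e : h.E) (s : Bool) :
    h.dv e.1.1 + h.dv e.1.2 = h.dv (h.en e s) + h.dv (h.en e (!s)) := by
  cases s <;> simp [en, add_comm]

/-- The subdivided tree. -/
noncomputable def ht : HT (h.V ⊕ h.E) (Dt h.E) where
  lo d := inl (h.en d.e d.s)
  hi d := inr d.e
  bot d := if h.dv (h.en d.e d.s) < h.dv (h.en d.e (!d.s)) then inl (h.en d.e d.s) else inr d.e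
  top d := if h.dv (h.en d.e d.s) < h.dv (h.en d.e (!d.s)) then inr d.e else inl (h.en d.e d.s)
  base := inl (h.vt 1)
  dp := Sum.elim (fun v => 2 * h.dv v) fun e => h.dv e.1.1 + h.dv e.1.2
  ends d := by split_ifs <;> simp
  dp_top d := by
    have := h.dv_en d.e d.s
    split_ifs <;> simp only [Sum.elim_inl, Sum.elim_inr, h.dv_sum d.e d.s] <;> omega
  dp_base := by simp [dv_mk, h.len_one]
  top_inj := by
    rintro ⟨e, s⟩ ⟨e', s'⟩ he
    simp only at he
    split_ifs at he with h1 h2 h2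
    · obtain rfl := inr.inj he
      congr 1
      cases s <;> cases s' <;> simp at h1 h2 ⊢ <;> omega
    · have he := inl.inj he
      obtain rfl : s = s' := by rw [← h.ty_en e s, he, ty_en]
      obtain ⟨g, hg⟩ := h.mk_surj (h.en e s)
      have hs : h.ty (h.vt g) = s := by rw [hg, ty_en]
      obtain ⟨i, rfl⟩ := (h.edge_iff g e).1 (by rw [hs, hg])
      obtain ⟨j, rfl⟩ := (h.edge_iff g e').1 (by rw [hs, hg, he])
      subst hs
      rw [en_edge, en_edge', dv_mk, dv_mk] at h1 h2
      have a := h.step g i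
      have b := h.step g j
      rw [h.uniq g i j (by omega) (by omega)]
  top_surj := by
    rintro (v | e) hp
    · obtain ⟨g, rfl⟩ := h.mk_surj v
      obtain ⟨i, hi⟩ := h.down g fun e => hp (congrArg inl (h.mk_eq.2 (by
        simpa using h.len_zero g e)))
      refine ⟨⟨h.edge g i, h.ty (h.vt g)⟩, ?_⟩
      simp only [en_edge, en_edge', dv_mk]
      rw [if_neg (by omega)]
    · rcases h.dv_en e false with a | a
      · exact ⟨⟨e, false⟩, by simp only; rw [if_pos (by omega)]⟩
      · exact ⟨⟨e, true⟩, by simp only [Bool.not_true]; rw [if_pos (by simp at a; omega)]⟩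
  child := by
    rintro (v | e)
    · obtain ⟨g, rfl⟩ := h.mk_surj v
      have : ∃ i, h.len (g * h.a i) = h.len g + 1 := by
        by_contra e
        push Not at e
        exact absurd (h.uniq g 0 1 ((h.step g 0).resolve_left (e 0))
          ((h.step g 1).resolve_left (e 1))) (by decide)
      obtain ⟨i, hi⟩ := this
      refine ⟨⟨h.edge g i, h.ty (h.vt g)⟩, ?_⟩
      simp only [en_edge, en_edge', dv_mk]
      rw [if_pos (by omega)]
    · rcases h.dv_en e false with a | a
      · exact ⟨⟨e, true⟩, by simp only [Bool.not_true]; rw [if_neg (by simp at a; omega)]⟩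
      · exact ⟨⟨e, false⟩, by simp only; rw [if_neg (by omega)]⟩

/-- The tree. -/
noncomputable def t3 : T3 h.V h.E where
  en := h.en
  ty := h.ty
  ty_en := h.ty_en
  simple e e' := h.simple e e' false
  three v := by
    obtain ⟨g, rfl⟩ := h.mk_surj v
    exact ⟨h.edge g, h.edge_inj g, h.edge_iff g⟩
  ht := h.ht
  lo_eq _ := rfl
  hi_eq _ := rfl

instance instActV : MulAction Γ h.V := inferInstanceAs (MulAction Γ (G ⧸ h.B))

theorem smul_mk (γ : Γ) (g : G) : γ • h.vt g = h.vt (γ.1 * g) := rfl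

theorem ty_smul (γ : Γ) (v : h.V) : h.ty (γ • v) = h.ty v := by
  obtain ⟨g, rfl⟩ := h.mk_surj v
  rw [smul_mk]
  unfold ty
  rw [dv_mk, dv_mk, h.par _ γ.2]

instance instActE : MulAction Γ h.E where
  smul γ e := ⟨(γ • e.1.1, γ • e.1.2), by
    obtain ⟨g, i, h1, h2⟩ := e.2.1
    exact ⟨γ.1 * g, i, by rw [h1, smul_mk], by rw [h2, smul_mk, mul_assoc]⟩, by
    rw [ty_smul]; exact e.2.2⟩
  one_smul e := Subtype.ext (Prod.ext (one_smul Γ e.1.1) (one_smul Γ e.1.2))
  mul_smul g g' e := Subtype.ext (Prod.ext (mul_smul g g' e.1.1) (mul_smul g g' e.1.2))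

theorem en_smul (γ : Γ) (e : h.E) (s : Bool) : h.en (γ • e) s = γ • h.en e s := by
  cases s <;> rfl

theorem edge_smul (γ : Γ) (g : G) (i : Fin 3) : h.edge (γ.1 * g) i = γ • h.edge g i := by
  apply h.simple _ _ (h.ty (h.vt g))
  · rw [en_smul, en_edge, ← h.ty_smul γ, smul_mk, en_edge]
  · rw [en_smul, en_edge', ← h.ty_smul γ, smul_mk, en_edge', smul_mk, mul_assoc]

/-- Label of an edge at the vertex of `g`. -/
noncomputable def lab (g : G) (e : h.E) : Fin 3 := Function.invFun (h.edge g) e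

theorem lab_edge (g : G) (i : Fin 3) : h.lab g (h.edge g i) = i :=
  Function.leftInverse_invFun (h.edge_inj g) i

/-- The next or the previous edge in the cyclic order given by `g`. -/
noncomputable def mv (g : G) (e : h.E) (b : Bool) : h.E :=
  h.edge g (h.lab g e + if b = true then 2 else 1)

/-- Whether two cyclic orders at a vertex are opposite. -/
noncomputable def rel (g g' : G) : Bool :=
  decide (h.mv g' (h.edge g 0) false ≠ h.edge g 1)

theorem mv_rel {g g' : G} (e : h.vt g = h.vt g') (i : Fin 3) (b : Bool) :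
    h.mv g' (h.edge g i) b = h.mv g (h.edge g i) (xor b (h.rel g g')) := by
  have h1 : ∀ i, ∃ j, h.edge g' j = h.edge g i := fun i =>
    (h.edge_iff g' _).1 (by rw [← e, en_edge])
  choose π hπ using h1
  have h2 : Function.Injective π := fun i j e => h.edge_inj g (by rw [← hπ, ← hπ, e])
  have h3 : ∀ π : Fin 3 → Fin 3, Function.Injective π → ∀ (i : Fin 3) (b : Bool),
      (π i + if b = true then 2 else 1) =
        π (i + if xor b (decide (π 0 + 1 ≠ π 1)) = true then 2 else 1) := by decide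
  have h4 : h.rel g g' = decide (π 0 + 1 ≠ π 1) := by
    simp only [rel, mv, ← hπ, lab_edge, (h.edge_inj g').ne_iff, Bool.false_eq_true, if_false]
  rw [h4, mv, mv, lab_edge, ← hπ, ← hπ, lab_edge, h3 π h2]

theorem mv_smul (γ : Γ) (g : G) (i : Fin 3) (b : Bool) :
    h.mv (γ.1 * g) (γ • h.edge g i) b = γ • h.mv g (h.edge g i) b := by
  rw [← edge_smul, mv, mv, lab_edge, lab_edge, edge_smul]

theorem rel_smul (γ : Γ) {g g' : G} (e : h.vt g = h.vt g') :
    h.rel (γ.1 * g) (γ.1 * g') = h.rel g g' := by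
  obtain ⟨j, hj⟩ := (h.edge_iff g' (h.edge g 0)).1 (by rw [← e, en_edge])
  simp only [rel, edge_smul, ← hj, mv_smul, ne_eq, smul_left_cancel_iff]

variable (h' : Half G Γ) (rep : h.V → h'.V → G) (r1 : ∀ u v, h.vt (rep u v) = u)

include r1 in
theorem exists_lab (e : h.E) (v : h'.V) (t : Bool) : ∃ i, h.edge (rep (h.en e t) v) i = e :=
  (h.edge_iff _ e).1 (by rw [r1, ty_en])

/-- The twist along an edge. -/
noncomputable def cc (e : h.E) (v : h'.V) : Bool :=
  h'.rel (rep (h.en e false) v) (rep (h.en e true) v)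

/-- The orientation preserving matchings. -/
noncomputable def side : Side h.t3 h'.V where
  sd e v s t := h.mv (rep (h.en e t) v) e (xor (xor s t) (t && h.cc h' rep e v))
  en_sd e v s t := by
    have := h.en_edge (rep (h.en e t) v)
    rw [r1, ty_en] at this
    exact this _
  ne e v s t := by
    obtain ⟨i, hi⟩ := h.exists_lab h' rep r1 e v t
    generalize xor (xor s t) (t && h.cc h' rep e v) = b
    generalize rep (h.en e t) v = g at hi
    subst hi
    rw [mv, lab_edge, (h.edge_inj g).ne_iff]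
    revert i b
    decide
  inj e v s s' t := by
    rw [mv, mv, (h.edge_inj _).eq_iff]
    generalize h.cc h' rep e v = c
    generalize h.lab (rep (h.en e t) v) e = i
    revert i c s s' t
    decide
  surj e v t e' h1 h2 := by
    obtain ⟨i, hi⟩ := h.exists_lab h' rep r1 e v t
    obtain ⟨j, hj⟩ := h.exists_lab h' rep r1 e' v t
    have h1' : h.en e' t = h.en e t := h1
    rw [h1'] at hj
    generalize h.cc h' rep e v = c
    generalize rep (h.en e t) v = g at hi hj
    subst hi
    subst hj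
    simp only [mv, lab_edge, (h.edge_inj g).eq_iff]
    rw [(h.edge_inj g).ne_iff] at h2
    clear h1 h1'
    revert i j c t
    decide

/-- The holonomy bits. -/
noncomputable def xb (e : h.E) (e' : h'.E) (t : Bool) : Bool :=
  xor (t && xor (h.cc h' rep e (h'.en e' true)) (h.cc h' rep e (h'.en e' false)))
    (h.rel (rep (h.en e t) (h'.en e' false)) (rep (h.en e t) (h'.en e' true)))

theorem side_xb (e : h.E) (e' : h'.E) (s t : Bool) :
    (h.side h' rep r1).sd e (h'.en e' true) (xor s (h.xb h' rep e e' t)) t =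
      (h.side h' rep r1).sd e (h'.en e' false) s t := by
  obtain ⟨i, hi⟩ := h.exists_lab h' rep r1 e (h'.en e' false) t
  have := h.mv_rel (g := rep (h.en e t) (h'.en e' false)) (g' := rep (h.en e t) (h'.en e' true))
    (by rw [r1, r1]) i
  rw [hi] at this
  simp only [side, this, xb]
  congr 1
  generalize h.cc h' rep e (h'.en e' true) = a
  generalize h.cc h' rep e (h'.en e' false) = b
  generalize h.rel _ _ = c
  clear this hi
  revert a b c s t
  decide

theorem side_smul (r2 : ∀ u v, h'.vt (rep u v) = v)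
    (r3 : ∀ (γ : Γ) u v, rep (γ • u) (γ • v) = γ.1 * rep u v) (γ : Γ) (e : h.E) (v : h'.V)
    (s t : Bool) : (h.side h' rep r1).sd (γ • e) (γ • v) s t = γ • (h.side h' rep r1).sd e v s t := by
  obtain ⟨i, hi⟩ := h.exists_lab h' rep r1 e v t
  have := h.mv_smul γ (rep (h.en e t) v) i
  rw [hi] at this
  simp only [side, cc, en_smul, r3, this]
  rw [h'.rel_smul γ (by rw [r2, r2])]

end Half

theorem main_of_halves {G : Type} [Group G] {Γ : Subgroup G} (h h' : Half G Γ)
    (inter : ∀ g ∈ h.B, g ∈ h'.B → g = 1) (prod : ∀ g, ∃ b ∈ h.B, ∃ b' ∈ h'.B, g = b * b')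
    (fin : ∃ F : Set G, F.Finite ∧ ∀ g, ∃ γ ∈ Γ, γ * g ∈ F) (g : Γ) (l : ℕ) (hl : 0 < l)
    (hg : ∀ n : ℕ, h.len (g.1 ^ n) = n * l) (hq : g.1 ∈ h'.B)
    (hc : IsInfiniteCyclic (stableCentraliser g)) :
    ∃ (H X G : Type) (_ : MetricSpace X) (_ : Group G) (_ : MulAction G X)
      (K : Set ((H → Bool) × Finset H)) (ι : X → H → ℝ) (g : G),
      FaceClosed K ∧ FlagLinks K ∧ Realizes K ι ∧ SimplyConnectedSpace X ∧
      Nonempty (ChartedSpace (EuclideanSpace ℝ (Fin 4)) X) ∧ FreeCocompactCubical K ι G ∧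
      g ≠ 1 ∧ IsInfiniteCyclic (stableCentraliser g) ∧ ¬ RankOne X g := by
  have h1 : ∀ (u : h.V) (v : h'.V), ∃ x, h.vt x = u ∧ h'.vt x = v := by
    intro u v
    obtain ⟨x, rfl⟩ := h.mk_surj u
    obtain ⟨y, rfl⟩ := h'.mk_surj v
    obtain ⟨b, hb, b', hb', e⟩ := prod (x⁻¹ * y)
    refine ⟨x * b, (h.mk_eq.2 (by simpa using hb)).symm, h'.mk_eq.2 ?_⟩
    rw [mul_inv_rev, mul_assoc, e]
    simpa using hb'
  choose rep r1 r2 using h1
  have h2 : ∀ x y, h.vt x = h.vt y → h'.vt x = h'.vt y → x = y := fun x y a b =>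
    inv_mul_eq_one.mp (inter _ (h.mk_eq.1 a) (h'.mk_eq.1 b))
  have r3 : ∀ (γ : Γ) u v, rep (γ • u) (γ • v) = γ.1 * rep u v := fun γ u v =>
    h2 _ _ (by rw [r1, ← h.smul_mk, r1]) (by rw [r2, ← h'.smul_mk, r2])
  let Z : TD h.V h.E h'.V h'.E :=
    { T₁ := h.t3
      T₂ := h'.t3
      sH := h.side h' rep r1
      sV := h'.side h (fun v u => rep u v) fun v u => r2 u v
      xb := h.xb h' rep
      yb := fun e e' => h'.xb h (fun v u => rep u v) e' e
      hx := h.side_xb h' rep r1
      hy := fun e e' => h'.side_xb h _ _ e' e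
      hol := by
        intro e e'
        simp only [Half.xb, Half.cc]
        generalize h.rel (rep (h.en e false) _) _ = a
        generalize h.rel (rep (h.en e true) _) _ = b
        generalize h'.rel (rep _ (h'.en e' false)) _ = c
        generalize h'.rel (rep _ (h'.en e' true)) _ = d
        revert a b c d
        decide }
  have hZ : Z.TEq Γ :=
    { en₁ := h.en_smul
      en₂ := h'.en_smul
      sH := h.side_smul h' rep r1 r2 r3
      sV := h'.side_smul h (fun v u => rep u v) (fun v u => r2 u v) (fun v u => r1 u v)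
        fun γ v u => r3 γ u v
      free := fun γ u v a b => by
        have := r3 γ u v
        rw [a, b] at this
        exact Subtype.ext (by simpa using this)
      cofin := by
        obtain ⟨F, hF, hF'⟩ := fin
        refine ⟨(fun x => (h.vt x, h'.vt x)) '' F, hF.image _, fun u v => ?_⟩
        obtain ⟨γ, hγ, e⟩ := hF' (rep u v)
        refine ⟨⟨γ, hγ⟩, _, e, ?_⟩
        have a := r1 ((⟨γ, hγ⟩ : Γ) • u) ((⟨γ, hγ⟩ : Γ) • v)
        have b := r2 ((⟨γ, hγ⟩ : Γ) • u) ((⟨γ, hγ⟩ : Γ) • v)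
        rw [r3] at a b
        exact Prod.ext a b }
  refine hZ.main (g := g) (l := 2 * l) (by omega) (fun n => ?_) ?_ hc
  · show 2 * h.len ((g ^ n).1 * 1) = _
    rw [mul_one, Subgroup.coe_pow, hg]
    ring
  · exact congrArg inl (h'.mk_eq.2 (by simpa using hq))

end Pool.Agent.Lib.MP_b03b3a_al
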