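import Mathlib
import Pool.Agent.Lib.MP_b03b3a_al.Half

set_option autoImplicit false

namespace Pool.Agent.Lib.MP_b03b3a_al

/-- A length function that describes the action of `Q` on a three-regular tree. -/
structure Tr {Q : Type} [Group Q] (a : Fin 3 → Q) (l : Q → ℕ) : Prop where
  one : l 1 = 0
  inv : ∀ g, l g⁻¹ = l g
  mul : ∀ g b, l b = 0 → l (g * b) = l g
  step : ∀ g i, l (g * a i) = l g + 1 ∨ l (g * a i) + 1 = l g
  down : ∀ g, l g ≠ 0 → ∃ i, l (g * a i) + 1 = l g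
  uniq : ∀ g i j, l (g * a i) + 1 = l g → l (g * a j) + 1 = l g → i = j
  gen : ∀ i, ∃ j, (a i)⁻¹ = a j
  par : ∀ g x, l (g * x) % 2 = (l g + l x) % 2

/-- Reduced words. -/
inductive Geo {Q : Type} [Group Q] (a : Fin 3 → Q) (l : Q → ℕ) : ℕ → Q → Prop
  | one : Geo a l 0 1
  | step {n : ℕ} {g : Q} (i : Fin 3) : Geo a l n g → l (g * a i) = n + 1 → Geo a l (n + 1) (g * a i)

namespace Tr

variable {Q : Type} [Group Q] {a b : Fin 3 → Q} {l l' : Q → ℕ} (t : Tr a l)

include t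

theorem len_a (i : Fin 3) : l (a i) = 1 := by
  have := t.step 1 i
  rw [one_mul, t.one] at this
  omega

theorem geo_len {n : ℕ} {g : Q} (h : Geo a l n g) : l g = n := by
  cases h with
  | one => exact t.one
  | step i _ h => exact h

theorem geo_step {n : ℕ} {g : Q} (h : Geo a l n g) (i : Fin 3) : ∃ m, Geo a l m (g * a i) := by
  rcases t.step g i with e | e
  · exact ⟨_, h.step i (by rw [e, t.geo_len h])⟩
  · cases h with
    | one => rw [t.one] at e; omega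
    | @step n g k h hk =>
      obtain ⟨j, hj⟩ := t.gen k
      have e' : g * a k * a j = g := by rw [← hj, mul_inv_cancel_right]
      obtain rfl : i = j := t.uniq _ i j e (by rw [e', hk, t.geo_len h])
      exact ⟨n, by rwa [e']⟩

theorem eq_one {g : Q} (hg : g ∈ Subgroup.closure (Set.range a)) (h : l g = 0) : g = 1 := by
  have : ∃ n, Geo a l n g := by
    clear h
    induction hg using Subgroup.closure_induction_right with
    | one => exact ⟨0, .one⟩
    | mul_right x _ y hy ih =>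
      obtain ⟨i, rfl⟩ := hy
      obtain ⟨n, hn⟩ := ih
      exact t.geo_step hn i
    | mul_inv_cancel x _ y hy ih =>
      obtain ⟨i, rfl⟩ := hy
      obtain ⟨n, hn⟩ := ih
      obtain ⟨j, hj⟩ := t.gen i
      rw [hj]
      exact t.geo_step hn j
  obtain ⟨n, hn⟩ := this
  obtain rfl : n = 0 := by rw [← t.geo_len hn, h]
  cases hn
  rfl

theorem len_closure (hb : ∀ j, l (b j) = 0) {g : Q} (hg : g ∈ Subgroup.closure (Set.range b)) :
    l g = 0 := by
  induction hg using Subgroup.closure_induction with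
  | mem x hx => obtain ⟨j, rfl⟩ := hx; exact hb j
  | one => exact t.one
  | mul x y _ _ hx hy => rw [t.mul _ _ hy, hx]
  | inv x _ hx => rw [t.inv, hx]

theorem len_pow (h : (a 0)⁻¹ = a 1) (n : ℕ) : l (a 0 ^ n) = n := by
  have : l (a 0 ^ n) = n ∧ l (a 0 ^ (n + 1)) = n + 1 := by
    induction n with
    | zero => simp [t.one, t.len_a]
    | succ n ih =>
      refine ⟨ih.2, ?_⟩
      rcases t.step (a 0 ^ (n + 1)) 0 with e | e
      · rw [pow_succ _ (n + 1), e, ih.2]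
      · refine absurd (t.uniq _ 0 1 e ?_) (by decide)
        rw [← h, ih.2, pow_succ, mul_inv_cancel_right, ih.1]
  exact this.1

/-- The half structure on a subgroup that contains the generators. -/
def half (G : Subgroup Q) (ha : ∀ i, a i ∈ G) (Γ : Subgroup G) (hΓ : ∀ g ∈ Γ, l g.1 % 2 = 0) :
    Half G Γ where
  a i := ⟨a i, ha i⟩
  B :=
    { carrier := {g | l g.1 = 0}
      one_mem' := t.one
      mul_mem' := fun {x y} hx hy => (t.mul _ _ hy).trans hx
      inv_mem' := fun {x} hx => (t.inv _).trans hx }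
  len g := l g.1
  len_B g b hb := t.mul _ _ hb
  len_zero _ h := h
  len_one := t.one
  step g := t.step g.1
  down g := t.down g.1
  uniq g := t.uniq g.1
  inv i := (t.gen i).imp fun _ h => Subtype.ext h
  comm b hb i := by
    have hb' : l b.1 = 0 := hb
    have h1 : l (b.1 * a i)⁻¹ = 1 := by
      rw [mul_inv_rev, t.mul _ _ (by rw [t.inv, hb']), t.inv, t.len_a]
    obtain ⟨j, hj⟩ := t.down (b.1 * a i)⁻¹ (by omega)
    refine ⟨j, (⟨a j, ha j⟩ : G)⁻¹ * b * ⟨a i, ha i⟩, ?_, by group⟩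
    show l ((a j)⁻¹ * b.1 * a i) = 0
    rw [← t.inv]
    have : ((a j)⁻¹ * b.1 * a i)⁻¹ = (b.1 * a i)⁻¹ * a j := by group
    rw [this]
    omega
  par g hg x := by
    have := t.par g.1 x.1
    have := hΓ g hg
    show l (g.1 * x.1) % 2 = l x.1 % 2
    omega

end Tr

theorem split_gen {Q : Type} [Group Q] {a b : Fin 3 → Q} (ia : ∀ i, ∃ j, (a i)⁻¹ = a j)
    (ib : ∀ i, ∃ j, (b i)⁻¹ = b j) (v4 : ∀ i j, ∃ i' j', b j * a i = a i' * b j') {g : Q}
    (hg : g ∈ Subgroup.closure (Set.range a ∪ Set.range b)) :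
    ∃ α ∈ Subgroup.closure (Set.range a), ∃ β ∈ Subgroup.closure (Set.range b), g = α * β := by
  have ma : ∀ i, a i ∈ Subgroup.closure (Set.range a) := fun i => Subgroup.subset_closure ⟨i, rfl⟩
  have mb : ∀ i, b i ∈ Subgroup.closure (Set.range b) := fun i => Subgroup.subset_closure ⟨i, rfl⟩
  have h1 : ∀ β ∈ Subgroup.closure (Set.range b), ∀ i,
      ∃ i', ∃ β' ∈ Subgroup.closure (Set.range b), β * a i = a i' * β' := by
    have key : ∀ j β, (∀ i, ∃ i', ∃ β' ∈ Subgroup.closure (Set.range b), β * a i = a i' * β') →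
        ∀ i, ∃ i', ∃ β' ∈ Subgroup.closure (Set.range b), b j * β * a i = a i' * β' := by
      intro j β ih i
      obtain ⟨i', β', h, e⟩ := ih i
      obtain ⟨i'', j', e'⟩ := v4 i' j
      exact ⟨i'', b j' * β', mul_mem (mb _) h, by rw [mul_assoc, e, ← mul_assoc, e', mul_assoc]⟩
    intro β hβ
    induction hβ using Subgroup.closure_induction_left with
    | one => exact fun i => ⟨i, 1, one_mem _, by simp⟩
    | mul_left x hx y _ ih =>
      obtain ⟨j, rfl⟩ := hx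
      exact key j y ih
    | inv_mul_cancel x hx y _ ih =>
      obtain ⟨j, rfl⟩ := hx
      obtain ⟨j', e⟩ := ib j
      rw [e]
      exact key j' y ih
  have h2 : ∀ x y, y ∈ Set.range a ∪ Set.range b →
      (∃ α ∈ Subgroup.closure (Set.range a), ∃ β ∈ Subgroup.closure (Set.range b), x = α * β) →
      ∃ α ∈ Subgroup.closure (Set.range a), ∃ β ∈ Subgroup.closure (Set.range b),
        x * y = α * β := by
    rintro _ _ (⟨i, rfl⟩ | ⟨j, rfl⟩) ⟨α, hα, β, hβ, rfl⟩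
    · obtain ⟨i', β', h, e⟩ := h1 β hβ i
      exact ⟨α * a i', mul_mem hα (ma _), β', h, by rw [mul_assoc, e, mul_assoc]⟩
    · exact ⟨α, hα, β * b j, mul_mem hβ (mb _), by rw [mul_assoc]⟩
  induction hg using Subgroup.closure_induction_right with
  | one => exact ⟨1, one_mem _, 1, one_mem _, by simp⟩
  | mul_right x _ y hy ih => exact h2 x y hy ih
  | mul_inv_cancel x _ y hy ih =>
    refine h2 x _ ?_ ih
    rcases hy with ⟨i, rfl⟩ | ⟨j, rfl⟩
    · obtain ⟨j, e⟩ := ia i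
      exact Or.inl ⟨j, e.symm⟩
    · obtain ⟨i, e⟩ := ib j
      exact Or.inr ⟨i, e.symm⟩

theorem main_of_lattice {Q : Type} [Group Q] {a b : Fin 3 → Q} {l l' : Q → ℕ} (t : Tr a l)
    (t' : Tr b l') (hb : ∀ j, l (b j) = 0) (ha : ∀ i, l' (a i) = 0)
    (v4 : ∀ i j, ∃ i' j', b j * a i = a i' * b j') (h01 : (a 0)⁻¹ = a 1)
    (hc : ∀ γ n, 1 ≤ n → Commute γ (a 0 ^ n) →
      l' γ = 0 ∧ (l γ = 0 ∨ l (γ * a 0) < l γ ∨ l (γ * a 1) < l γ)) :
    ∃ (H X G : Type) (_ : MetricSpace X) (_ : Group G) (_ : MulAction G X)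
      (K : Set ((H → Bool) × Finset H)) (ι : X → H → ℝ) (g : G),
      FaceClosed K ∧ FlagLinks K ∧ Realizes K ι ∧ SimplyConnectedSpace X ∧
      Nonempty (ChartedSpace (EuclideanSpace ℝ (Fin 4)) X) ∧ FreeCocompactCubical K ι G ∧
      g ≠ 1 ∧ IsInfiniteCyclic (stableCentraliser g) ∧ ¬ RankOne X g := by
  let G := Subgroup.closure (Set.range a ∪ Set.range b)
  have ma : ∀ i, a i ∈ G := fun i => Subgroup.subset_closure (Or.inl ⟨i, rfl⟩)
  have mb : ∀ i, b i ∈ G := fun i => Subgroup.subset_closure (Or.inr ⟨i, rfl⟩)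
  let Γ : Subgroup G :=
    { carrier := {g | l g.1 % 2 = 0 ∧ l' g.1 % 2 = 0}
      one_mem' := ⟨congrArg (· % 2) t.one, congrArg (· % 2) t'.one⟩
      mul_mem' := fun {x y} hx hy => by
        have h1 := t.par x.1 y.1
        have h2 := t'.par x.1 y.1
        obtain ⟨h3, h4⟩ := hx
        obtain ⟨h5, h6⟩ := hy
        exact ⟨by show l (x.1 * y.1) % 2 = 0; omega, by show l' (x.1 * y.1) % 2 = 0; omega⟩
      inv_mem' := fun {x} hx => ⟨(congrArg (· % 2) (t.inv x.1)).trans hx.1,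
        (congrArg (· % 2) (t'.inv x.1)).trans hx.2⟩ }
  have inter : ∀ g ∈ G, l g = 0 → l' g = 0 → g = 1 := by
    intro g hg h1 h2
    obtain ⟨α, hα, β, hβ, rfl⟩ := split_gen t.gen t'.gen v4 hg
    rw [t.mul _ _ (t.len_closure hb hβ)] at h1
    rw [t.eq_one hα h1, one_mul] at h2 ⊢
    exact t'.eq_one hβ h2
  have pw := t.len_pow h01
  have pw' : ∀ n : ℕ, l' (a 0 ^ n) = 0 := fun n =>
    t'.len_closure ha (pow_mem (Subgroup.subset_closure (Set.mem_range_self 0)) n)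
  let g : Γ := ⟨⟨a 0 ^ 2, pow_mem (ma 0) 2⟩, by
    show l (a 0 ^ 2) % 2 = 0; rw [pw], by show l' (a 0 ^ 2) % 2 = 0; rw [pw']⟩
  have hg : ∀ n : ℕ, (g ^ n).1.1 = a 0 ^ (2 * n) := fun n => by
    rw [pow_mul]; rfl
  refine main_of_halves (t.half G ma Γ fun _ h => h.1) (t'.half G mb Γ fun _ h => h.2)
    (fun g h h' => Subtype.ext (inter _ g.2 h h')) (fun g => ?_) ?_ g 2 two_pos (fun n => ?_)
    (pw' 2) ⟨g, ?_, ?_⟩
  · obtain ⟨α, hα, β, hβ, e⟩ := split_gen t.gen t'.gen v4 (g⁻¹).2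
    have m1 : α ∈ G := Subgroup.closure_mono Set.subset_union_left hα
    have m2 : β ∈ G := Subgroup.closure_mono Set.subset_union_right hβ
    refine ⟨⟨β, m2⟩⁻¹, (t.inv β).trans (t.len_closure hb hβ), ⟨α, m1⟩⁻¹,
      (t'.inv α).trans (t'.len_closure ha hα), ?_⟩
    rw [← mul_inv_rev, eq_inv_iff_mul_eq_one]
    apply Subtype.ext
    show g.1 * (α * β) = 1
    rw [← e]
    simp
  · have key : ∀ x : G, ∃ y ∈ ({1, ⟨a 0, ma 0⟩, ⟨b 0, mb 0⟩, ⟨a 0 * b 0, mul_mem (ma 0) (mb 0)⟩} :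
        Set G), l y.1 % 2 = l x.1 % 2 ∧ l' y.1 % 2 = l' x.1 % 2 := by
      intro x
      have p1 := t'.par (a 0) (b 0)
      rw [ha, t'.len_a] at p1
      rcases Nat.mod_two_eq_zero_or_one (l x.1) with e | e <;>
        rcases Nat.mod_two_eq_zero_or_one (l' x.1) with e' | e'
      · exact ⟨1, by simp, by simp [t.one, e], by simp [t'.one, e']⟩
      · exact ⟨⟨b 0, mb 0⟩, by simp, by simp [hb, e], by simp [t'.len_a, e']⟩
      · exact ⟨⟨a 0, ma 0⟩, by simp, by simp [t.len_a, e], by simp [ha, e']⟩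
      · exact ⟨⟨a 0 * b 0, mul_mem (ma 0) (mb 0)⟩, by simp, by simp [t.mul _ _ (hb 0), t.len_a, e],
          by simp [p1, e']⟩
    refine ⟨{1, ⟨a 0, ma 0⟩, ⟨b 0, mb 0⟩, ⟨a 0 * b 0, mul_mem (ma 0) (mb 0)⟩}, Set.toFinite _,
      fun x => ?_⟩
    obtain ⟨y, hy, h1, h2⟩ := key x
    refine ⟨y * x⁻¹, ?_, by rw [inv_mul_cancel_right]; exact hy⟩
    have p1 := t.par y.1 x.1⁻¹
    have p2 := t'.par y.1 x.1⁻¹
    rw [t.inv] at p1
    rw [t'.inv] at p2
    exact ⟨by show l (y.1 * x.1⁻¹) % 2 = 0; omega, by show l' (y.1 * x.1⁻¹) % 2 = 0; omega⟩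
  · show l (g ^ n).1.1 = _
    rw [hg, pw, mul_comm]
  · intro h
    obtain ⟨n, hn, e⟩ := isOfFinOrder_iff_pow_eq_one.1 h
    have := pw (2 * n)
    rw [← hg, e] at this
    have h1 : l 1 = 2 * n := this
    rw [t.one] at h1
    omega
  · have key : ∀ n, 1 ≤ n → ∀ (k : ℕ) (γ : Q), γ ∈ G → l γ = k → Commute γ (a 0 ^ n) →
        ∃ z : ℤ, a 0 ^ z = γ := by
      intro n hn k
      induction k using Nat.strong_induction_on with
      | _ k ih =>
        intro γ hγ hk hcm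
        obtain ⟨h1, h2 | h2 | h2⟩ := hc γ n hn hcm
        · exact ⟨0, by rw [inter γ hγ h2 h1, zpow_zero]⟩
        · obtain ⟨z, hz⟩ := ih _ (hk ▸ h2) _ (mul_mem hγ (ma 0)) rfl
            (hcm.mul_left (Commute.self_pow _ _))
          exact ⟨z - 1, by rw [zpow_sub_one, hz, mul_inv_cancel_right]⟩
        · obtain ⟨z, hz⟩ := ih _ (hk ▸ h2) _ (mul_mem hγ (ma 1)) rfl
            (hcm.mul_left (h01 ▸ (Commute.self_pow _ _).inv_left))
          exact ⟨z + 1, by rw [zpow_add_one, hz, ← h01, inv_mul_cancel_right]⟩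
    ext γ
    constructor
    · rintro ⟨n, hn, e⟩
      have e' : γ.1.1 * (g ^ n).1.1 = (g ^ n).1.1 * γ.1.1 :=
        congrArg (fun x : Γ => x.1.1) (mul_inv_eq_iff_eq_mul.1 e)
      rw [hg] at e'
      obtain ⟨z, hz⟩ := key (2 * n) (by omega) _ γ.1.1 γ.1.2 rfl e'
      have h1 : l (a 0 ^ z) = z.natAbs := by
        rcases Int.natAbs_eq z with h | h
        · rw [h, zpow_natCast, pw, Int.natAbs_natCast]
        · rw [h, zpow_neg, t.inv, zpow_natCast, pw, Int.natAbs_neg, Int.natAbs_natCast]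
      have h2 : l γ.1.1 % 2 = 0 := γ.2.1
      rw [← hz, h1] at h2
      refine ⟨z / 2, Subtype.ext (Subtype.ext ?_)⟩
      show (a 0 ^ 2) ^ (z / 2) = γ.1.1
      rw [← hz, ← zpow_natCast, ← zpow_mul]
      congr 1
      omega
    · rintro ⟨z, rfl⟩
      refine ⟨1, le_rfl, ?_⟩
      show g ^ z * g ^ 1 * (g ^ z)⁻¹ = g ^ 1
      group

end Pool.Agent.Lib.MP_b03b3a_al
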