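import Mathlib
import Pool.Agent.Lib.MP_b03b3a_al.Lat

set_option autoImplicit false

namespace Pool.Agent.Lib.MP_b03b3a_al

open Polynomial

section norm

variable {S : Type} [CommRing S] {c₁ c₂ c₃ : S}

/-- The reduced norm. -/
def nrm (x : QuaternionAlgebra S c₁ c₂ c₃) : S := (x * star x).re

theorem mul_star_nrm (x : QuaternionAlgebra S c₁ c₂ c₃) : x * star x = nrm x • 1 := by
  rw [QuaternionAlgebra.mul_star_eq_coe]
  ext <;> simp [nrm]

theorem nrm_star (x : QuaternionAlgebra S c₁ c₂ c₃) : nrm (star x) = nrm x := by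
  simp [nrm]; ring

theorem star_mul_nrm (x : QuaternionAlgebra S c₁ c₂ c₃) : star x * x = nrm x • 1 := by
  rw [← nrm_star, ← mul_star_nrm, star_star]

theorem nrm_mul (x y : QuaternionAlgebra S c₁ c₂ c₃) : nrm (x * y) = nrm x * nrm y := by
  have : x * y * star (x * y) = (nrm x * nrm y) • 1 := by
    rw [star_mul, mul_assoc, ← mul_assoc y, mul_star_nrm, smul_mul_assoc, one_mul, mul_smul_comm,
      mul_star_nrm, smul_smul, mul_comm]
  rw [nrm, this]
  simp

theorem nrm_smul (s : S) (x : QuaternionAlgebra S c₁ c₂ c₃) : nrm (s • x) = s ^ 2 * nrm x := by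
  simp [nrm]; ring

theorem nrm_one : nrm (1 : QuaternionAlgebra S c₁ c₂ c₃) = 1 := by simp [nrm]

end norm

/-- Polynomials over the field with two elements. -/
abbrev Rg : Type := (ZMod 2)[X]

/-- The maximal order. -/
abbrev Od : Type := QuaternionAlgebra Rg X 1 (X ^ 2 + X + 1)

/-- The elements of non-zero norm. -/
def NZ : Submonoid Od where
  carrier := {x | nrm x ≠ 0}
  one_mem' := by simp [nrm_one]
  mul_mem' := fun {x y} hx hy => by
    show nrm (x * y) ≠ 0
    rw [nrm_mul]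
    exact mul_ne_zero hx hy

/-- Proportional elements. -/
def propCon : Con NZ where
  r x y := ∃ m n : Rg, m ≠ 0 ∧ n ≠ 0 ∧ m • x.1 = n • y.1
  iseqv := by
    refine ⟨fun x => ⟨1, 1, one_ne_zero, one_ne_zero, rfl⟩, ?_, ?_⟩
    · rintro x y ⟨m, n, hm, hn, h⟩
      exact ⟨n, m, hn, hm, h.symm⟩
    · rintro x y z ⟨m, n, hm, hn, h⟩ ⟨m', n', hm', hn', h'⟩
      refine ⟨m' * m, n * n', mul_ne_zero hm' hm, mul_ne_zero hn hn', ?_⟩
      rw [mul_smul, h, smul_comm, h', mul_smul]
  mul' := by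
    rintro x y z w ⟨m, n, hm, hn, h⟩ ⟨m', n', hm', hn', h'⟩
    refine ⟨m * m', n * n', mul_ne_zero hm hm', mul_ne_zero hn hn', ?_⟩
    simp only [Submonoid.coe_mul]
    rw [← smul_mul_smul_comm, h, h', smul_mul_smul_comm]

/-- The projective group. -/
def PG : Type := propCon.Quotient

/-- The conjugate. -/
noncomputable def st (x : NZ) : NZ := ⟨star x.1, by
  show nrm (star x.1) ≠ 0
  rw [nrm_star]
  exact x.2⟩

noncomputable instance instGroupPG : Group PG :=
  @groupOfIsUnit PG (inferInstanceAs (Monoid propCon.Quotient)) (by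
    intro g
    refine Con.induction_on (c := propCon) g fun x => ?_
    have h1 : ((x * st x : NZ) : propCon.Quotient) = ((1 : NZ) : propCon.Quotient) := by
      rw [Con.eq]
      exact ⟨1, nrm x.1, one_ne_zero, x.2, by rw [one_smul]; exact mul_star_nrm x.1⟩
    have h2 : ((st x * x : NZ) : propCon.Quotient) = ((1 : NZ) : propCon.Quotient) := by
      rw [Con.eq]
      exact ⟨1, nrm x.1, one_ne_zero, x.2, by rw [one_smul]; exact star_mul_nrm x.1⟩
    exact (⟨⟨(x : propCon.Quotient), (st x : propCon.Quotient), h1, h2⟩, rfl⟩ :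
      IsUnit (x : propCon.Quotient)))

/-- The class of an element. -/
noncomputable def cl (x : NZ) : PG := (x : propCon.Quotient)

theorem cl_mul (x y : NZ) : cl (x * y) = cl x * cl y := rfl

theorem cl_one : cl 1 = 1 := rfl

theorem cl_eq {x y : NZ} : cl x = cl y ↔ ∃ m n : Rg, m ≠ 0 ∧ n ≠ 0 ∧ m • x.1 = n • y.1 :=
  Con.eq (c := propCon)

theorem cl_surj (g : PG) : ∃ x, cl x = g := Con.induction_on (c := propCon) g fun x => ⟨x, rfl⟩

theorem cl_st (x : NZ) : cl (st x) = (cl x)⁻¹ := by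
  apply eq_inv_of_mul_eq_one_left
  rw [← cl_mul, ← cl_one, cl_eq]
  exact ⟨1, nrm x.1, one_ne_zero, x.2, by rw [one_smul]; exact star_mul_nrm x.1⟩

theorem cl_pow (x : NZ) (n : ℕ) : cl (x ^ n) = cl x ^ n := by
  induction n with
  | zero => simp [cl_one]
  | succ n ih => rw [pow_succ x, pow_succ (cl x), cl_mul, ih]

section place

variable (c : ZMod 2)

/-- Reduction at a place. -/
noncomputable def ev (x : Od) : QuaternionAlgebra (ZMod 2) c 1 1 :=
  ⟨eval c x.re, eval c x.imI, eval c x.imJ, eval c x.imK⟩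

theorem ev_mul (x y : Od) : ev c (x * y) = ev c x * ev c y := by
  have : c + c + 1 = 1 := by revert c; decide
  ext <;> simp [ev, this]

theorem ev_star (x : Od) : ev c (star x) = star (ev c x) := by
  ext <;> simp [ev]

theorem ev_nrm (x : Od) : eval c (nrm x) = nrm (ev c x) := by
  rw [nrm, nrm, ← ev_star, ← ev_mul]
  rfl

theorem ev_smul (s : Rg) (x : Od) : ev c (s • x) = eval c s • ev c x := by
  ext <;> simp [ev]

theorem ev_zero {x : Od} (h : ev c x = 0) : ∃ y : Od, x = (X - C c : Rg) • y := by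
  obtain ⟨p, hp⟩ := dvd_iff_isRoot.2 (congrArg QuaternionAlgebra.re h : eval c x.re = 0)
  obtain ⟨q, hq⟩ := dvd_iff_isRoot.2 (congrArg QuaternionAlgebra.imI h : eval c x.imI = 0)
  obtain ⟨r, hr⟩ := dvd_iff_isRoot.2 (congrArg QuaternionAlgebra.imJ h : eval c x.imJ = 0)
  obtain ⟨s, hs⟩ := dvd_iff_isRoot.2 (congrArg QuaternionAlgebra.imK h : eval c x.imK = 0)
  exact ⟨⟨p, q, r, s⟩, QuaternionAlgebra.ext hp hq hr hs⟩

theorem rm_mul {p q : Rg} (hp : p ≠ 0) (hq : q ≠ 0) :
    rootMultiplicity c (p * q) = rootMultiplicity c p + rootMultiplicity c q :=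
  rootMultiplicity_mul (mul_ne_zero hp hq)

theorem divide (x : NZ) (h : ev c x.1 = 0) : ∃ y : NZ, x.1 = (X - C c : Rg) • y.1 ∧ cl y = cl x ∧
    rootMultiplicity c (nrm x.1) = rootMultiplicity c (nrm y.1) + 2 := by
  obtain ⟨y, hy⟩ := ev_zero c h
  have h1 : nrm x.1 = (X - C c) ^ 2 * nrm y := by rw [hy, nrm_smul]
  have h2 : nrm y ≠ 0 := fun e => x.2 (by rw [h1, e, mul_zero])
  refine ⟨⟨y, h2⟩, hy, cl_eq.2 ⟨_, 1, X_sub_C_ne_zero c, one_ne_zero, by rw [one_smul, hy]⟩, ?_⟩
  rw [h1, rm_mul c (pow_ne_zero _ (X_sub_C_ne_zero c)) h2, rootMultiplicity_X_sub_C_pow, add_comm]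

theorem exists_prim (g : PG) : ∃ x : NZ, cl x = g ∧ ev c x.1 ≠ 0 := by
  obtain ⟨x, rfl⟩ := cl_surj g
  generalize hk : rootMultiplicity c (nrm x.1) = k
  induction k using Nat.strong_induction_on generalizing x with
  | _ k ih =>
    by_cases h : ev c x.1 = 0
    · obtain ⟨y, -, e, h⟩ := divide c x h
      rw [← e]
      exact ih _ (by omega) y rfl
    · exact ⟨x, rfl, h⟩

theorem rm_le {x y : Od} {m n : Rg} (hm : m ≠ 0) (hx : ev c x ≠ 0) (e : m • x = n • y) :
    rootMultiplicity c n ≤ rootMultiplicity c m := by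
  have key : ∀ p q : Rg, eval c p ≠ 0 → m * p = n * q →
      rootMultiplicity c n ≤ rootMultiplicity c m := by
    intro p q hp e
    have h0 : p ≠ 0 := fun h => hp (by rw [h, eval_zero])
    have h1 : n * q ≠ 0 := e ▸ mul_ne_zero hm h0
    have := congrArg (rootMultiplicity c) e
    rw [rm_mul c hm h0, rootMultiplicity_mul h1, rootMultiplicity_eq_zero (p := p) hp] at this
    omega
  by_contra hn
  exact hx (QuaternionAlgebra.ext
    (by_contra fun h => hn (key _ _ h (congrArg QuaternionAlgebra.re e)))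
    (by_contra fun h => hn (key _ _ h (congrArg QuaternionAlgebra.imI e)))
    (by_contra fun h => hn (key _ _ h (congrArg QuaternionAlgebra.imJ e)))
    (by_contra fun h => hn (key _ _ h (congrArg QuaternionAlgebra.imK e))))

theorem rm_nrm {x y : NZ} {m n : Rg} (hm : m ≠ 0) (hn : n ≠ 0) (e : m • x.1 = n • y.1) :
    2 * rootMultiplicity c m + rootMultiplicity c (nrm x.1) =
      2 * rootMultiplicity c n + rootMultiplicity c (nrm y.1) := by
  have := congrArg (fun z => rootMultiplicity c (nrm z)) e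
  simp only [nrm_smul, sq] at this
  rw [rm_mul c (mul_ne_zero hm hm) x.2, rm_mul c (mul_ne_zero hn hn) y.2, rm_mul c hm hm,
    rm_mul c hn hn] at this
  omega

/-- The distance by which a class moves the base vertex of the tree at the place. -/
noncomputable def len (g : PG) : ℕ := rootMultiplicity c (nrm (exists_prim c g).choose.1)

theorem len_cl {x : NZ} (hx : ev c x.1 ≠ 0) : len c (cl x) = rootMultiplicity c (nrm x.1) := by
  obtain ⟨h1, h2⟩ := (exists_prim c (cl x)).choose_spec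
  obtain ⟨m, n, hm, hn, e⟩ := cl_eq.1 h1
  have := rm_nrm c hm hn e
  have := rm_le c hm h2 e
  have := rm_le c hn hx e.symm
  unfold len
  omega

theorem len_par (x : NZ) : len c (cl x) % 2 = rootMultiplicity c (nrm x.1) % 2 := by
  obtain ⟨m, n, hm, hn, e⟩ := cl_eq.1 (exists_prim c (cl x)).choose_spec.1
  have := rm_nrm c hm hn e
  unfold len
  omega

theorem len_zero {x : NZ} (hx : ev c x.1 ≠ 0) : len c (cl x) = 0 ↔ nrm (ev c x.1) ≠ 0 := by
  rw [len_cl c hx, rootMultiplicity_eq_zero_iff, ← ev_nrm]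
  exact ⟨fun h e => x.2 (h e), fun h e => absurd e h⟩

theorem len_unit {x : NZ} (hx : nrm (ev c x.1) ≠ 0) : len c (cl x) = 0 :=
  (len_zero c fun e => hx (by rw [e]; simp [nrm])).2 hx

theorem len_up {x a : NZ} (hx : ev c x.1 ≠ 0) (ha : nrm a.1 = X - C c)
    (h : ev c x.1 * ev c a.1 ≠ 0) : len c (cl x * cl a) = len c (cl x) + 1 := by
  rw [← cl_mul, len_cl c hx, len_cl c (by rwa [Submonoid.coe_mul, ev_mul]), Submonoid.coe_mul,
    nrm_mul, rm_mul c x.2 a.2, ha, rootMultiplicity_X_sub_C_self]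

theorem len_down {x a : NZ} (hx : ev c x.1 ≠ 0) (ha : nrm a.1 = X - C c)
    (h : ev c x.1 * ev c a.1 = 0) : len c (cl x * cl a) + 1 = len c (cl x) := by
  obtain ⟨y, h1, h2, h3⟩ := divide c (x * a) (by rwa [Submonoid.coe_mul, ev_mul])
  have h4 : y.1 * star a.1 = x.1 := by
    apply smul_right_injective Od (X_sub_C_ne_zero c)
    simp only
    rw [← smul_mul_assoc, ← h1, Submonoid.coe_mul, mul_assoc, mul_star_nrm, ha, mul_smul_comm,
      mul_one]
  have h5 : ev c y.1 ≠ 0 := fun e => hx (by rw [← h4, ev_mul, e, zero_mul])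
  rw [Submonoid.coe_mul, nrm_mul, rm_mul c x.2 a.2, ha, rootMultiplicity_X_sub_C_self] at h3
  rw [← cl_mul, ← h2, len_cl c hx, len_cl c h5]
  omega

theorem tr_len (a : Fin 3 → NZ) (ha : ∀ i, nrm (a i).1 = X - C c) (hs : ∀ i, ∃ j, st (a i) = a j)
    (h1 : ∀ u : QuaternionAlgebra (ZMod 2) c 1 1, nrm u = 0 → ∃ i, u * ev c (a i).1 = 0)
    (h2 : ∀ (u : QuaternionAlgebra (ZMod 2) c 1 1) i j, u ≠ 0 → u * ev c (a i).1 = 0 →
      u * ev c (a j).1 = 0 → i = j) : Tr (fun i => cl (a i)) (len c) where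
  one := len_unit c (x := 1) (by rw [← ev_nrm]; simp [nrm_one])
  inv g := by
    obtain ⟨x, rfl, hx⟩ := exists_prim c g
    rw [← cl_st, len_cl c hx, len_cl c (x := st x) (by simpa [st, ev_star] using hx)]
    exact congrArg _ (nrm_star x.1)
  mul g b hb := by
    obtain ⟨x, rfl, hx⟩ := exists_prim c g
    obtain ⟨y, rfl, hy⟩ := exists_prim c b
    have h := (len_zero c hy).1 hb
    rw [len_cl c hy] at hb
    rw [← cl_mul, len_cl c hx, len_cl c, Submonoid.coe_mul, nrm_mul, rm_mul c x.2 y.2, hb, add_zero]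
    intro e
    have := congrArg (· * star (ev c y.1)) e
    simp only [Submonoid.coe_mul, ev_mul, mul_assoc, mul_star_nrm, mul_smul_comm, mul_one,
      zero_mul] at this
    exact hx ((smul_eq_zero.1 this).resolve_left h)
  step g i := by
    obtain ⟨x, rfl, hx⟩ := exists_prim c g
    by_cases h : ev c x.1 * ev c (a i).1 = 0
    · exact Or.inr (len_down c hx (ha i) h)
    · exact Or.inl (len_up c hx (ha i) h)
  down g hg := by
    obtain ⟨x, rfl, hx⟩ := exists_prim c g
    exact (h1 _ (by_contra fun e => hg ((len_zero c hx).2 e))).imp fun i h =>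
      len_down c hx (ha i) h
  uniq g i j hi hj := by
    obtain ⟨x, rfl, hx⟩ := exists_prim c g
    refine h2 _ i j hx (by_contra fun e => ?_) (by_contra fun e => ?_)
    · have := len_up c hx (ha i) e
      omega
    · have := len_up c hx (ha j) e
      omega
  gen i := (hs i).imp fun j h => by rw [← cl_st, h]
  par g g' := by
    obtain ⟨x, rfl⟩ := cl_surj g
    obtain ⟨y, rfl⟩ := cl_surj g'
    have := len_par c (x * y)
    rw [Submonoid.coe_mul, nrm_mul, rm_mul c x.2 y.2, cl_mul] at this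
    have := len_par c x
    have := len_par c y
    omega

end place

theorem two_rg : (2 : Rg) = 0 := CharTwo.two_eq_zero

/-- The generators of norm `X`. -/
noncomputable def qa : Fin 3 → Od := ![⟨0, 1, 0, 0⟩, ⟨1, 1, 0, 0⟩, ⟨X + 1, 0, 1, 0⟩]

/-- The generators of norm `X + 1`. -/
noncomputable def qb : Fin 3 → Od := ![⟨X, 1, 1, 0⟩, ⟨X + 1, 1, 1, 0⟩, ⟨X, 0, 1, 0⟩]

theorem nrm_qa (i : Fin 3) : nrm (qa i) = X - C 0 := by
  have := two_rg
  fin_cases i <;> simp [qa, nrm] <;> grind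

theorem nrm_qb (i : Fin 3) : nrm (qb i) = X - C 1 := by
  have := two_rg
  fin_cases i <;> simp [qb, nrm] <;> grind

/-- The generators of norm `X`. -/
noncomputable def na (i : Fin 3) : NZ := ⟨qa i, by
  show nrm (qa i) ≠ 0
  rw [nrm_qa]
  exact X_sub_C_ne_zero 0⟩

/-- The generators of norm `X + 1`. -/
noncomputable def nb (i : Fin 3) : NZ := ⟨qb i, by
  show nrm (qb i) ≠ 0
  rw [nrm_qb]
  exact X_sub_C_ne_zero 1⟩

theorem st_na (i : Fin 3) : st (na i) = na (![1, 0, 2] i) := by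
  have := two_rg
  apply Subtype.ext
  fin_cases i <;> ext1 <;> simp [st, na, qa] <;> grind

theorem st_nb (i : Fin 3) : st (nb i) = nb (![1, 0, 2] i) := by
  have := two_rg
  apply Subtype.ext
  fin_cases i <;> ext1 <;> simp [st, nb, qb] <;> grind

theorem v4 (i j : Fin 3) : nb j * na i =
    na (![![2, 1, 1], ![0, 2, 0], ![1, 0, 2]] i j) * nb (![![1, 2, 0], ![2, 0, 1], ![1, 0, 2]] i j) := by
  have := two_rg
  apply Subtype.ext
  fin_cases i <;> fin_cases j <;> ext1 <;> simp [na, nb, qa, qb] <;> grind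

theorem ev_qa (i : Fin 3) : ev 0 (qa i) = ![⟨0, 1, 0, 0⟩, ⟨1, 1, 0, 0⟩, ⟨1, 0, 1, 0⟩] i := by
  fin_cases i <;> simp [ev, qa]

theorem ev_qb (i : Fin 3) : ev 1 (qb i) = ![⟨1, 1, 1, 0⟩, ⟨0, 1, 1, 0⟩, ⟨1, 0, 1, 0⟩] i := by
  fin_cases i <;> simp [ev, qb]
  decide

theorem tr_a : Tr (fun i => cl (na i)) (len 0) := by
  refine tr_len 0 na nrm_qa (fun i => ⟨_, st_na i⟩) ?_ ?_
  · rintro ⟨p, q, r, s⟩
    simp only [na, ev_qa, nrm, QuaternionAlgebra.ext_iff]
    revert p q r s
    decide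
  · rintro ⟨p, q, r, s⟩
    simp only [na, ev_qa, ne_eq, QuaternionAlgebra.ext_iff]
    revert p q r s
    decide

theorem tr_b : Tr (fun i => cl (nb i)) (len 1) := by
  refine tr_len 1 nb nrm_qb (fun i => ⟨_, st_nb i⟩) ?_ ?_
  · rintro ⟨p, q, r, s⟩
    simp only [nb, ev_qb, nrm, QuaternionAlgebra.ext_iff]
    revert p q r s
    decide
  · rintro ⟨p, q, r, s⟩
    simp only [nb, ev_qb, ne_eq, QuaternionAlgebra.ext_iff]
    revert p q r s
    decide

theorem pow_qa (n : ℕ) : (qa 0 ^ (n + 1)).imJ = 0 ∧ (qa 0 ^ (n + 1)).imK = 0 ∧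
    eval 0 (qa 0 ^ (n + 1)).imI = 1 ∧ eval 0 (qa 0 ^ (n + 1)).re = 0 := by
  induction n with
  | zero => simp [qa]
  | succ n ih =>
    rw [pow_succ (qa 0)]
    generalize qa 0 ^ (n + 1) = y at ih
    simp [qa, ih]

theorem comm_field {x : NZ} {n : ℕ} (hn : 1 ≤ n) (h : Commute (cl x) (cl (na 0) ^ n)) :
    x.1.imJ = 0 ∧ x.1.imK = 0 := by
  obtain ⟨n, rfl⟩ := Nat.exists_eq_add_of_le' hn
  obtain ⟨h1, h2, h3, -⟩ := pow_qa n
  rw [← cl_pow, Commute, SemiconjBy, ← cl_mul, ← cl_mul, cl_eq] at h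
  obtain ⟨s, t, hs, -, e⟩ := h
  have hy : (na 0 ^ (n + 1)).1 = qa 0 ^ (n + 1) := rfl
  have hy' : nrm (qa 0 ^ (n + 1)) ≠ 0 := (na 0 ^ (n + 1)).2
  rw [Submonoid.coe_mul, Submonoid.coe_mul, hy] at e
  generalize qa 0 ^ (n + 1) = y at *
  have hq : y.imI ≠ 0 := fun e => by simp [e] at h3
  have h4 := congrArg nrm e
  rw [nrm_smul, nrm_smul, nrm_mul, nrm_mul, mul_comm (nrm y)] at h4
  have h5 := mul_right_cancel₀ (mul_ne_zero x.2 hy') h4
  have two := two_rg
  obtain rfl : s = t := by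
    have : (s - t) ^ 2 = 0 := by linear_combination h5 + (t ^ 2 - s * t) * two
    exact sub_eq_zero.1 (pow_eq_zero_iff two_ne_zero |>.1 this)
  have h6 := smul_right_injective Od hs e
  have h7 := congrArg QuaternionAlgebra.imJ h6
  have h8 := congrArg QuaternionAlgebra.imK h6
  simp only [QuaternionAlgebra.imJ_mul, QuaternionAlgebra.imK_mul, h1, h2] at h7 h8
  constructor
  · refine (mul_eq_zero.1 (?_ : x.1.imJ * y.imI = 0)).resolve_right hq
    linear_combination h7 + (X * x.1.imK * y.imI) * two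
  · refine (mul_eq_zero.1 (?_ : x.1.imK * y.imI = 0)).resolve_right hq
    linear_combination -h8 - (x.1.imJ * y.imI) * two

theorem main :
    ∃ (H X G : Type) (_ : MetricSpace X) (_ : Group G) (_ : MulAction G X)
      (K : Set ((H → Bool) × Finset H)) (ι : X → H → ℝ) (g : G),
      FaceClosed K ∧ FlagLinks K ∧ Realizes K ι ∧ SimplyConnectedSpace X ∧
      Nonempty (ChartedSpace (EuclideanSpace ℝ (Fin 4)) X) ∧ FreeCocompactCubical K ι G ∧
      g ≠ 1 ∧ IsInfiniteCyclic (stableCentraliser g) ∧ ¬ RankOne X g := by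
  refine main_of_lattice tr_a tr_b (fun j => len_unit 0 ?_) (fun i => len_unit 1 ?_)
    (fun i j => ⟨_, _, by rw [← cl_mul, v4, cl_mul]⟩) (by rw [← cl_st, st_na]; rfl)
    fun γ n hn h => ⟨?_, ?_⟩
  · rw [← ev_nrm]
    simp [nb, nrm_qb]
  · rw [← ev_nrm]
    simp [na, nrm_qa]
  · obtain ⟨x, rfl, hx⟩ := exists_prim 1 γ
    obtain ⟨h1, h2⟩ := comm_field hn h
    apply len_unit
    revert hx
    simp only [ev, h1, h2, eval_zero, nrm, ne_eq, QuaternionAlgebra.ext_iff]
    generalize eval 1 x.1.re = p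
    generalize eval 1 x.1.imI = q
    revert p q
    decide
  · obtain ⟨x, rfl, hx⟩ := exists_prim 0 γ
    obtain ⟨h1, h2⟩ := comm_field hn h
    have : nrm (ev 0 x.1) ≠ 0 ∨ ev 0 x.1 * ev 0 (qa 0) = 0 ∨ ev 0 x.1 * ev 0 (qa 1) = 0 := by
      rw [ev_qa, ev_qa]
      simp only [ev, h1, h2, eval_zero, nrm, ne_eq, QuaternionAlgebra.ext_iff]
      generalize eval 0 x.1.re = p
      generalize eval 0 x.1.imI = q
      revert p q
      decide
    rcases this with e | e | e
    · exact Or.inl (len_unit 0 e)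
    · have := len_down 0 (a := na 0) hx (nrm_qa 0) e
      exact Or.inr (Or.inl (by omega))
    · have := len_down 0 (a := na 1) hx (nrm_qa 1) e
      exact Or.inr (Or.inr (by omega))

end Pool.Agent.Lib.MP_b03b3a_al
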