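import Mathlib
import Pool.Agent.Lib.MP_b03b3a_al.Quat

set_option autoImplicit false

namespace Pool.Agent.Lib.MP_b03b3a_al

open Metric Topology

section

variable {H X G : Type} [MetricSpace X] [Group G] [MulAction G X]
  {K : Set ((H → Bool) × Finset H)} {ι : X → H → ℝ}

lemma mfd_cover (h : FreeCocompactCubical K ι G) :
    IsQuotientCoveringMap (Quotient.mk (MulAction.orbitRel G X)) G where
  __ := isQuotientMap_quotient_mk'
  continuous_const_smul g := (Isometry.of_dist_eq (h.1 g)).continuous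
  apply_eq_iff_mem_orbit := Quotient.eq''
  disjoint e := by
    obtain ⟨ε, hε, h1⟩ := h.2.2.1 e
    refine ⟨ball e (ε / 2), ball_mem_nhds e (by linarith), ?_⟩
    rintro g ⟨_, ⟨u, hu, rfl⟩, hv⟩
    refine h1 g ?_
    have h2 := dist_triangle (g • e) (g • u) e
    rw [h.1, dist_comm e u] at h2
    rw [mem_ball] at hu hv
    linarith

lemma mfd_far (h : FreeCocompactCubical K ι G) {x y : X} (hxy : y ∉ MulAction.orbit G x) :
    ∃ δ : ℝ, 0 < δ ∧ ∀ g : G, δ ≤ dist (g • x) y := by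
  obtain ⟨ε, hε, h1⟩ := h.2.2.1 x
  by_cases h2 : ∃ g : G, dist (g • x) y < ε / 2
  · obtain ⟨g, hg⟩ := h2
    have h3 : 0 < dist (g • x) y := dist_pos.mpr fun h4 => hxy ⟨g, h4⟩
    refine ⟨dist (g • x) y, h3, fun g' => ?_⟩
    by_contra h4
    have h5 : dist ((g⁻¹ * g') • x) x < ε := by
      rw [← h.1 g, smul_smul, mul_inv_cancel_left]
      have := dist_triangle_right (g' • x) (g • x) y
      linarith [not_le.mp h4]
    rw [inv_mul_eq_one.mp (h1 _ h5)] at h4
    exact h4 le_rfl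
  · push Not at h2
    exact ⟨ε / 2, by linarith, h2⟩

lemma mfd_t2 (h : FreeCocompactCubical K ι G) : T2Space (MulAction.orbitRel.Quotient G X) := by
  refine ⟨fun a b hab => ?_⟩
  obtain ⟨x, rfl⟩ := Quotient.exists_rep a
  obtain ⟨y, rfl⟩ := Quotient.exists_rep b
  have hp := mfd_cover h
  obtain ⟨δ, hδ, h1⟩ := mfd_far h (x := x) (y := y)
    fun h2 => hab (hp.apply_eq_iff_mem_orbit.mpr h2).symm
  refine ⟨_, _, hp.isOpenQuotientMap.isOpenMap _ (isOpen_ball (x := x) (ε := δ / 2)),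
    hp.isOpenQuotientMap.isOpenMap _ (isOpen_ball (x := y) (ε := δ / 2)),
    ⟨x, mem_ball_self (by linarith), rfl⟩, ⟨y, mem_ball_self (by linarith), rfl⟩, ?_⟩
  rw [Set.disjoint_left]
  rintro _ ⟨u, hu, rfl⟩ ⟨v, hv, huv⟩
  obtain ⟨g, hg⟩ := hp.apply_eq_iff_mem_orbit.mp huv
  have h2 := h1 g
  have h3 := dist_triangle (g • x) (g • u) y
  rw [h.1, dist_comm x u] at h3
  rw [mem_ball] at hu hv
  simp only at hg
  rw [hg] at h3
  linarith

lemma dist_le_eucl (hr : Realizes K ι) {c : (H → Bool) × Finset H} (hc : c ∈ K) {x y : X}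
    (hx : ι x ∈ cube c) (hy : ι y ∈ cube c) : dist x y ≤ eucl (ι x) (ι y) := by
  rw [hr.2.2, chainDist]
  refine csInf_le ⟨0, ?_⟩ ⟨1, fun i => if i = 0 then ι x else ι y, by simp, by simp, ?_, by simp⟩
  · rintro r ⟨n, p, -, -, -, rfl⟩
    exact Finset.sum_nonneg fun i _ => Real.sqrt_nonneg _
  · intro i hi
    obtain rfl : i = 0 := by omega
    exact ⟨c, hc, by simpa using hx, by simpa using hy⟩

lemma isCompact_cube (hr : Realizes K ι) {c : (H → Bool) × Finset H} (hc : c ∈ K) :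
    IsCompact (ι ⁻¹' cube c) := by
  classical
  have hex : ∀ a : c.2 → Set.Icc (0 : ℝ) 1, ∃ x : X,
      ι x = fun h => if hh : h ∈ c.2 then (a ⟨h, hh⟩ : ℝ) else if c.1 h = true then 1 else 0 := by
    intro a
    refine Set.mem_range.mp ?_
    rw [hr.2.1]
    refine Set.mem_iUnion₂.mpr ⟨c, hc, fun h => ⟨fun hh => ?_, fun hh => ?_⟩⟩
    · simp only [dif_pos hh]
      exact (a ⟨h, hh⟩).2
    · simp only [dif_neg hh]
  choose φ hφ using hex
  have hmem : ∀ a, ι (φ a) ∈ cube c := by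
    intro a h
    rw [hφ]
    refine ⟨fun hh => ?_, fun hh => ?_⟩
    · simp only [dif_pos hh]
      exact (a ⟨h, hh⟩).2
    · simp only [dif_neg hh]
  have he : ∀ a b, eucl (ι (φ a)) (ι (φ b)) = Real.sqrt (∑ h : c.2, ((a h : ℝ) - b h) ^ 2) := by
    intro a b
    rw [eucl, finsum_eq_sum_of_support_subset (s := c.2), ← Finset.sum_coe_sort]
    · congr 1
      refine Finset.sum_congr rfl fun h _ => ?_
      simp [hφ]
    · intro h hh
      by_contra h2
      simp only [Finset.mem_coe] at h2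
      simp [hφ, h2] at hh
  have hcont : Continuous φ := by
    refine continuous_iff_continuousAt.mpr fun b => tendsto_iff_dist_tendsto_zero.mpr ?_
    refine squeeze_zero (fun _ => dist_nonneg)
      (fun a => (dist_le_eucl hr hc (hmem a) (hmem b)).trans (he a b).le) ?_
    have h1 : Continuous fun a : c.2 → Set.Icc (0 : ℝ) 1 =>
        Real.sqrt (∑ h : c.2, ((a h : ℝ) - b h) ^ 2) := by fun_prop
    simpa using h1.tendsto b
  have hrange : ι ⁻¹' cube c = Set.range φ := by
    ext x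
    constructor
    · intro hx
      refine ⟨fun h => ⟨ι x h, (hx h).1 h.2⟩, hr.1 ?_⟩
      rw [hφ]
      funext h
      by_cases h1 : h ∈ c.2
      · rw [dif_pos h1]
      · rw [dif_neg h1, (hx h).2 h1]
    · rintro ⟨a, rfl⟩
      exact hmem a
  rw [hrange]
  exact isCompact_range hcont

lemma mfd_compact (hr : Realizes K ι) (h : FreeCocompactCubical K ι G) :
    CompactSpace (MulAction.orbitRel.Quotient G X) := by
  obtain ⟨F, hF, hfin, h1⟩ := h.2.2.2
  have hp := mfd_cover h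
  refine ⟨IsCompact.of_isClosed_subset ((hfin.isCompact_biUnion fun c hc =>
    isCompact_cube hr (hF hc)).image hp.continuous) isClosed_univ ?_⟩
  intro a _
  obtain ⟨x, rfl⟩ := Quotient.exists_rep a
  obtain ⟨g, c, hc, h2⟩ := h1 x
  exact ⟨g • x, Set.mem_iUnion₂.mpr ⟨c, hc, h2⟩, hp.map_smul g⟩

end

lemma transport {G G' : Type} [Group G] [Group G'] (e : G' ≃* G) {g : G}
    (h : IsInfiniteCyclic (stableCentraliser g)) :
    IsInfiniteCyclic (stableCentraliser (e.symm g)) := by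
  obtain ⟨k, hk, h1⟩ := h
  refine ⟨e.symm k, fun h2 => hk (by simpa using e.toMonoidHom.isOfFinOrder h2), ?_⟩
  ext x
  have h2 : x ∈ stableCentraliser (e.symm g) ↔ e x ∈ stableCentraliser g := by
    refine exists_congr fun n => and_congr_right fun _ => ?_
    rw [← e.injective.eq_iff]
    simp
  rw [h2, h1]
  constructor
  · rintro ⟨n, hn⟩
    exact ⟨n, e.injective (by simpa using hn)⟩
  · rintro ⟨n, hn⟩
    exact ⟨n, by simpa using congrArg e hn⟩

theorem main_manifold :
    ∃ (M : Type) (_ : TopologicalSpace M) (m : M) (H X : Type) (_ : MetricSpace X)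
      (_ : MulAction (FundamentalGroup M m) X) (p : X → M)
      (K : Set ((H → Bool) × Finset H)) (ι : X → H → ℝ) (g : FundamentalGroup M m),
      CompactSpace M ∧ T2Space M ∧ Nonempty (ChartedSpace (EuclideanSpace ℝ (Fin 4)) M) ∧
      IsQuotientCoveringMap p (FundamentalGroup M m) ∧ SimplyConnectedSpace X ∧
      FaceClosed K ∧ FlagLinks K ∧ Realizes K ι ∧
      FreeCocompactCubical K ι (FundamentalGroup M m) ∧
      g ≠ 1 ∧ IsInfiniteCyclic (stableCentraliser g) ∧ ¬ RankOne X g := by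
  obtain ⟨H, X, G, _, _, _, K, ι, g, h1, h2, h3, h4, ⟨h5⟩, h6, h7, h8, h9⟩ := main
  obtain ⟨x⟩ : Nonempty X := inferInstance
  have hp := mfd_cover h6
  let e : FundamentalGroup (MulAction.orbitRel.Quotient G X) (Quotient.mk _ x) ≃* G :=
    (hp.fundamentalGroupEquiv ⟨x, rfl⟩).trans (MulEquiv.inv' G).symm
  refine ⟨MulAction.orbitRel.Quotient G X, inferInstance, Quotient.mk _ x, H, X, inferInstance,
    MulAction.compHom X e.toMonoidHom, Quotient.mk _, K, ι, e.symm g, mfd_compact h3 h6,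
    mfd_t2 h6, ⟨hp.isCoveringMap.isLocalHomeomorph.chartedSpace hp.surjective⟩, ?_, h4, h1, h2, h3,
    ⟨fun a => h6.1 (e a), fun a => h6.2.1 (e a), fun y => ?_, ?_⟩, ?_, transport e h8, ?_⟩
  · let := MulAction.compHom X e.toMonoidHom
    refine { toIsQuotientMap := hp.toIsQuotientMap
             continuous_const_smul := fun a => hp.continuous_const_smul (e a)
             apply_eq_iff_mem_orbit := ?_
             disjoint := fun y => ?_ }
    · intro a b
      rw [hp.apply_eq_iff_mem_orbit]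
      constructor
      · rintro ⟨k, hk⟩
        refine ⟨e.symm k, ?_⟩
        change e (e.symm k) • b = a
        rw [e.apply_symm_apply]
        exact hk
      · rintro ⟨k, hk⟩
        exact ⟨e k, hk⟩
    · obtain ⟨U, hU, h10⟩ := hp.disjoint y
      exact ⟨U, hU, fun a ha => e.map_eq_one_iff.mp (h10 (e a) ha)⟩
  · obtain ⟨ε, hε, h10⟩ := h6.2.2.1 y
    exact ⟨ε, hε, fun a ha => e.map_eq_one_iff.mp (h10 (e a) ha)⟩
  · obtain ⟨F, hF, hfin, h10⟩ := h6.2.2.2
    refine ⟨F, hF, hfin, fun y => ?_⟩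
    obtain ⟨k, c, hc, h11⟩ := h10 y
    refine ⟨e.symm k, c, hc, ?_⟩
    change ι (e (e.symm k) • y) ∈ cube c
    rwa [e.apply_symm_apply]
  · exact fun h10 => h7 (e.symm.map_eq_one_iff.mp h10)
  · rintro ⟨c, ⟨h10, l, hl, h11⟩, h12⟩
    refine h9 ⟨c, ⟨h10, l, hl, fun t => ?_⟩, h12⟩
    have h13 : e (e.symm g) • c t = c (t + l) := h11 t
    rwa [e.apply_symm_apply] at h13

end Pool.Agent.Lib.MP_b03b3a_al
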